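import Pool.Agent.H.MP_43e44c_ag.GL.Co
import Pool.Agent.H.MP_43e44c_ag.GA.Odd

/-!
The data attached to an odd component of dimension at most two.
-/

set_option autoImplicit false

open Finset Module

namespace Pool.MP43e44c.GU

open Pool.MP43e44c.OD Pool.MP43e44c.GA Pool.MP43e44c.GL

universe u v

/-- The data attached to an odd component of dimension at most two. -/
structure Dat {G : Type u} [Group G] {ι : Type v} (H : Half G ι) [Fintype G] [Fintype ι]
    (W : WD ℚ G) (i : Fin W.m) (k : Fin 5) (ρ : G →* M2) : Prop where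
  typ : Typ H.c k ρ
  card : (coo k).card = W.a i
  ker : ∀ g, ρ g = 1 ↔ W.comp i (MonoidAlgebra.single g 1) = 1
  bad : ∀ v ∈ H.badI W i, (∑ j, if v j then ρ (H.t j) else -ρ (H.t j)).det = 0

end Pool.MP43e44c.GU
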