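import Pool.Agent.H.MP_43e44c_ag.OD.WdC

/-!
The row representation of a component of dimension two.
-/

set_option autoImplicit false

open Finset Module

namespace Pool.MP43e44c.GU

open Pool.MP43e44c.OD

universe u v

/-- The map `u ↦ u ᵥ* M` on the space of the rows. -/
private noncomputable def ClsR_T {D : Type u} [Ring D] [Algebra ℚ D] {n : ℕ}
    (M : Matrix (Fin n) (Fin n) D) : (Fin n → D) →ₗ[ℚ] (Fin n → D) where
  toFun u := Matrix.vecMul u M
  map_add' u v := Matrix.add_vecMul _ _ _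
  map_smul' c u := by
    rw [RingHom.id_apply]
    funext j
    simp only [Matrix.vecMul, dotProduct, Pi.smul_apply, smul_mul_assoc, Finset.smul_sum]

/-- PROOF. The space `V = Fin r → D` of the rows has dimension `r * finrank ℚ D = 2` over `ℚ`; choose an
isomorphism `e : V ≃ₗ[ℚ] (Fin 2 → ℚ)`, and let `R g` be the matrix of the `ℚ`-linear map
`u ↦ u ᵥ* comp i (single g 1)` acting on row vectors (`e (u ᵥ* comp i (single g 1)) = e u ᵥ* R g`), so
`R (g * h) = R g * R h`. -/
theorem exists_R {G : Type u} [Group G] [Fintype G] (W : WD ℚ G) (i : Fin W.m)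
    (hN : W.r i * finrank ℚ (W.D i) = 2) :
    ∃ (R : G →* Matrix (Fin 2) (Fin 2) ℚ) (e : (Fin (W.r i) → W.D i) ≃ₗ[ℚ] (Fin 2 → ℚ)),
      ∀ u g, e (Matrix.vecMul u (W.comp i (MonoidAlgebra.single g 1)))
        = Matrix.vecMul (e u) (R g) := by
  classical
  have hfr : finrank ℚ (Fin (W.r i) → W.D i) = finrank ℚ (Fin 2 → ℚ) := by
    rw [Module.finrank_pi_fintype, Finset.sum_const, Finset.card_univ, Fintype.card_fin,
      smul_eq_mul, hN, Module.finrank_fin_fun]
  let e : (Fin (W.r i) → W.D i) ≃ₗ[ℚ] (Fin 2 → ℚ) := LinearEquiv.ofFinrankEq _ _ hfr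
  let S : G → ((Fin 2 → ℚ) →ₗ[ℚ] (Fin 2 → ℚ)) := fun g =>
    (e.toLinearMap.comp (ClsR_T (W.comp i (MonoidAlgebra.single g 1)))).comp e.symm.toLinearMap
  have hS : ∀ g v, S g v = e (Matrix.vecMul (e.symm v) (W.comp i (MonoidAlgebra.single g 1))) :=
    fun g v => rfl
  have hS1 : S 1 = LinearMap.id := by
    refine LinearMap.ext fun v => ?_
    rw [hS, ← MonoidAlgebra.one_def, map_one, Matrix.vecMul_one, LinearEquiv.apply_symm_apply]
    rfl
  have hSm : ∀ g h, S (g * h) = (S h).comp (S g) := by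
    intro g h
    refine LinearMap.ext fun v => ?_
    change S (g * h) v = S h (S g v)
    rw [hS, hS h, hS g, LinearEquiv.symm_apply_apply, Matrix.vecMul_vecMul,
      ← map_mul, MonoidAlgebra.single_mul_single, one_mul]
  refine ⟨⟨⟨fun g => (LinearMap.toMatrix' (S g)).transpose, ?_⟩, ?_⟩, e, ?_⟩
  · change (LinearMap.toMatrix' (S 1)).transpose = 1
    rw [hS1, LinearMap.toMatrix'_id, Matrix.transpose_one]
  · intro g h
    change (LinearMap.toMatrix' (S (g * h))).transpose =
      (LinearMap.toMatrix' (S g)).transpose * (LinearMap.toMatrix' (S h)).transpose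
    rw [hSm, LinearMap.toMatrix'_comp, Matrix.transpose_mul]
  · intro u g
    change _ = Matrix.vecMul (e u) (LinearMap.toMatrix' (S g)).transpose
    rw [Matrix.vecMul_transpose, LinearMap.toMatrix'_mulVec, hS, LinearEquiv.symm_apply_apply]

end Pool.MP43e44c.GU
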