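import Pool.Agent.H.MP_43e44c_ag.GU.MatB
import Pool.Agent.H.MP_43e44c_ag.GU.ClsR
import Pool.Agent.H.MP_43e44c_ag.GU.ClsD

/-!
Odd components of dimension at most two (as modules) and odd integral representations.
-/

set_option autoImplicit false

open Finset Module

namespace Pool.MP43e44c.GU

open Pool.MP43e44c.OD Pool.MP43e44c.GA Pool.MP43e44c.GL

universe u v

theorem cls_card2 : ∀ k : Fin 5, k ≠ 0 → (∀ s ∈ full k, ∀ s' ∈ full k, s * s' = s' * s) →
    (coo k).card = 2 := by
  decide

theorem cls_card4 : ∀ k : Fin 5, (∃ s ∈ full k, ∃ s' ∈ full k, s * s' ≠ s' * s) →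
    (coo k).card = 4 := by
  decide

theorem cls_toQ2_inj {s s' : M2} (h : toQ2 s = toQ2 s') : s = s' := by
  ext a b
  have h1 := congrFun (congrFun h a) b
  simp only [toQ2, Matrix.map_apply] at h1
  exact_mod_cast h1

theorem cls_toQ2_one : toQ2 1 = 1 := by
  unfold toQ2
  exact Matrix.map_one _ (by simp) (by simp)

theorem cls_toQ2_sum {ι : Type v} [Fintype ι] (F : ι → M2) :
    toQ2 (∑ j, F j) = ∑ j, toQ2 (F j) := by
  ext a b
  simp [toQ2, Matrix.sum_apply]

theorem cls_toQ2_det (s : M2) : (toQ2 s).det = (s.det : ℚ) := by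
  rw [Matrix.det_fin_two, Matrix.det_fin_two]
  simp [toQ2]

/-- Degenerate sums. -/
theorem cls_det_zero {ι : Type v} [Fintype ι] (A : ι → Matrix (Fin 2) (Fin 2) ℚ) (B : ι → M2)
    (P : Matrix (Fin 2) (Fin 2) ℚ) (hP : IsUnit P.det) (h : ∀ j, P * A j = toQ2 (B j) * P)
    (v : ι → Bool) (h0 : (∑ j, if v j then A j else - A j).det = 0) :
    (∑ j, if v j then B j else - B j).det = 0 := by
  have h1 : P * (∑ j, if v j then A j else - A j)
      = toQ2 (∑ j, if v j then B j else - B j) * P := by
    rw [cls_toQ2_sum, Finset.mul_sum, Finset.sum_mul]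
    refine Finset.sum_congr rfl fun j _ => ?_
    by_cases hv : v j
    · simp only [hv, if_true]
      exact h j
    · have h2 : toQ2 (- B j) = - toQ2 (B j) := by
        ext a b
        simp [toQ2]
      simp only [hv, Bool.false_eq_true, if_false]
      rw [h2, mul_neg, neg_mul, h j]
  have h2 := congrArg Matrix.det h1
  rw [Matrix.det_mul, Matrix.det_mul, h0, mul_zero, cls_toQ2_det] at h2
  rcases mul_eq_zero.1 h2.symm with h3 | h3
  · exact_mod_cast h3
  · exact absurd h3 hP.ne_zero

/-- The component of the element attached to a vector of signs. -/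
theorem cls_comp_el {G : Type u} [Group G] {ι : Type v} (H : Half G ι) [Fintype G] [Fintype ι]
    (W : WD ℚ G) (i : Fin W.m) (v : ι → Bool) :
    W.comp i (H.el ℚ v) = ∑ j, if v j then W.comp i (MonoidAlgebra.single (H.t j) 1)
      else - W.comp i (MonoidAlgebra.single (H.t j) 1) := by
  unfold Half.el
  rw [map_sum]
  refine Finset.sum_congr rfl fun j _ => ?_
  by_cases hv : v j
  · simp only [hv, if_true]
  · simp only [hv, Bool.false_eq_true, if_false]
    rw [← map_neg]
    congr 1
    ext g
    simp

theorem cls_comp_mul {G : Type u} [Group G] [Fintype G]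
    (W : WD ℚ G) (i : Fin W.m) (g h : G) :
    W.comp i (MonoidAlgebra.single (g * h) 1)
      = W.comp i (MonoidAlgebra.single g 1) * W.comp i (MonoidAlgebra.single h 1) := by
  rw [← map_mul, MonoidAlgebra.single_mul_single, one_mul]

theorem cls_comp_one {G : Type u} [Group G] [Fintype G]
    (W : WD ℚ G) (i : Fin W.m) :
    W.comp i (MonoidAlgebra.single 1 1) = 1 := by
  rw [← map_one (W.comp i)]
  rfl

theorem cls_comp_surj {G : Type u} [Group G] [Fintype G]
    (W : WD ℚ G) (i : Fin W.m) : Function.Surjective (W.comp i) := by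
  intro M
  refine ⟨W.φ.symm (Pi.single i M), ?_⟩
  rw [WD.comp_apply, AlgEquiv.apply_symm_apply, Pi.single_eq_same]

/-- Linear span of the group elements. -/
theorem cls_span {G : Type u} [Group G] [Fintype G]
    (W : WD ℚ G) (i : Fin W.m) {S : Submodule ℚ (Matrix (Fin (W.r i)) (Fin (W.r i)) (W.D i))}
    (hS : ∀ g, W.comp i (MonoidAlgebra.single g 1) ∈ S)
    (M : Matrix (Fin (W.r i)) (Fin (W.r i)) (W.D i)) : M ∈ S := by
  obtain ⟨x, rfl⟩ := cls_comp_surj W i M
  induction x using MonoidAlgebra.induction_linear with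
  | zero => rw [map_zero]; exact S.zero_mem
  | add a b ha hb => rw [map_add]; exact S.add_mem ha hb
  | single a r =>
    have h1 : MonoidAlgebra.single a r = r • (MonoidAlgebra.single a (1 : ℚ)) := by
      ext g
      simp
    rw [h1, map_smul]
    exact S.smul_mem _ (hS a)

/-- The algebra is commutative if and only if the group is commutative. -/
theorem cls_comm {G : Type u} [Group G] [Fintype G]
    (W : WD ℚ G) (i : Fin W.m) (h : ∀ a b : G,
      W.comp i (MonoidAlgebra.single a 1) * W.comp i (MonoidAlgebra.single b 1)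
        = W.comp i (MonoidAlgebra.single b 1) * W.comp i (MonoidAlgebra.single a 1))
    (M N : Matrix (Fin (W.r i)) (Fin (W.r i)) (W.D i)) :
    M * N = N * M := by
  have h1 : ∀ b : G, ∀ M, M * W.comp i (MonoidAlgebra.single b 1)
      = W.comp i (MonoidAlgebra.single b 1) * M := by
    intro b M
    have h2 : ∀ M, M ∈ LinearMap.eqLocus
        (LinearMap.mulRight ℚ (W.comp i (MonoidAlgebra.single b 1)))
        (LinearMap.mulLeft ℚ (W.comp i (MonoidAlgebra.single b 1))) := by
      intro M
      refine cls_span W i (fun g => ?_) M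
      rw [LinearMap.mem_eqLocus]
      simpa using h g b
    simpa using h2 M
  have h2 : ∀ N, N ∈ LinearMap.eqLocus (LinearMap.mulLeft ℚ M) (LinearMap.mulRight ℚ M) := by
    intro N
    refine cls_span W i (fun g => ?_) N
    rw [LinearMap.mem_eqLocus]
    simpa using h1 g M
  simpa using h2 N

/-- Commutativity of the representation and of the component. -/
theorem cls_comm_iff {G : Type u} [Group G] {ι : Type v} (H : Half G ι) [Fintype G]
    (W : WD ℚ G) (i : Fin W.m) {k : Fin 5} {ρ : G →* M2} (hT : Typ H.c k ρ)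
    (hk : ∀ g, ρ g = 1 ↔ W.comp i (MonoidAlgebra.single g 1) = 1) :
    (∀ s ∈ full k, ∀ s' ∈ full k, s * s' = s' * s) ↔
      ∀ a b : G, W.comp i (MonoidAlgebra.single a 1) * W.comp i (MonoidAlgebra.single b 1)
        = W.comp i (MonoidAlgebra.single b 1) * W.comp i (MonoidAlgebra.single a 1) := by
  have key : ∀ a b : G, ρ a * ρ b = ρ b * ρ a ↔
      W.comp i (MonoidAlgebra.single a 1) * W.comp i (MonoidAlgebra.single b 1)
        = W.comp i (MonoidAlgebra.single b 1) * W.comp i (MonoidAlgebra.single a 1) := by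
    intro a b
    rw [← map_mul, ← map_mul, ← cls_comp_mul, ← cls_comp_mul]
    have e1 : ρ (a * b) = ρ (b * a) ↔ ρ (a * b * (b * a)⁻¹) = 1 := by
      constructor
      · intro h
        rw [map_mul, h, ← map_mul, mul_inv_cancel, map_one]
      · intro h
        calc ρ (a * b) = ρ (a * b * (b * a)⁻¹ * (b * a)) := by rw [inv_mul_cancel_right]
          _ = ρ (b * a) := by rw [map_mul, h, one_mul]
    have e2 : W.comp i (MonoidAlgebra.single (a * b) 1) = W.comp i (MonoidAlgebra.single (b * a) 1)
        ↔ W.comp i (MonoidAlgebra.single (a * b * (b * a)⁻¹) 1) = 1 := by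
      constructor
      · intro h
        rw [cls_comp_mul, h, ← cls_comp_mul, mul_inv_cancel, cls_comp_one]
      · intro h
        calc W.comp i (MonoidAlgebra.single (a * b) 1)
            = W.comp i (MonoidAlgebra.single (a * b * (b * a)⁻¹ * (b * a)) 1) := by
              rw [inv_mul_cancel_right]
          _ = W.comp i (MonoidAlgebra.single (b * a) 1) := by
              rw [cls_comp_mul, h, one_mul]
    rw [e1, e2]
    exact hk _
  constructor
  · intro h a b
    exact (key a b).1 (h _ (hT.mem a) _ (hT.mem b))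
  · intro h s hs s' hs'
    obtain ⟨a, rfl⟩ := hT.surj s hs
    obtain ⟨b, rfl⟩ := hT.surj s' hs'
    exact (key a b).2 (h a b)

/-- A division ring of dimension two is commutative. -/
theorem cls_quad {D : Type u} [DivisionRing D] [Algebra ℚ D] (h : finrank ℚ D = 2) (x y : D) :
    x * y = y * x := by
  by_cases hx : ∃ q : ℚ, x = algebraMap ℚ D q
  · obtain ⟨q, rfl⟩ := hx
    exact Algebra.commutes q y
  · have hli : LinearIndependent ℚ ![(1 : D), x] := by
      rw [LinearIndependent.pair_iff]
      intro s t hst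
      have ht : t = 0 := by
        by_contra ht
        apply hx
        refine ⟨- s / t, ?_⟩
        have h1 : t • x = (-s) • (1 : D) := by
          rw [neg_smul, ← add_eq_zero_iff_eq_neg, add_comm]
          exact hst
        have h2 : x = t⁻¹ • (t • x) := by rw [smul_smul, inv_mul_cancel₀ ht, one_smul]
        rw [h2, h1, smul_smul, Algebra.algebraMap_eq_smul_one]
        congr 1
        field_simp
      refine ⟨?_, ht⟩
      rw [ht, zero_smul, add_zero] at hst
      rcases smul_eq_zero.1 hst with h1 | h1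
      · exact h1
      · exact absurd h1 one_ne_zero
    have hsp : Submodule.span ℚ (Set.range ![(1 : D), x]) = ⊤ :=
      hli.span_eq_top_of_card_eq_finrank (by simp [h])
    have hy : y ∈ Submodule.span ℚ (Set.range ![(1 : D), x]) := by
      rw [hsp]; exact Submodule.mem_top
    rw [Matrix.range_cons, Matrix.range_cons, Matrix.range_empty, Set.union_empty] at hy
    rw [Set.singleton_union, Submodule.mem_span_pair] at hy
    obtain ⟨a, b, rfl⟩ := hy
    simp [mul_add, add_mul]

/-- Multiplication of a row by matrices. -/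
theorem cls_lin {D : Type u} [DivisionRing D] [Algebra ℚ D] {r : ℕ} (u : Fin r → D) :
    ∃ L : Matrix (Fin r) (Fin r) D →ₗ[ℚ] (Fin r → D), ∀ M, L M = Matrix.vecMul u M := by
  refine ⟨{ toFun := fun M => Matrix.vecMul u M
            map_add' := ?_
            map_smul' := ?_ }, fun M => rfl⟩
  · intro M N
    funext b
    simp [Matrix.vecMul, dotProduct, mul_add, Finset.sum_add_distrib]
  · intro q M
    funext b
    have h : Matrix.vecMul u (q • M) b = ∑ x, q • (u x * M x b) := by
      unfold Matrix.vecMul dotProduct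
      exact Finset.sum_congr rfl fun x _ => mul_smul_comm q (u x) (M x b)
    refine h.trans ?_
    have h2 : q • (∑ x, u x * M x b) = ∑ x, q • (u x * M x b) := by
      rw [Algebra.smul_def, Finset.mul_sum]
      exact Finset.sum_congr rfl fun x _ => (Algebra.smul_def _ _).symm
    exact h2.symm

/-- Components of dimension one. -/
theorem cls_one {G : Type u} [Group G] {ι : Type v} (H : Half G ι) [Fintype G] [Fintype ι]
    (W : WD ℚ G) (i : Fin W.m) (hi : H.Odd W i) (h1 : W.r i * finrank ℚ (W.D i) = 1) :
    ∃ (k : Fin 5) (ρ : G →* M2), Dat H W i k ρ := by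
  classical
  have hr : W.r i = 1 := Nat.dvd_one.1 ⟨_, h1.symm⟩
  have hD : finrank ℚ (W.D i) = 1 := by rwa [hr, one_mul] at h1
  have hA : finrank ℚ (Matrix (Fin (W.r i)) (Fin (W.r i)) (W.D i)) = 1 := by
    rw [Module.finrank_matrix]
    simp [hr, hD]
  have hbij := Algebra.finrank_eq_one_iff_bijective_algebraMap.1 hA
  have hex : ∀ g : G, ∃ q : ℚ, algebraMap ℚ (Matrix (Fin (W.r i)) (Fin (W.r i)) (W.D i)) q
      = W.comp i (MonoidAlgebra.single g 1) := fun g => hbij.2 _
  choose ψ hψ using hex
  have hmul : ∀ g h, ψ (g * h) = ψ g * ψ h := by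
    intro g h
    apply hbij.1
    rw [map_mul, hψ, hψ, hψ, cls_comp_mul]
  have hone : ψ 1 = 1 := by
    apply hbij.1
    rw [hψ, cls_comp_one, map_one]
  have hc : ψ H.c = -1 := by
    apply hbij.1
    rw [hψ, map_neg, map_one]
    exact hi
  have hpow : ∀ (g : G) (n : ℕ), ψ (g ^ n) = ψ g ^ n := by
    intro g n
    induction n with
    | zero => rw [pow_zero, pow_zero, hone]
    | succ n ih => rw [pow_succ, pow_succ, hmul, ih]
  have hpm : ∀ g, ψ g = 1 ∨ ψ g = -1 := by
    intro g
    have h2 : ψ g ^ (Fintype.card G) = 1 := by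
      rw [← hpow, pow_card_eq_one, hone]
    have h3 : |ψ g| = 1 := by
      have h4 : |ψ g| ^ (Fintype.card G) = 1 := by rw [← abs_pow, h2, abs_one]
      exact (pow_eq_one_iff_of_nonneg (abs_nonneg _) Fintype.card_ne_zero).1 h4
    exact eq_or_eq_neg_of_abs_eq h3
  let ρ : G →* M2 :=
    { toFun := fun g => if ψ g = 1 then 1 else -1
      map_one' := by simp [hone]
      map_mul' := by
        intro g h
        have h5 : (-1 : ℚ) ≠ 1 := by norm_num
        rcases hpm g with h2 | h2 <;> rcases hpm h with h3 | h3 <;>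
          simp [hmul, h2, h3, h5] }
  have hρ : ∀ g, ρ g = if ψ g = 1 then 1 else -1 := fun g => rfl
  have hne : (-1 : ℚ) ≠ 1 := by norm_num
  have hne2 : (-1 : M2) ≠ 1 := by decide
  have hk : ∀ g, ρ g = 1 ↔ W.comp i (MonoidAlgebra.single g 1) = 1 := by
    intro g
    rw [← hψ g, hρ g]
    constructor
    · intro h
      rcases hpm g with h2 | h2
      · rw [h2, map_one]
      · rw [h2, if_neg hne] at h
        exact absurd h hne2
    · intro h
      have h2 : ψ g = 1 := by
        apply hbij.1
        rw [h, map_one]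
      rw [h2, if_pos rfl]
  refine ⟨0, ρ, ⟨?_, ?_, ?_⟩, ?_, hk, ?_⟩
  · rw [hρ, hc, if_neg hne]
  · intro g
    rcases hpm g with h2 | h2
    · rw [hρ, h2, if_pos rfl]
      decide
    · rw [hρ, h2, if_neg hne]
      decide
  · intro s hs
    have h2 : s = 1 ∨ s = -1 := by
      revert s
      decide
    rcases h2 with rfl | rfl
    · exact ⟨1, map_one ρ⟩
    · refine ⟨H.c, ?_⟩
      rw [hρ, hc, if_neg hne]
  · unfold WD.a
    rw [hr, hD]
    decide
  · rintro v ⟨X, hX, hXv⟩
    have hsum : ∑ j, (if v j then ψ (H.t j) else - ψ (H.t j)) = 0 := by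
      by_contra hne0
      apply hX
      have h2 : W.comp i (H.el ℚ v) = algebraMap ℚ _
          (∑ j, (if v j then ψ (H.t j) else - ψ (H.t j))) := by
        rw [cls_comp_el, map_sum]
        refine Finset.sum_congr rfl fun j _ => ?_
        by_cases hv : v j
        · simp only [hv, if_true]
          rw [hψ]
        · simp only [hv, Bool.false_eq_true, if_false]
          rw [map_neg, hψ]
      rw [h2, ← Algebra.commutes, ← Algebra.smul_def] at hXv
      rcases smul_eq_zero.1 hXv with h3 | h3
      · exact absurd h3 hne0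
      · exact h3
    refine cls_det_zero (fun j => ψ (H.t j) • (1 : Matrix (Fin 2) (Fin 2) ℚ)) (fun j => ρ (H.t j)) 1
      (by simp) ?_ v ?_
    · intro j
      simp only [one_mul, mul_one]
      rcases hpm (H.t j) with h2 | h2
      · rw [hρ, h2, if_pos rfl, one_smul, cls_toQ2_one]
      · rw [hρ, h2, if_neg hne, neg_one_smul]
        ext a b
        have h3 := congrFun (congrFun cls_toQ2_one a) b
        simp only [toQ2, Matrix.map_apply, Matrix.neg_apply] at h3 ⊢
        rw [Int.cast_neg, h3]
    · have h4 : (∑ j, if v j then ψ (H.t j) • (1 : Matrix (Fin 2) (Fin 2) ℚ)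
          else - (ψ (H.t j) • (1 : Matrix (Fin 2) (Fin 2) ℚ)))
          = (∑ j, (if v j then ψ (H.t j) else - ψ (H.t j))) • (1 : Matrix (Fin 2) (Fin 2) ℚ) := by
        rw [Finset.sum_smul]
        refine Finset.sum_congr rfl fun j _ => ?_
        by_cases hv : v j <;> simp [hv]
      rw [h4, hsum, zero_smul, Matrix.det_zero]

/-- Components of dimension two. -/
theorem cls_two {G : Type u} [Group G] {ι : Type v} (H : Half G ι) [Fintype G] [Fintype ι]
    (W : WD ℚ G) (i : Fin W.m) (hi : H.Odd W i) (h2 : W.r i * finrank ℚ (W.D i) = 2) :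
    ∃ (k : Fin 5) (ρ : G →* M2), Dat H W i k ρ := by
  classical
  obtain ⟨R, e, hRe⟩ := exists_R W i h2
  -- one is recognized by the rows
  have hvec : ∀ M N : Matrix (Fin (W.r i)) (Fin (W.r i)) (W.D i),
      (∀ u, Matrix.vecMul u M = Matrix.vecMul u N) → M = N := by
    intro M N h
    ext a b
    have h3 := congrFun (h (Pi.single a 1)) b
    simpa using h3
  have hvecQ : ∀ M N : Matrix (Fin 2) (Fin 2) ℚ,
      (∀ u, Matrix.vecMul u M = Matrix.vecMul u N) → M = N := by
    intro M N h
    ext a b
    have h3 := congrFun (h (Pi.single a 1)) b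
    simpa using h3
  have hR1 : ∀ g, R g = 1 ↔ W.comp i (MonoidAlgebra.single g 1) = 1 := by
    intro g
    constructor
    · intro h
      apply hvec
      intro u
      apply e.injective
      rw [hRe, h, Matrix.vecMul_one, Matrix.vecMul_one]
    · intro h
      apply hvecQ
      intro w
      have h3 := hRe (e.symm w) g
      rw [h, Matrix.vecMul_one, LinearEquiv.apply_symm_apply] at h3
      rw [← h3, Matrix.vecMul_one]
  have hRc : R H.c = -1 := by
    apply hvecQ
    intro w
    have h3 := hRe (e.symm w) H.c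
    have h4 : W.comp i (MonoidAlgebra.single H.c 1) = -1 := hi
    rw [h4, Matrix.vecMul_neg, Matrix.vecMul_one, map_neg, LinearEquiv.apply_symm_apply] at h3
    rw [← h3, Matrix.vecMul_neg, Matrix.vecMul_one]
  have hirr : ∀ w : Fin 2 → ℚ, w ≠ 0 → ∃ g, ∀ a : ℚ, Matrix.vecMul w (R g) ≠ a • w := by
    intro w hw
    by_contra hcon
    push Not at hcon
    set u := e.symm w with hu
    have hu0 : u ≠ 0 := fun h => hw (by rw [← e.apply_symm_apply w, ← hu, h, map_zero])
    have hew : e u = w := e.apply_symm_apply w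
    -- all images of `u` are multiples of `u`
    have h3 : ∀ M : Matrix (Fin (W.r i)) (Fin (W.r i)) (W.D i),
        Matrix.vecMul u M ∈ Submodule.span ℚ {u} := by
      intro M
      obtain ⟨L, hL⟩ := cls_lin u
      have h4 : M ∈ (Submodule.span ℚ {u}).comap L := by
        refine cls_span W i (fun g => ?_) M
        rw [Submodule.mem_comap]
        rw [hL]
        obtain ⟨a, ha⟩ := hcon g
        rw [Submodule.mem_span_singleton]
        refine ⟨a, ?_⟩
        apply e.injective
        rw [hRe, hew, ha, map_smul, hew]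
      rwa [Submodule.mem_comap, hL] at h4
    obtain ⟨j, hj⟩ : ∃ j, u j ≠ 0 := by
      by_contra hno
      push Not at hno
      exact hu0 (funext hno)
    have h5 : ∀ z : Fin (W.r i) → W.D i, z ∈ Submodule.span ℚ {u} := by
      intro z
      have h6 := h3 (Matrix.of fun a b => if a = j then (u j)⁻¹ * z b else 0)
      have h7 : Matrix.vecMul u (Matrix.of fun a b => if a = j then (u j)⁻¹ * z b else 0) = z := by
        funext b
        simp only [Matrix.vecMul, dotProduct, Matrix.of_apply]
        rw [Finset.sum_eq_single j]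
        · rw [if_pos rfl, ← mul_assoc, mul_inv_cancel₀ hj, one_mul]
        · intro a _ ha
          rw [if_neg ha, mul_zero]
        · intro h
          exact absurd (Finset.mem_univ j) h
      rwa [h7] at h6
    have h8 : ∀ z : Fin 2 → ℚ, ∃ a : ℚ, a • w = z := by
      intro z
      obtain ⟨a, ha⟩ := Submodule.mem_span_singleton.1 (h5 (e.symm z))
      refine ⟨a, ?_⟩
      rw [← hew, ← map_smul, ha, e.apply_symm_apply]
    obtain ⟨a, ha⟩ := h8 (Pi.single 0 1)
    obtain ⟨b, hb⟩ := h8 (Pi.single 1 1)
    have a0 := congrFun ha 0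
    have a1 := congrFun ha 1
    have b0 := congrFun hb 0
    have b1 := congrFun hb 1
    simp at a0 a1 b0 b1
    rcases a1 with a1 | a1
    · rw [a1] at a0; simp at a0
    · rw [a1] at b1; simp at b1
  obtain ⟨k, ρ, P, hk0, hT, hP, hPR⟩ := cls_mat R hRc hirr
  have hρ1 : ∀ g, ρ g = 1 ↔ R g = 1 := by
    intro g
    have hPu : IsUnit P := (Matrix.isUnit_iff_isUnit_det P).2 hP
    constructor
    · intro h
      have h3 := hPR g
      rw [h, cls_toQ2_one, one_mul] at h3
      exact hPu.mul_left_cancel (by rw [h3, mul_one])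
    · intro h
      have h3 := hPR g
      rw [h, mul_one] at h3
      apply cls_toQ2_inj
      rw [cls_toQ2_one]
      exact hPu.mul_right_cancel (by rw [← h3, one_mul])
  have hk : ∀ g, ρ g = 1 ↔ W.comp i (MonoidAlgebra.single g 1) = 1 := fun g =>
    (hρ1 g).trans (hR1 g)
  refine ⟨k, ρ, hT, ?_, hk, ?_⟩
  · have hci := cls_comm_iff H W i hT hk
    have hr0 : W.r i ≠ 0 := NeZero.ne _
    have hrd : (W.r i = 1 ∧ finrank ℚ (W.D i) = 2) ∨ (W.r i = 2 ∧ finrank ℚ (W.D i) = 1) := by
      have hle : W.r i ≤ 2 := Nat.le_of_dvd (by norm_num) ⟨_, h2.symm⟩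
      have h3 : W.r i = 1 ∨ W.r i = 2 := by omega
      rcases h3 with h3 | h3
      · left
        rw [h3, one_mul] at h2
        exact ⟨h3, h2⟩
      · right
        rw [h3] at h2
        exact ⟨h3, by omega⟩
    unfold WD.a
    rcases hrd with ⟨hr, hD⟩ | ⟨hr, hD⟩
    · rw [hr, hD]
      refine cls_card2 k hk0 (hci.2 ?_)
      intro a b
      have hsub : Subsingleton (Fin (W.r i)) := by
        rw [hr]
        infer_instance
      ext x y
      rw [Matrix.mul_apply, Matrix.mul_apply]
      refine Finset.sum_congr rfl fun z _ => ?_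
      rw [Subsingleton.elim x z, Subsingleton.elim y z]
      exact cls_quad hD _ _
    · rw [hr, hD]
      refine cls_card4 k ?_
      by_contra hno
      push Not at hno
      have h3 := cls_comm W i (hci.1 hno)
      have hnt : Nontrivial (Fin (W.r i)) := by
        rw [hr]
        infer_instance
      obtain ⟨x, y, hxy⟩ := exists_pair_ne (Fin (W.r i))
      have h4 := h3 (Matrix.single x y 1) (Matrix.single y x 1)
      rw [Matrix.single_mul_single_same, Matrix.single_mul_single_same] at h4
      have h5 := congrFun (congrFun h4 x) x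
      rw [Matrix.single_apply_same, Matrix.single_apply_of_ne] at h5
      · simp at h5
      · rintro ⟨h6, -⟩
        exact hxy h6.symm
  · rintro v ⟨X, hX, hXv⟩
    obtain ⟨a, ha⟩ : ∃ a, X a ≠ 0 := by
      by_contra hno
      push Not at hno
      exact hX (funext hno)
    refine cls_det_zero (fun j => R (H.t j)) (fun j => ρ (H.t j)) P hP (fun j => hPR _) v ?_
    apply Matrix.exists_vecMul_eq_zero_iff.1
    refine ⟨e (X a), fun h => ha (e.injective (by rw [h, map_zero])), ?_⟩
    have h3 : Matrix.vecMul (X a) (W.comp i (H.el ℚ v)) = 0 := by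
      have h4 := congrFun hXv a
      rw [Matrix.mul_apply_eq_vecMul] at h4
      exact h4
    have h5 : e (Matrix.vecMul (X a) (W.comp i (H.el ℚ v)))
        = Matrix.vecMul (e (X a)) (∑ j, if v j then R (H.t j) else - R (H.t j)) := by
      rw [cls_comp_el, Matrix.vecMul_sum, Matrix.vecMul_sum, map_sum]
      refine Finset.sum_congr rfl fun j _ => ?_
      by_cases hv : v j
      · simp only [hv, if_true]
        exact hRe _ _
      · simp only [hv, Bool.false_eq_true, if_false]
        rw [Matrix.vecMul_neg, Matrix.vecMul_neg, map_neg, hRe]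
    rw [← h5, h3, map_zero]

/-- Classification of the odd components of dimension at most two. -/
theorem cls {G : Type u} [Group G] {ι : Type v} (H : Half G ι) [Fintype G] [Fintype ι]
    (W : WD ℚ G) (i : Fin W.m) (hi : H.Odd W i) (h2 : W.r i * finrank ℚ (W.D i) ≤ 2) :
    ∃ (k : Fin 5) (ρ : G →* M2), Dat H W i k ρ := by
  have hr0 : W.r i ≠ 0 := NeZero.ne _
  have hD0 : finrank ℚ (W.D i) ≠ 0 := (Module.finrank_pos (R := ℚ) (M := W.D i)).ne'
  have h0 : W.r i * finrank ℚ (W.D i) ≠ 0 := mul_ne_zero hr0 hD0
  have h3 : W.r i * finrank ℚ (W.D i) = 1 ∨ W.r i * finrank ℚ (W.D i) = 2 := by omega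
  rcases h3 with h3 | h3
  · exact cls_one H W i hi h3
  · exact cls_two H W i hi h3

end Pool.MP43e44c.GU
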