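import Pool.Agent.H.MP_43e44c_ag.GU.Bad
import Pool.Agent.H.MP_43e44c_ag.GU.Cls
import Pool.Agent.H.MP_43e44c_ag.GL.UpB

/-!
Components which are matrix algebras of size two over the rationals.
-/

set_option autoImplicit false

open Finset Module

namespace Pool.MP43e44c.GU

open Pool.MP43e44c.OD Pool.MP43e44c.GA Pool.MP43e44c.GL

universe u v

/-- `cls`, `badI_le_ev`, `ev_up`: `W.a i = 4`, so `k = 3` or `k = 4`. -/
theorem hypS2 : ∃ C : ℝ, 0 < C ∧
    ∀ {G : Type} [Group G] {ι : Type} (H : Half G ι) [Fintype G] [Fintype ι] (W : WD ℚ G)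
      (i : Fin W.m), H.Odd W i → W.r i = 2 → finrank ℚ (W.D i) = 1 → 2 ≤ Fintype.card ι →
      (((H.badI W i).ncard : ℕ) : ℝ) ≤ C * Real.log (Fintype.card ι) / Fintype.card ι *
        2 ^ Fintype.card ι := by
  obtain ⟨C3, hC3, H3⟩ := ev_up.{0} 3
  obtain ⟨C4, hC4, H4⟩ := ev_up.{0} 4
  refine ⟨C3 + C4, by positivity, ?_⟩
  intro G _ ι H _ _ W i hi hr hf hn
  obtain ⟨k, ρ, h⟩ := cls H W i hi (by rw [hr, hf])
  have hcard : (coo k).card = 4 := by
    rw [h.card, WD.a, hr, hf]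
    norm_num
  have hk : k = 3 ∨ k = 4 := by
    have hall : ∀ k : Fin 5, (coo k).card = 4 → k = 3 ∨ k = 4 := by decide
    exact hall k hcard
  have hG : Fintype.card G = 2 * Fintype.card ι := H.card_eq
  have hb : (((H.badI W i).ncard : ℕ) : ℝ) ≤ ((Ev H.c ρ).card : ℝ) := by
    exact_mod_cast badI_le_ev H h
  have hn0 : (0 : ℝ) < (Fintype.card ι : ℝ) := by
    have : 0 < Fintype.card ι := by omega
    exact_mod_cast this
  have hlog : 0 ≤ Real.log (Fintype.card ι : ℝ) := Real.log_nonneg (by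
    have : 1 ≤ Fintype.card ι := by omega
    exact_mod_cast this)
  have hq : 0 ≤ Real.log (Fintype.card ι : ℝ) / (Fintype.card ι : ℝ) := by positivity
  have hp : (0 : ℝ) < 2 ^ Fintype.card ι := by positivity
  have key : ∀ C : ℝ, C ≤ C3 + C4 → ((Ev H.c ρ).card : ℝ) ≤
      C * (Real.log (Fintype.card ι : ℝ) / (Fintype.card ι : ℝ)) * 2 ^ Fintype.card ι →
      (((H.badI W i).ncard : ℕ) : ℝ) ≤ (C3 + C4) * Real.log (Fintype.card ι) / Fintype.card ι *
        2 ^ Fintype.card ι := by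
    intro C hC hE
    refine hb.trans (hE.trans ?_)
    rw [mul_div_assoc]
    exact mul_le_mul_of_nonneg_right (mul_le_mul_of_nonneg_right hC hq) hp.le
  rcases hk with rfl | rfl
  · exact key C3 (by linarith) (H3 H.sq h.typ _ hG hn)
  · exact key C4 (by linarith) (H4 H.sq h.typ _ hG hn)

end Pool.MP43e44c.GU
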