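import Pool.Agent.H.MP_43e44c_ag.GU.S3B

/-!
Components which are matrix algebras of size at least three over the rationals, summary.
-/

set_option autoImplicit false

open Finset Module

namespace Pool.MP43e44c.GU

open Pool.MP43e44c.OD Pool.MP43e44c.GA

universe u v

/-- Powers of logarithms are small. -/
theorem s3C_log {a : ℝ} (ha : 0 ≤ a) : ∃ K : ℝ, 0 < K ∧ ∀ n : ℝ, 2 ≤ n →
    Real.log n ^ a * (1 + Real.log n) ≤ K * n ^ (1 / 4 : ℝ) := by
  set ε : ℝ := 1 / (4 * (a + 1)) with hε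
  have hε0 : 0 < ε := by positivity
  refine ⟨(1 / ε) ^ a * (1 + 1 / ε), by positivity, ?_⟩
  intro n hn
  have hn0 : (0 : ℝ) < n := by linarith
  have hlog0 : 0 ≤ Real.log n := Real.log_nonneg (by linarith)
  have h1 : Real.log n ≤ n ^ ε * (1 / ε) := by
    have := Real.log_le_rpow_div hn0.le hε0
    rwa [div_eq_mul_one_div] at this
  have hne : (1 : ℝ) ≤ n ^ ε := Real.one_le_rpow (by linarith) hε0.le
  have h2 : 1 + Real.log n ≤ n ^ ε * (1 + 1 / ε) := by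
    rw [mul_add, mul_one]
    exact add_le_add hne h1
  have h3 : Real.log n ^ a ≤ (n ^ ε) ^ a * (1 / ε) ^ a := by
    rw [← Real.mul_rpow (by positivity) (by positivity)]
    exact Real.rpow_le_rpow hlog0 h1 ha
  have h4 : (n ^ ε) ^ a * n ^ ε = n ^ (1 / 4 : ℝ) := by
    rw [← Real.rpow_mul hn0.le, ← Real.rpow_add hn0]
    congr 1
    rw [hε]
    field_simp
  calc Real.log n ^ a * (1 + Real.log n)
      ≤ ((n ^ ε) ^ a * (1 / ε) ^ a) * (n ^ ε * (1 + 1 / ε)) :=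
        mul_le_mul h3 h2 (by linarith) (by positivity)
    _ = (1 / ε) ^ a * (1 + 1 / ε) * ((n ^ ε) ^ a * n ^ ε) := by ring
    _ = _ := by rw [h4]

/-- The numerical conclusion: the bound of `badI_depQ` is at most `C n ^ (-2) + C (log n) ^ (...) n ^ (-3/2)`.
For `card ι ≤ 1` use that the number of bad vectors is at most `2 ^ card ι` (the case `card ι = 0` does
not occur, since `ι` is not empty: `H.π 1`). -/
theorem hypS3 (r : ℕ) (hr : 3 ≤ r) : ∃ c C : ℝ, 0 < c ∧ 0 < C ∧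
    ∀ {G : Type} [Group G] {ι : Type} (H : Half G ι) [Fintype G] [Fintype ι] (W : WD ℚ G)
      (i : Fin W.m), H.Odd W i → W.r i = r → finrank ℚ (W.D i) = 1 →
      (((H.badI W i).ncard : ℕ) : ℝ) ≤ C * (Fintype.card ι : ℝ) ^ (-(1 + c)) *
        2 ^ Fintype.card ι := by
  obtain ⟨C, hC, hdep⟩ := badI_depQ.{0, 0} r hr
  have hrR : (3 : ℝ) ≤ r := by exact_mod_cast hr
  have ha : (0 : ℝ) ≤ ((r : ℝ) ^ 2 - 3) / 2 := by nlinarith
  obtain ⟨K, hK, hlog⟩ := s3C_log ha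
  refine ⟨1 / 4, C * (1 + K) + 1, by norm_num, by positivity, ?_⟩
  intro G _ ι H _ _ W i hi hWr hfr
  classical
  have hpos : 0 < Fintype.card ι := Fintype.card_pos_iff.2 ⟨H.π 1⟩
  rcases Nat.lt_or_ge (Fintype.card ι) 2 with hlt | hge
  · have h1 : Fintype.card ι = 1 := by omega
    have h2 : (H.badI W i).ncard ≤ 2 ^ Fintype.card ι := by
      have h3 := Set.ncard_le_ncard (Set.subset_univ (H.badI W i)) (Set.toFinite _)
      rw [Set.ncard_univ, Nat.card_eq_fintype_card, Fintype.card_fun, Fintype.card_bool] at h3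
      exact h3
    have h3 : (((H.badI W i).ncard : ℕ) : ℝ) ≤ 2 ^ Fintype.card ι := by exact_mod_cast h2
    have h4 : ((Fintype.card ι : ℕ) : ℝ) = 1 := by rw [h1, Nat.cast_one]
    rw [h4, Real.one_rpow, mul_one]
    refine h3.trans ?_
    have h5 : (0 : ℝ) ≤ 2 ^ Fintype.card ι := by positivity
    have h6 : 0 ≤ C * (1 + K) := by positivity
    nlinarith
  · have h1 := hdep H W i hi hWr hfr hge
    refine h1.trans ?_
    refine mul_le_mul_of_nonneg_right ?_ (by positivity)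
    set n : ℝ := (Fintype.card ι : ℝ) with hn
    have hn2 : (2 : ℝ) ≤ n := by rw [hn]; exact_mod_cast hge
    have hn0 : (0 : ℝ) < n := by linarith
    have hlog0 : 0 ≤ Real.log n := Real.log_nonneg (by linarith)
    have h2 : n ^ (-2 : ℝ) ≤ n ^ (-(1 + 1 / 4) : ℝ) :=
      Real.rpow_le_rpow_of_exponent_le (by linarith) (by norm_num)
    have h3 : (n * Real.log n) ^ (((r : ℝ) ^ 2 - 3) / 2) * (1 + Real.log n) *
        n ^ (-((r : ℝ) ^ 2) / 2) ≤ K * n ^ (-(1 + 1 / 4) : ℝ) := by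
      rw [Real.mul_rpow hn0.le hlog0]
      have h4 : n ^ (((r : ℝ) ^ 2 - 3) / 2) * n ^ (-((r : ℝ) ^ 2) / 2) * n ^ (1 / 4 : ℝ)
          = n ^ (-(1 + 1 / 4) : ℝ) := by
        rw [← Real.rpow_add hn0, ← Real.rpow_add hn0]
        congr 1
        ring
      calc n ^ (((r : ℝ) ^ 2 - 3) / 2) * Real.log n ^ (((r : ℝ) ^ 2 - 3) / 2) *
            (1 + Real.log n) * n ^ (-((r : ℝ) ^ 2) / 2)
          = (n ^ (((r : ℝ) ^ 2 - 3) / 2) * n ^ (-((r : ℝ) ^ 2) / 2)) *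
            (Real.log n ^ (((r : ℝ) ^ 2 - 3) / 2) * (1 + Real.log n)) := by ring
        _ ≤ (n ^ (((r : ℝ) ^ 2 - 3) / 2) * n ^ (-((r : ℝ) ^ 2) / 2)) *
            (K * n ^ (1 / 4 : ℝ)) :=
          mul_le_mul_of_nonneg_left (hlog n hn2) (by positivity)
        _ = K * (n ^ (((r : ℝ) ^ 2 - 3) / 2) * n ^ (-((r : ℝ) ^ 2) / 2) * n ^ (1 / 4 : ℝ)) := by
          ring
        _ = _ := by rw [h4]
    have h5 : C * (n * Real.log n) ^ (((r : ℝ) ^ 2 - 3) / 2) * (1 + Real.log n) *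
        n ^ (-((r : ℝ) ^ 2) / 2) ≤ C * (K * n ^ (-(1 + 1 / 4) : ℝ)) := by
      have h6 := mul_le_mul_of_nonneg_left h3 hC.le
      refine le_trans (le_of_eq ?_) h6
      ring
    have h7 : 0 ≤ n ^ (-(1 + 1 / 4) : ℝ) := by positivity
    calc C * n ^ (-2 : ℝ) + C * (n * Real.log n) ^ (((r : ℝ) ^ 2 - 3) / 2) *
          (1 + Real.log n) * n ^ (-((r : ℝ) ^ 2) / 2)
        ≤ C * n ^ (-(1 + 1 / 4) : ℝ) + C * (K * n ^ (-(1 + 1 / 4) : ℝ)) :=
          add_le_add (mul_le_mul_of_nonneg_left h2 hC.le) h5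
      _ = C * (1 + K) * n ^ (-(1 + 1 / 4) : ℝ) := by ring
      _ ≤ (C * (1 + K) + 1) * n ^ (-(1 + 1 / 4) : ℝ) :=
          mul_le_mul_of_nonneg_right (by linarith) h7

end Pool.MP43e44c.GU
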