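import Pool.Agent.H.MP_43e44c_ag.GU.Cou
import Pool.Agent.H.MP_43e44c_ag.GU.S2
import Pool.Agent.H.MP_43e44c_ag.GU.S3C
import Pool.Agent.H.MP_43e44c_ag.GA.FinG
import Pool.Agent.H.MP_43e44c_ag.GA.Fld
import Pool.Agent.H.MP_43e44c_ag.GL.LowA

/-!
Galois CM fields: the upper bound.
-/

set_option autoImplicit false

open NumberField Finset Module

namespace Pool.MP43e44c.GU

open Pool.MP43e44c.OD Pool.MP43e44c.GA Pool.MP43e44c.GL

theorem finU_sum {x₀ x₁ x₂ x₃ x₄ n : ℝ} (al : Fin 5 → ℝ)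
    (h0 : al 0 = 1 / √n) (h1 : al 1 = 1 / n) (h2 : al 2 = 1 / n)
    (h3 : al 3 = Real.log n / n) (h4 : al 4 = Real.log n / n) (x : Fin 5 → ℝ)
    (hx0 : x 0 = x₀) (hx1 : x 1 = x₁) (hx2 : x 2 = x₂) (hx3 : x 3 = x₃) (hx4 : x 4 = x₄) :
    x₀ / √n + (x₁ + x₂) / n + (x₃ + x₄) * Real.log n / n = ∑ k, x k * al k := by
  rw [Fin.sum_univ_five, h0, h1, h2, h3, h4, hx0, hx1, hx2, hx3, hx4]
  ring

/-- The upper bound for all Galois CM fields. -/
theorem gal_upper.{u} (hA : HypA) (hB : HypB) : ∃ C c : ℝ, 0 < C ∧ 0 < c ∧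
    ∀ {K : Type u} [Field K] [NumberField K] [IsCMField K] [IsGalois ℚ K] {n : ℕ},
    finrank ℚ K = 2 * n →
    ({Φ : Finset (K →+* ℂ) | IsCMType Φ ∧ ¬ HodgeRingGeneratedByDivisors Φ}.ncard : ℝ)
      ≤ C * (∑ k, (GCnt K n k).ncard * al k n + (n : ℝ) ^ (-c)) * 2 ^ n := by
  classical
  have hS2 : HypS2 := hypS2
  have hS3 : HypS3 := fun r hr => hypS3 r hr
  obtain ⟨C, c, hC, hc, hup⟩ := GA.group_upper hA hB hS2 hS3
  refine ⟨C + 1, c, by linarith, hc, ?_⟩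
  intro K _ _ _ _ n hK
  have hn0 : 0 < n := by
    have := finrank_pos (R := ℚ) (M := K)
    omega
  have hnR : (0 : ℝ) < n := by exact_mod_cast hn0
  have hn1R : (1 : ℝ) ≤ n := by exact_mod_cast hn0
  have hlog : 0 ≤ Real.log n := Real.log_nonneg hn1R
  have hpow : (0 : ℝ) < 2 ^ n := by positivity
  have hrp : 0 ≤ (n : ℝ) ^ (-c) := Real.rpow_nonneg hnR.le _
  have hsum0 : (0 : ℝ) ≤ ∑ k, (GCnt K n k).ncard * al k n := by
    refine Finset.sum_nonneg fun k _ => mul_nonneg (Nat.cast_nonneg _) ?_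
    fin_cases k
    · exact div_nonneg zero_le_one (Real.sqrt_nonneg _)
    · exact div_nonneg zero_le_one hnR.le
    · exact div_nonneg zero_le_one hnR.le
    · exact div_nonneg hlog hnR.le
    · exact div_nonneg hlog hnR.le
  obtain ⟨ι, fι, H, hι, hconj, hle⟩ := GA.field_red hK
  have hle' : ({Φ : Finset (K →+* ℂ) | IsCMType Φ ∧ ¬ HodgeRingGeneratedByDivisors Φ}.ncard : ℝ)
      ≤ (H.bad.ncard : ℝ) := by exact_mod_cast hle
  refine hle'.trans ?_
  rcases Nat.lt_or_ge n 2 with h1 | h2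
  · have hn : n = 1 := by omega
    have h3 : H.bad.ncard ≤ 2 ^ n := by
      refine (Set.ncard_le_card _).trans (le_of_eq ?_)
      rw [Nat.card_eq_fintype_card, Fintype.card_fun, Fintype.card_bool, hι]
    have h4 : (H.bad.ncard : ℝ) ≤ 2 ^ n := by exact_mod_cast h3
    refine h4.trans ?_
    have h5 : (n : ℝ) ^ (-c) = 1 := by rw [hn, Nat.cast_one, Real.one_rpow]
    rw [h5]
    have h6 : (1 : ℝ) ≤ (C + 1) * (∑ k, (GCnt K n k).ncard * al k n + 1) := by nlinarith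
    nlinarith
  · have hcard : Fintype.card (GG K) ≠ 0 := Fintype.card_ne_zero
    obtain ⟨W⟩ := exists_wd ℚ (GG K) (by exact_mod_cast hcard)
    have h3 := hup H W (by rw [hι]; exact h2)
    have e1 := count_one hι H hconj W
    have e2 := count_two hι H hconj W
    have e3 := count_four hι H hconj W
    rw [hι] at h3
    refine h3.trans ?_
    have e1' : (({i : Fin W.m | H.Odd W i ∧ W.a i = 1 ∧ (H.badI W i).Nonempty}.ncard : ℕ) : ℝ) ≤
        (GCnt K n 0).ncard := by exact_mod_cast e1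
    have e2' : (({i : Fin W.m | H.Odd W i ∧ W.a i = 2 ∧ (H.badI W i).Nonempty}.ncard : ℕ) : ℝ) ≤
        (GCnt K n 1).ncard + (GCnt K n 2).ncard := by exact_mod_cast e2
    have e3' : (({i : Fin W.m | H.Odd W i ∧ W.r i = 2 ∧ finrank ℚ (W.D i) = 1}.ncard : ℕ) : ℝ) ≤
        (GCnt K n 3).ncard + (GCnt K n 4).ncard := by exact_mod_cast e3
    have hs := finU_sum (n := (n : ℝ)) (fun k => al k n) rfl rfl rfl rfl rfl
      (fun k => ((GCnt K n k).ncard : ℝ)) rfl rfl rfl rfl rfl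
    rw [← hs]
    apply mul_le_mul_of_nonneg_right _ hpow.le
    generalize (({i : Fin W.m | H.Odd W i ∧ W.a i = 1 ∧ (H.badI W i).Nonempty}.ncard : ℕ) : ℝ) = y1
      at *
    generalize (({i : Fin W.m | H.Odd W i ∧ W.a i = 2 ∧ (H.badI W i).Nonempty}.ncard : ℕ) : ℝ) = y2
      at *
    generalize (({i : Fin W.m | H.Odd W i ∧ W.r i = 2 ∧ finrank ℚ (W.D i) = 1}.ncard : ℕ) : ℝ) = y3
      at *
    have g1 : y1 / √n ≤ ((GCnt K n 0).ncard : ℝ) / √n := by gcongr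
    have g2 : y2 / n ≤ (((GCnt K n 1).ncard : ℝ) + (GCnt K n 2).ncard) / n := by gcongr
    have g3 : y3 * Real.log n / n ≤
      (((GCnt K n 3).ncard : ℝ) + (GCnt K n 4).ncard) * Real.log n / n := by gcongr
    have g0 : 0 ≤ ((GCnt K n 0).ncard : ℝ) / √n + (((GCnt K n 1).ncard : ℝ) + (GCnt K n 2).ncard) / n
      + (((GCnt K n 3).ncard : ℝ) + (GCnt K n 4).ncard) * Real.log n / n := by positivity
    nlinarith
end Pool.MP43e44c.GU
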