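import Pool.Agent.H.MP_43e44c_ag.GU.ClsD
import Pool.Agent.H.MP_43e44c_ag.GL.UpD

/-!
Bad vectors and degenerate half systems.
-/

set_option autoImplicit false

open Finset Module

namespace Pool.MP43e44c.GU

open Pool.MP43e44c.OD Pool.MP43e44c.GA Pool.MP43e44c.GL

universe u v

open Classical in
/-- The half system attached to a vector. -/
noncomputable def BadA {G : Type u} [Group G] {ι : Type v} (H : Half G ι) [Fintype G]
    (v : ι → Bool) : Finset G :=
  univ.filter fun g => (v (H.π g) = true ↔ H.t (H.π g) = g)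

theorem Bad_mem {G : Type u} [Group G] {ι : Type v} (H : Half G ι) [Fintype G]
    (v : ι → Bool) (g : G) : g ∈ BadA H v ↔ (v (H.π g) = true ↔ H.t (H.π g) = g) := by
  unfold BadA
  simp

theorem Bad_mem_t {G : Type u} [Group G] {ι : Type v} (H : Half G ι) [Fintype G]
    (v : ι → Bool) (j : ι) : H.t j ∈ BadA H v ↔ v j = true := by
  rw [Bad_mem, H.π_t]
  simp

theorem Bad_hf {G : Type u} [Group G] {ι : Type v} (H : Half G ι) [Fintype G]
    (v : ι → Bool) : IsHf H.c (BadA H v) := by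
  intro g
  rw [Bad_mem, Bad_mem, H.π_c]
  have h1 : g * H.c ≠ g := H.mul_c_ne g
  rcases H.t_π g with h | h
  · rw [h]
    have h2 : ¬ g = g * H.c := fun h3 => h1 h3.symm
    simp [h2]
  · rw [h]
    simp [h1]

theorem Bad_mem_tc {G : Type u} [Group G] {ι : Type v} (H : Half G ι) [Fintype G]
    (v : ι → Bool) (j : ι) : H.t j * H.c ∈ BadA H v ↔ ¬ v j = true := by
  have h1 := Bad_hf H v (H.t j)
  rw [Bad_mem_t] at h1
  rw [h1, not_not]

theorem Bad_sum {G : Type u} [Group G] {ι : Type v} (H : Half G ι) [Fintype G] [Fintype ι]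
    {ρ : G →* M2} (hodd : ρ H.c = -1) (v : ι → Bool) :
    ∑ g ∈ BadA H v, ρ g = ∑ j, if v j then ρ (H.t j) else -ρ (H.t j) := by
  classical
  have h1 : ∑ g ∈ BadA H v, ρ g = ∑ g, if g ∈ BadA H v then ρ g else 0 := by
    rw [← sum_filter]
    refine sum_congr ?_ fun _ _ => rfl
    ext g
    simp
  rw [h1, H.sum_eq]
  refine sum_congr rfl fun j _ => ?_
  have h2 : ρ (H.t j * H.c) = -ρ (H.t j) := by
    rw [map_mul, hodd, mul_neg, mul_one]
  simp only [Bad_mem_t, Bad_mem_tc, h2]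
  by_cases hv : v j = true
  · simp [hv]
  · simp [hv]

/-- PROOF. Map `v` to the half system `A v` of the elements `t j` with `v j = true` and `t j * c` with
`v j = false` (`H.bij`, `H.sum_eq`); it is injective, and
`∑ g ∈ A v, ρ g = ∑ j, ± ρ (t j)`, as `ρ (g * c) = - ρ g`. -/
theorem badI_le_ev {G : Type u} [Group G] {ι : Type v} (H : Half G ι) [Fintype G] [Fintype ι]
    {W : WD ℚ G} {i : Fin W.m} {k : Fin 5} {ρ : G →* M2} (h : Dat H W i k ρ) :
    (H.badI W i).ncard ≤ (Ev H.c ρ).card := by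
  classical
  rw [← Set.ncard_coe_finset]
  refine Set.ncard_le_ncard_of_injOn (BadA H) ?_ ?_ (Finset.finite_toSet _)
  · intro v hv
    have h1 := h.bad v hv
    rw [← Bad_sum H h.typ.odd v] at h1
    rw [Finset.mem_coe]
    unfold Ev
    rw [mem_filter]
    exact ⟨mem_univ _, Bad_hf H v, h1⟩
  · intro v _ w _ hvw
    have hvw' : BadA H v = BadA H w := hvw
    funext j
    rw [Bool.eq_iff_iff, ← Bad_mem_t H v j, hvw', Bad_mem_t H w j]

/-- `badI_le_ev`, `ev_zero`. -/
theorem nonempty_par {G : Type u} [Group G] {ι : Type v} (H : Half G ι) [Fintype G] [Fintype ι]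
    {W : WD ℚ G} {i : Fin W.m} {k : Fin 5} {ρ : G →* M2} (h : Dat H W i k ρ)
    (hne : (H.badI W i).Nonempty) :
    (k = 0 → 2 ∣ Fintype.card ι) ∧ (k = 1 → 4 ∣ Fintype.card ι) := by
  have key : ¬ ((k = 0 ∧ ¬ 2 ∣ Fintype.card ι) ∨ (k = 1 ∧ ¬ 4 ∣ Fintype.card ι)) := by
    intro h0
    have h1 := ev_zero H.sq h.typ H.card_eq h0
    have h2 := badI_le_ev H h
    rw [h1, Finset.card_empty] at h2
    have h3 : 0 < (H.badI W i).ncard := (Set.ncard_pos (Set.toFinite _)).2 hne
    omega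
  constructor
  · intro hk
    by_contra h1
    exact key (Or.inl ⟨hk, h1⟩)
  · intro hk
    by_contra h1
    exact key (Or.inr ⟨hk, h1⟩)

end Pool.MP43e44c.GU
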