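import Pool.Agent.H.MP_43e44c_ag.GU.ClsD

/-!
Different components have different kernels.
-/

set_option autoImplicit false

open Finset Module

namespace Pool.MP43e44c.GU

open Pool.MP43e44c.OD Pool.MP43e44c.GA Pool.MP43e44c.GL

universe u v

/-- The components of the data are odd: `ρ c = -1 ≠ 1`. -/
theorem Kne_odd {G : Type u} [Group G] {ι : Type v} {H : Half G ι} [Fintype G] [Fintype ι]
    {W : WD ℚ G} {i : Fin W.m} {k : Fin 5} {ρ : G →* M2} (h : Dat H W i k ρ) : H.Odd W i := by
  rcases H.comp_cc W i with h1 | h1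
  · exfalso
    have h2 : ρ H.c = 1 := (h.ker H.c).2 h1
    rw [h.typ.odd] at h2
    exact absurd h2 (by decide)
  · exact h1

/-- The matrices of the component depend only on the class modulo the kernel. -/
theorem Kne_same {G : Type u} [Group G] {ι : Type v} {H : Half G ι} [Fintype G] [Fintype ι]
    {W : WD ℚ G} {i : Fin W.m} {k : Fin 5} {ρ : G →* M2} (h : Dat H W i k ρ) {g g' : G}
    (hg : g'⁻¹ * g ∈ ρ.ker) :
    W.comp i (MonoidAlgebra.single g 1) = W.comp i (MonoidAlgebra.single g' 1) := by
  have h1 := (h.ker _).1 (MonoidHom.mem_ker.1 hg)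
  have h2 : (MonoidAlgebra.single g 1 : MonoidAlgebra ℚ G)
      = MonoidAlgebra.single g' 1 * MonoidAlgebra.single (g'⁻¹ * g) 1 := by
    rw [MonoidAlgebra.single_mul_single, mul_inv_cancel_left, mul_one]
  rw [h2, map_mul, h1, mul_one]

theorem Kne_lt (k : Fin 5) : hc k < 2 * (coo k).card := by
  revert k; decide

/-- The map to the product of two components. -/
noncomputable def KnePhi {G : Type u} [Group G] [Fintype G] (W : WD ℚ G) (i j : Fin W.m) :
    MonoidAlgebra ℚ G →ₗ[ℚ]
      Matrix (Fin (W.r i)) (Fin (W.r i)) (W.D i) × Matrix (Fin (W.r j)) (Fin (W.r j)) (W.D j) :=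
  (W.comp i).toLinearMap.prod (W.comp j).toLinearMap

theorem KnePhi_apply {G : Type u} [Group G] [Fintype G] (W : WD ℚ G) (i j : Fin W.m)
    (x : MonoidAlgebra ℚ G) : KnePhi W i j x = (W.comp i x, W.comp j x) := rfl

theorem KnePhi_surj {G : Type u} [Group G] [Fintype G] (W : WD ℚ G) {i j : Fin W.m}
    (hij : i ≠ j) : Function.Surjective (KnePhi W i j) := by
  rintro ⟨X, Y⟩
  obtain ⟨x, hx, hxe⟩ := W.exists_comp i X
  obtain ⟨y, hy, hye⟩ := W.exists_comp j Y
  refine ⟨x + y, ?_⟩
  rw [KnePhi_apply, map_add, map_add, hx, hy, (W.mul_e_iff i x).1 hxe j hij.symm,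
    (W.mul_e_iff j y).1 hye i hij, add_zero, zero_add]

theorem Kne_finrank {G : Type u} [Group G] [Fintype G] (W : WD ℚ G) (i j : Fin W.m) :
    finrank ℚ (Matrix (Fin (W.r i)) (Fin (W.r i)) (W.D i) ×
      Matrix (Fin (W.r j)) (Fin (W.r j)) (W.D j)) = W.a i + W.a j := by
  rw [finrank_prod, finrank_matrix, finrank_matrix, Fintype.card_fin, Fintype.card_fin, WD.a, WD.a,
    sq, sq]

/-- Different components have different kernels: otherwise the image of the group algebra in the
product of the two components has dimension at most `hc k`. -/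
theorem ker_ne {G : Type u} [Group G] {ι : Type v} (H : Half G ι) [Fintype G] [Fintype ι]
    {W : WD ℚ G} {i j : Fin W.m} (hij : i ≠ j) {k : Fin 5} {ρ ρ' : G →* M2}
    (h : Dat H W i k ρ) (h' : Dat H W j k ρ') : ρ.ker ≠ ρ'.ker := by
  intro hker
  classical
  choose! g hg using h.typ.surj
  have hi := Kne_odd h
  have hj := Kne_odd h'
  set S : Finset (Matrix (Fin (W.r i)) (Fin (W.r i)) (W.D i) ×
      Matrix (Fin (W.r j)) (Fin (W.r j)) (W.D j)) :=
    (hf k).image fun s => KnePhi W i j (MonoidAlgebra.single (g s) 1) with hS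
  have h1 : ∀ x, KnePhi W i j x ∈ Submodule.span ℚ (S : Set _) := by
    intro x
    induction x using MonoidAlgebra.induction_linear with
    | zero => rw [map_zero]; exact Submodule.zero_mem _
    | add a b ha hb => rw [map_add]; exact Submodule.add_mem _ ha hb
    | single a r =>
      have h2 : (MonoidAlgebra.single a r : MonoidAlgebra ℚ G)
          = r • MonoidAlgebra.single a 1 := by
        rw [MonoidAlgebra.smul_single, smul_eq_mul, mul_one]
      rw [h2, map_smul]
      apply Submodule.smul_mem
      have key : ∀ b : G, ρ b ∈ hf k → KnePhi W i j (MonoidAlgebra.single b 1) ∈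
          Submodule.span ℚ (S : Set _) := by
        intro b hb
        apply Submodule.subset_span
        rw [mem_coe, hS, mem_image]
        refine ⟨ρ b, hb, ?_⟩
        have h3 : (g (ρ b))⁻¹ * b ∈ ρ.ker := by
          have h8 : ρ (g (ρ b)) = ρ b := hg _ (mem_union_left _ hb)
          rw [MonoidHom.mem_ker, map_mul, ← h8, ← map_mul, h8, inv_mul_cancel, map_one]
        have h3' : (g (ρ b))⁻¹ * b ∈ ρ'.ker := hker ▸ h3
        rw [KnePhi_apply, KnePhi_apply, Kne_same h h3, Kne_same h' h3']
      have h4 := h.typ.mem a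
      rcases mem_union.1 h4 with h5 | h5
      · exact key a h5
      · obtain ⟨s, hs, hs2⟩ := mem_image.1 h5
        have h6 : ρ (a * H.c) = s := by
          rw [map_mul, h.typ.odd, ← hs2, neg_mul_neg, mul_one]
        have h7 := key (a * H.c) (h6 ▸ hs)
        rw [KnePhi_apply, Half.odd_single H hi, Half.odd_single H hj, ← Prod.neg_mk] at h7
        rw [KnePhi_apply]
        exact (Submodule.neg_mem_iff _).1 h7
  have h2 : Submodule.span ℚ (SetLike.coe S) = ⊤ := by
    rw [eq_top_iff]
    intro z _
    obtain ⟨x, rfl⟩ := KnePhi_surj W hij z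
    exact h1 x
  have h3 := finrank_span_finset_le_card (R := ℚ) S
  unfold Set.finrank at h3
  rw [h2, finrank_top, Kne_finrank, ← h.card, ← h'.card] at h3
  have h4 := (h3.trans card_image_le).trans_eq (hf_card k)
  have h5 := Kne_lt k
  omega

end Pool.MP43e44c.GU
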