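import Pool.Agent.H.MP_43e44c_ag.GU.Psi
import Pool.Agent.H.MP_43e44c_ag.GU.Bad
import Pool.Agent.H.MP_43e44c_ag.GU.Kne
import Pool.Agent.H.MP_43e44c_ag.GU.Cls
import Pool.Agent.H.MP_43e44c_ag.GL.Fcnt

/-!
The number of the components of dimension at most two.
-/

set_option autoImplicit false

open Finset Module NumberField

namespace Pool.MP43e44c.GU

open Pool.MP43e44c.OD Pool.MP43e44c.GA Pool.MP43e44c.GL

variable {K : Type*} [Field K] [NumberField K] [IsCMField K] [IsGalois ℚ K]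

omit [IsCMField K] [IsGalois ℚ K] in
theorem Cou_finite (X : Set (IntermediateField ℚ K)) : X.Finite := by
  have h1 : Finite (IntermediateField ℚ K) :=
    Field.finite_intermediateField_of_exists_primitive_element ℚ K
      (Field.exists_primitive_element ℚ K)
  exact Set.toFinite X

/-- The general injection. -/
theorem Cou_gen {n : ℕ} {ι : Type} [Fintype ι] (hι : Fintype.card ι = n) (H : Half (GG K) ι)
    (hc : ∀ φ : K →+* ℂ, H.c • φ = ComplexEmbedding.conjugate φ) [Fintype (GG K)]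
    (W : WD ℚ (GG K)) (k : Fin 5) (X : Set (Fin W.m))
    (hX : ∀ i ∈ X, ((H.badI W i).Nonempty ∨ (k ≠ 0 ∧ k ≠ 1)) ∧
      ∃ ρ : GG K →* M2, Dat H W i k ρ) :
    X.ncard ≤ (GCnt K n k).ncard := by
  obtain ⟨Ψ, hΨ, hΨ2⟩ := exists_Psi hc
  have hX2 : ∀ i ∈ X, ∃ ρ : GG K →* M2, Dat H W i k ρ := fun i hi => (hX i hi).2
  choose! ρ hρ using hX2
  refine Set.ncard_le_ncard_of_injOn (fun i => Ψ (ρ i).ker) ?_ ?_ (Cou_finite _)
  · intro i hi
    refine ⟨hΨ2 k (ρ i) (hρ i hi).typ, ?_⟩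
    rcases (hX i hi).1 with h | h
    · rw [← hι]
      exact nonempty_par H (hρ i hi) h
    · exact ⟨fun h0 => absurd h0 h.1, fun h1 => absurd h1 h.2⟩
  · intro i hi i' hi' h
    by_contra hne
    exact ker_ne H hne (hρ i hi) (hρ i' hi') (hΨ h)

/-- PROOF. For the odd components with `W.a i = d` and `W.r i * finrank ℚ (W.D i) ≤ 2` choose `(k, ρ)` by
`cls`.  For fixed `k` the map `i ↦ Ψ ρ.ker` (`exists_Psi`) is injective (`ker_ne`), with values in
`GCnt K n k` (`nonempty_par`). -/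
theorem count_k {n : ℕ} {ι : Type} [Fintype ι] (hι : Fintype.card ι = n) (H : Half (GG K) ι)
    (hc : ∀ φ : K →+* ℂ, H.c • φ = ComplexEmbedding.conjugate φ) [Fintype (GG K)]
    (W : WD ℚ (GG K)) (k : Fin 5) :
    {i : Fin W.m | H.Odd W i ∧ (H.badI W i).Nonempty ∧ ∃ ρ : GG K →* M2, Dat H W i k ρ}.ncard
      ≤ (GCnt K n k).ncard := by
  apply Cou_gen hι H hc W k
  intro i hi
  exact ⟨Or.inl hi.2.1, hi.2.2⟩

/-- `cls`, `(coo k).card = 1` only for `k = 0`. -/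
theorem count_one {n : ℕ} {ι : Type} [Fintype ι] (hι : Fintype.card ι = n) (H : Half (GG K) ι)
    (hc : ∀ φ : K →+* ℂ, H.c • φ = ComplexEmbedding.conjugate φ) [Fintype (GG K)]
    (W : WD ℚ (GG K)) :
    {i : Fin W.m | H.Odd W i ∧ W.a i = 1 ∧ (H.badI W i).Nonempty}.ncard
      ≤ (GCnt K n 0).ncard := by
  apply Cou_gen hι H hc W 0
  intro i hi
  refine ⟨Or.inl hi.2.2, ?_⟩
  have h1 : W.r i ^ 2 * finrank ℚ (W.D i) = 1 := hi.2.1
  have h2 : W.r i ^ 2 = 1 := Nat.dvd_one.1 ⟨_, h1.symm⟩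
  have h3 : finrank ℚ (W.D i) = 1 := Nat.dvd_one.1 ⟨W.r i ^ 2, by rw [mul_comm]; exact h1.symm⟩
  have h4 : W.r i = 1 := by
    rcases Nat.eq_zero_or_pos (W.r i) with h | h
    · rw [h] at h2; norm_num at h2
    · nlinarith
  obtain ⟨k, ρ, hρ⟩ := cls H W i hi.1 (by rw [h3, h4]; norm_num)
  have h5 : (coo k).card = 1 := by rw [hρ.card]; exact h1
  have h6 : k = 0 := by
    revert h5
    clear hρ
    revert k
    decide
  subst h6
  exact ⟨ρ, hρ⟩

theorem Cou_two {r f : ℕ} (h : r ^ 2 * f = 2) : r * f ≤ 2 := by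
  have hr : r = 0 ∨ r = 1 ∨ 2 ≤ r := by omega
  rcases hr with rfl | rfl | hr
  · simp
  · rw [one_pow] at h
    exact h.le
  · exfalso
    have h1 : 4 ≤ r ^ 2 := by nlinarith
    rcases Nat.eq_zero_or_pos f with rfl | hf
    · simp at h
    · nlinarith

/-- `W.a i = r ^ 2 * finrank D = 2` implies `r = 1`, `finrank D = 2`. -/
theorem count_two {n : ℕ} {ι : Type} [Fintype ι] (hι : Fintype.card ι = n) (H : Half (GG K) ι)
    (hc : ∀ φ : K →+* ℂ, H.c • φ = ComplexEmbedding.conjugate φ) [Fintype (GG K)]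
    (W : WD ℚ (GG K)) :
    {i : Fin W.m | H.Odd W i ∧ W.a i = 2 ∧ (H.badI W i).Nonempty}.ncard
      ≤ (GCnt K n 1).ncard + (GCnt K n 2).ncard := by
  have h1 : {i : Fin W.m | H.Odd W i ∧ W.a i = 2 ∧ (H.badI W i).Nonempty} ⊆
      {i : Fin W.m | H.Odd W i ∧ (H.badI W i).Nonempty ∧ ∃ ρ : GG K →* M2, Dat H W i 1 ρ} ∪
      {i : Fin W.m | H.Odd W i ∧ (H.badI W i).Nonempty ∧ ∃ ρ : GG K →* M2, Dat H W i 2 ρ} := by
    intro i hi
    have h2 : W.r i ^ 2 * finrank ℚ (W.D i) = 2 := hi.2.1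
    obtain ⟨k, ρ, hρ⟩ := cls H W i hi.1 (Cou_two h2)
    have h5 : (coo k).card = 2 := by rw [hρ.card]; exact h2
    have h6 : k = 1 ∨ k = 2 := by
      revert h5
      clear hρ
      revert k
      decide
    rcases h6 with rfl | rfl
    · exact Or.inl ⟨hi.1, hi.2.2, ρ, hρ⟩
    · exact Or.inr ⟨hi.1, hi.2.2, ρ, hρ⟩
  refine ((Set.ncard_le_ncard h1 (Set.toFinite _)).trans (Set.ncard_union_le _ _)).trans ?_
  exact Nat.add_le_add (count_k hι H hc W 1) (count_k hι H hc W 2)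

/-- Here the nonemptiness of `badI` is not needed, since `k = 3` or `k = 4`: `count_k` without it is
proved in the same way. -/
theorem count_four {n : ℕ} {ι : Type} [Fintype ι] (hι : Fintype.card ι = n) (H : Half (GG K) ι)
    (hc : ∀ φ : K →+* ℂ, H.c • φ = ComplexEmbedding.conjugate φ) [Fintype (GG K)]
    (W : WD ℚ (GG K)) :
    {i : Fin W.m | H.Odd W i ∧ W.r i = 2 ∧ finrank ℚ (W.D i) = 1}.ncard
      ≤ (GCnt K n 3).ncard + (GCnt K n 4).ncard := by
  have h1 : {i : Fin W.m | H.Odd W i ∧ W.r i = 2 ∧ finrank ℚ (W.D i) = 1} ⊆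
      {i : Fin W.m | ∃ ρ : GG K →* M2, Dat H W i 3 ρ} ∪
      {i : Fin W.m | ∃ ρ : GG K →* M2, Dat H W i 4 ρ} := by
    intro i hi
    obtain ⟨k, ρ, hρ⟩ := cls H W i hi.1 (by rw [hi.2.1, hi.2.2])
    have h5 : (coo k).card = 4 := by
      rw [hρ.card]
      change W.r i ^ 2 * finrank ℚ (W.D i) = 4
      rw [hi.2.1, hi.2.2]
      norm_num
    have h6 : k = 3 ∨ k = 4 := by
      revert h5
      clear hρ
      revert k
      decide
    rcases h6 with rfl | rfl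
    · exact Or.inl ⟨ρ, hρ⟩
    · exact Or.inr ⟨ρ, hρ⟩
  refine ((Set.ncard_le_ncard h1 (Set.toFinite _)).trans (Set.ncard_union_le _ _)).trans ?_
  refine Nat.add_le_add ?_ ?_
  · exact Cou_gen hι H hc W 3 _ fun i hi => ⟨Or.inr (by decide), hi⟩
  · exact Cou_gen hι H hc W 4 _ fun i hi => ⟨Or.inr (by decide), hi⟩

end Pool.MP43e44c.GU
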