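import Pool.Agent.H.MP_43e44c_ag.GL.FldA
import Pool.Agent.H.MP_43e44c_ag.GL.Half

/-!
The image of an odd representation.
-/

set_option autoImplicit false

open Finset Module NumberField

namespace Pool.MP43e44c.GU

open Pool.MP43e44c.GL

theorem gt_congr {k : Fin 5} {Γ Γ' : Type*} [Group Γ] [Group Γ'] (e : Γ ≃* Γ')
    (h : GTyp k Γ) : GTyp k Γ' := by
  have hc : IsCyclic Γ → IsCyclic Γ' := fun h1 =>
    isCyclic_of_surjective e.toMonoidHom e.surjective
  have hn : Nat.card Γ' = Nat.card Γ := (Nat.card_congr e.toEquiv).symm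
  match k, h with
  | 0, h =>
    obtain ⟨h1, h2⟩ : IsCyclic Γ ∧ Nat.card Γ = 2 := h
    exact ⟨hc h1, hn.trans h2⟩
  | 1, h =>
    obtain ⟨h1, h2⟩ : IsCyclic Γ ∧ Nat.card Γ = 4 := h
    exact ⟨hc h1, hn.trans h2⟩
  | 2, h =>
    obtain ⟨h1, h2⟩ : IsCyclic Γ ∧ Nat.card Γ = 6 := h
    exact ⟨hc h1, hn.trans h2⟩
  | 3, h =>
    obtain ⟨f⟩ : Nonempty (Γ ≃* DihedralGroup 4) := h
    exact ⟨e.symm.trans f⟩
  | 4, h =>
    obtain ⟨f⟩ : Nonempty (Γ ≃* DihedralGroup 6) := h
    exact ⟨e.symm.trans f⟩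

/-- a group of type `k` -/
theorem gt_ex (k : Fin 5) : ∃ (Γ : Type) (_ : Group Γ), GTyp k Γ := by
  match k with
  | 0 => exact ⟨Multiplicative (ZMod 2), inferInstance, inferInstance, by simp⟩
  | 1 => exact ⟨Multiplicative (ZMod 4), inferInstance, inferInstance, by simp⟩
  | 2 => exact ⟨Multiplicative (ZMod 6), inferInstance, inferInstance, by simp⟩
  | 3 => exact ⟨DihedralGroup 4, inferInstance, ⟨MulEquiv.refl _⟩⟩
  | 4 => exact ⟨DihedralGroup 6, inferInstance, ⟨MulEquiv.refl _⟩⟩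

/-- PROOF. `G ⧸ ρ.ker` is isomorphic to the image of `ρ`, the finite group `full k`.  For the standard
group `Γ₀` of type `k` (`Multiplicative (ZMod 2)`, `Multiplicative (ZMod 4)`, `Multiplicative (ZMod 6)`,
`DihedralGroup 4`, `DihedralGroup 6`) the homomorphism `τ` of `exists_model` is injective with the same
image, so `G ⧸ ρ.ker ≃* Γ₀`. -/
theorem gtyp {G : Type*} [Group G] [Finite G] {c : G} {k : Fin 5} {ρ : G →* M2}
    (h : Typ c k ρ) : GTyp k (G ⧸ ρ.ker) := by
  obtain ⟨Γ, _, hΓ⟩ := gt_ex k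
  obtain ⟨τ, hinj, hmem, hsurj, -⟩ := exists_model hΓ
  have h1 : ∀ g : G, ∃ γ : Γ, τ γ = ρ g := fun g => hsurj _ (h.mem g)
  choose f hf using h1
  let F : G →* Γ :=
    { toFun := f
      map_one' := hinj (by rw [hf, map_one, map_one])
      map_mul' := fun a b => hinj (by rw [hf, map_mul, map_mul, hf, hf]) }
  have hF : Function.Surjective F := by
    intro γ
    obtain ⟨g, hg⟩ := h.surj _ (hmem γ)
    exact ⟨g, hinj ((hf g).trans hg)⟩
  have hk : F.ker = ρ.ker := by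
    ext g
    rw [MonoidHom.mem_ker, MonoidHom.mem_ker]
    constructor
    · intro h2
      rw [← hf g]
      change τ (F g) = 1
      rw [h2, map_one]
    · intro h2
      refine hinj ?_
      change τ (f g) = τ 1
      rw [hf g, h2, map_one]
  have e : G ⧸ ρ.ker ≃* Γ :=
    (QuotientGroup.quotientMulEquivOfEq hk.symm).trans
      (QuotientGroup.quotientKerEquivOfSurjective F hF)
  exact gt_congr e.symm hΓ

/-- `GTyp` is invariant under isomorphism. -/
theorem gtyp_congr {k : Fin 5} {Γ Γ' : Type*} [Group Γ] [Group Γ'] (e : Γ ≃* Γ')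
    (h : GTyp k Γ) : GTyp k Γ' := gt_congr e h

end Pool.MP43e44c.GU
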