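import Mathlib

/-!
A basis with bounded coefficients inside a finite set.
-/

set_option autoImplicit false

open Finset Module

namespace Pool.MP43e44c.GU

/-- PROOF. Among the linearly independent families `x : Fin m → V` with values in the finite set `X`
choose one for which the absolute value of the determinant `(b.det x)` with respect to a fixed basis
`b : Basis (Fin m) ℚ (span X)` is maximal (there is one, since `X` spans a space of dimension `m`).  It is
a basis of the span.  If `y ∈ X` and `a` are its coefficients, then replacing `x i` by `y` multiplies the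
determinant by `a i` (`Basis.det` is alternating and multilinear; `Matrix.cramer` or
`Basis.det_update`-like), so `|a i| ≤ 1`. -/
theorem max_basis {V : Type*} [AddCommGroup V] [Module ℚ V] {m : ℕ} (X : Finset V)
    (hm : finrank ℚ (Submodule.span ℚ (X : Set V)) = m) :
    ∃ x : Fin m → V, (∀ i, x i ∈ X) ∧ LinearIndependent ℚ x ∧
      ∀ y ∈ X, ∃ a : Fin m → ℚ, (∀ i, |a i| ≤ 1) ∧ y = ∑ i, a i • x i := by
  classical
  have hfin : FiniteDimensional ℚ (Submodule.span ℚ (X : Set V)) :=
    FiniteDimensional.span_finset ℚ X
  let b : Basis (Fin m) ℚ (Submodule.span ℚ (X : Set V)) :=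
    (finBasis ℚ (Submodule.span ℚ (X : Set V))).reindex (finCongr hm)
  -- the elements of `X` as elements of the span
  let w : X → Submodule.span ℚ (X : Set V) := fun t => ⟨t.1, Submodule.subset_span t.2⟩
  -- a linearly independent family
  obtain ⟨κ, a, hainj, hspan, hli⟩ := exists_linearIndependent' ℚ w
  have hspw : Submodule.span ℚ (Set.range w) = ⊤ := by
    rw [eq_top_iff]
    intro z _
    have h1 : Submodule.map (Submodule.span ℚ (X : Set V)).subtype
        (Submodule.span ℚ (Set.range w)) = Submodule.span ℚ (X : Set V) := by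
      rw [Submodule.map_span]
      congr 1
      ext v
      constructor
      · rintro ⟨_, ⟨t, rfl⟩, rfl⟩
        exact t.2
      · intro hv
        exact ⟨w ⟨v, hv⟩, ⟨⟨v, hv⟩, rfl⟩, rfl⟩
    have h2 : (z : V) ∈ Submodule.map (Submodule.span ℚ (X : Set V)).subtype
        (Submodule.span ℚ (Set.range w)) := by
      rw [h1]
      exact z.2
    obtain ⟨z', hz', hzz⟩ := Submodule.mem_map.1 h2
    have h3 : z' = z := Subtype.ext hzz
    rwa [← h3]
  have hκ : Finite κ := Finite.of_injective a hainj
  have hbk : Basis κ ℚ (Submodule.span ℚ (X : Set V)) :=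
    Basis.mk hli (by rw [hspan, hspw])
  have e : Fin m ≃ κ := b.indexEquiv hbk
  let F : (Fin m → X) → ℚ := fun x => |b.det (fun i => w (x i))|
  have hli0 : LinearIndependent ℚ (fun i => w (a (e i))) := hli.comp e e.injective
  have hpos0 : 0 < F (fun i => a (e i)) := by
    have h4 : IsUnit (b.det (fun i => w (a (e i)))) := by
      rw [← Module.Basis.is_basis_iff_det]
      refine ⟨hli0, ?_⟩
      have h5 : Set.range (fun i => w (a (e i))) = Set.range (w ∘ a) := by
        ext v
        constructor
        · rintro ⟨i, rfl⟩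
          exact ⟨e i, rfl⟩
        · rintro ⟨k, rfl⟩
          exact ⟨e.symm k, by simp⟩
      rw [h5, hspan, hspw]
    exact abs_pos.2 h4.ne_zero
  obtain ⟨x, hx⟩ : ∃ x : Fin m → X, ∀ x', F x' ≤ F x := by
    have : Nonempty (Fin m → X) := ⟨fun i => a (e i)⟩
    exact Finite.exists_max F
  have hxpos : 0 < F x := lt_of_lt_of_le hpos0 (hx _)
  have hdet : b.det (fun i => w (x i)) ≠ 0 := abs_pos.1 hxpos
  have hbas := (Module.Basis.is_basis_iff_det b (v := fun i => w (x i))).2
    (isUnit_iff_ne_zero.2 hdet)
  refine ⟨fun i => (x i : V), fun i => (x i).2, ?_, ?_⟩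
  · exact hbas.1.map' (Submodule.span ℚ (X : Set V)).subtype (Submodule.ker_subtype _)
  · intro y hy
    let B : Basis (Fin m) ℚ (Submodule.span ℚ (X : Set V)) := Basis.mk hbas.1 (by rw [hbas.2])
    refine ⟨fun i => B.coord i (w ⟨y, hy⟩), ?_, ?_⟩
    · intro i
      have h6 := Module.Basis.det_smul_mk_coord_eq_det_update b hbas.1 (by rw [hbas.2]) i
      have h7 := LinearMap.congr_fun h6 (w ⟨y, hy⟩)
      have h8 : b.det (fun i => w (x i)) * B.coord i (w ⟨y, hy⟩) =
          b.det (Function.update (fun i => w (x i)) i (w ⟨y, hy⟩)) := h7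
      have h9 : Function.update (fun i => w (x i)) i (w ⟨y, hy⟩) =
          fun j => w (Function.update x i ⟨y, hy⟩ j) := by
        funext j
        by_cases hj : j = i
        · subst hj
          simp
        · simp [Function.update_of_ne hj]
      rw [h9] at h8
      have h10 : F x * |B.coord i (w ⟨y, hy⟩)| ≤ F x * 1 := by
        rw [mul_one]
        calc F x * |B.coord i (w ⟨y, hy⟩)|
            = |b.det (fun i => w (x i)) * B.coord i (w ⟨y, hy⟩)| := (abs_mul _ _).symm
          _ = F (Function.update x i ⟨y, hy⟩) := by rw [h8]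
          _ ≤ F x := hx _
      exact le_of_mul_le_mul_left h10 hxpos
    · have h11 := B.sum_repr (w ⟨y, hy⟩)
      have h12 := congrArg (Submodule.span ℚ (X : Set V)).subtype h11
      rw [map_sum] at h12
      have h13 : (Submodule.span ℚ (X : Set V)).subtype (w ⟨y, hy⟩) = y := rfl
      rw [h13] at h12
      refine h12.symm.trans (Finset.sum_congr rfl fun i _ => ?_)
      have h14 : B i = w (x i) := by
        simp [B]
      rw [map_smul, h14]
      rfl

end Pool.MP43e44c.GU
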