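import Pool.Agent.H.MP_43e44c_ag.OD.CntA

/-!
Lattice points in a parallelepiped.
-/

set_option autoImplicit false

open Finset Module

namespace Pool.MP43e44c.GU

open Pool.MP43e44c.OD

section

variable {r : ℕ} {κ : Type*} [Fintype κ] {j : (Fin r → ℚ) →ₗ[ℚ] EuclideanSpace ℝ κ}
  {L : AddSubgroup (Fin r → ℚ)}

/-- The points of the lattice in the half-open parallelepiped of `x`. -/
def box {m : ℕ} (L : AddSubgroup (Fin r → ℚ)) (x : Fin m → (Fin r → ℚ)) : Set (Fin r → ℚ) :=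
  {p | p ∈ L ∧ ∃ a : Fin m → ℚ, (∀ i, 0 ≤ a i ∧ a i < 1) ∧ p = ∑ i, a i • x i}

theorem LatB_norm_sum_le {m : ℕ} {R : ℝ} (x : Fin m → (Fin r → ℚ))
    (hxp : ∀ i, ‖j (x i)‖ ≤ R) (a : Fin m → ℚ) (ha : ∀ i, |a i| ≤ 1) :
    ‖j (∑ i, a i • x i)‖ ≤ m * R := by
  rw [map_sum]
  refine (norm_sum_le _ _).trans ?_
  have h : ∀ i ∈ (Finset.univ : Finset (Fin m)), ‖j (a i • x i)‖ ≤ R := by
    intro i _
    rw [map_smul, ← Rat.cast_smul_eq_qsmul ℝ, norm_smul]
    have h1 : ‖((a i : ℚ) : ℝ)‖ ≤ 1 := by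
      rw [Real.norm_eq_abs]
      have := ha i
      exact_mod_cast this
    have h2 : 0 ≤ ‖j (x i)‖ := norm_nonneg _
    calc ‖((a i : ℚ) : ℝ)‖ * ‖j (x i)‖ ≤ 1 * ‖j (x i)‖ := by gcongr
      _ ≤ R := by rw [one_mul]; exact hxp i
  refine (Finset.sum_le_sum h).trans ?_
  simp

/-- PROOF. `box L x` is contained in `pts j L (span x) (m R)`, so it is finite (`pts_finite`).
`y = ∑ a i • x i ∈ pts`, `|a i| ≤ 1`, is mapped to the pair of `p = ∑ (a i - ⌊a i⌋) • x i ∈ box L x` and the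
function `i ↦ ⌊a i⌋ ∈ {-1, 0, 1}`; this map is injective. -/
theorem pts_le_box {m : ℕ} (hL : ∀ x ∈ L, x ≠ 0 → 1 ≤ ‖j x‖) {R : ℝ} (hR : 1 ≤ R)
    {S : Submodule ℚ (Fin r → ℚ)} (x : Fin m → (Fin r → ℚ)) (hx : LinearIndependent ℚ x)
    (hxp : ∀ i, x i ∈ pts j L S R)
    (hmax : ∀ y ∈ pts j L S R, ∃ a : Fin m → ℚ, (∀ i, |a i| ≤ 1) ∧ y = ∑ i, a i • x i) :
    (box L x).Finite ∧ (pts j L S R).ncard ≤ 3 ^ m * (box L x).ncard := by
  classical
  have hxR : ∀ i, ‖j (x i)‖ ≤ R := fun i => (hxp i).2.2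
  have hfin : (box L x).Finite := by
    refine (pts_finite (j := j) (L := L) hL ⊤ (m * R)).subset ?_
    rintro p ⟨hp, a, ha, rfl⟩
    refine ⟨hp, Submodule.mem_top, LatB_norm_sum_le x hxR a ?_⟩
    intro i
    rw [abs_le]
    constructor
    · linarith [(ha i).1]
    · exact (ha i).2.le
  refine ⟨hfin, ?_⟩
  choose! a ha using hmax
  let P : Set (Fin m → ℤ) := ↑(Fintype.piFinset fun _ : Fin m => Finset.Icc (-1 : ℤ) 1)
  have hPfin : P.Finite := Finset.finite_toSet _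
  have hPcard : P.ncard = 3 ^ m := by
    simp only [P, Set.ncard_coe_finset, Fintype.card_piFinset]
    simp
  let f : (Fin r → ℚ) → (Fin r → ℚ) × (Fin m → ℤ) := fun y =>
    (∑ i, (a y i - ⌊a y i⌋) • x i, fun i => ⌊a y i⌋)
  have hsplit : ∀ y ∈ pts j L S R,
      y = ∑ i, (a y i - ⌊a y i⌋) • x i + ∑ i, (⌊a y i⌋ : ℚ) • x i := by
    intro y hy
    rw [← Finset.sum_add_distrib]
    conv_lhs => rw [(ha y hy).2]
    refine Finset.sum_congr rfl fun i _ => ?_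
    rw [← add_smul]
    congr 1
    ring
  have hmaps : ∀ y ∈ pts j L S R, f y ∈ box L x ×ˢ P := by
    intro y hy
    refine Set.mem_prod.2 ⟨⟨?_, fun i => a y i - ⌊a y i⌋, ?_, rfl⟩, ?_⟩
    · have h1 : (f y).1 = y - ∑ i, ⌊a y i⌋ • x i := by
        have h2 := hsplit y hy
        have h3 : ∑ i, (⌊a y i⌋ : ℚ) • x i = ∑ i, ⌊a y i⌋ • x i := by
          refine Finset.sum_congr rfl fun i _ => ?_
          exact Int.cast_smul_eq_zsmul ℚ _ _
        rw [h3] at h2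
        show ∑ i, (a y i - ⌊a y i⌋) • x i = y - ∑ i, ⌊a y i⌋ • x i
        rw [eq_sub_iff_add_eq]
        exact h2.symm
      rw [h1]
      exact L.sub_mem hy.1 (L.sum_mem fun i _ => L.zsmul_mem (hxp i).1 _)
    · intro i
      exact ⟨sub_nonneg.2 (Int.floor_le _), by linarith [Int.lt_floor_add_one (a y i)]⟩
    · simp only [P, Finset.mem_coe, Fintype.mem_piFinset, Finset.mem_Icc]
      intro i
      have h1 := (ha y hy).1 i
      rw [abs_le] at h1
      refine ⟨Int.le_floor.2 ?_, Int.floor_le_iff.2 ?_⟩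
      · push_cast
        exact h1.1
      · push_cast
        linarith [h1.2]
  have hinj : Set.InjOn f (pts j L S R) := by
    intro y hy z hz hyz
    have h1 := congrArg Prod.fst hyz
    have h2 := congrArg Prod.snd hyz
    have h3 : ∀ i, ⌊a y i⌋ = ⌊a z i⌋ := fun i => congrFun h2 i
    have h4 : ∑ i, (a y i - ⌊a y i⌋) • x i = ∑ i, (a z i - ⌊a z i⌋) • x i := h1
    rw [hsplit y hy, hsplit z hz, h4]
    congr 1
    refine Finset.sum_congr rfl fun i _ => ?_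
    rw [h3 i]
  have h5 : (pts j L S R).ncard ≤ (box L x ×ˢ P).ncard :=
    Set.ncard_le_ncard_of_injOn f hmaps hinj (hfin.prod hPfin)
  rw [Set.ncard_prod, hPcard] at h5
  rw [mul_comm]
  exact h5

end

end Pool.MP43e44c.GU
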