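import Pool.Agent.H.MP_43e44c_ag.GU.LatB

/-!
The number of lattice points in a parallelepiped, upper bound.
-/

set_option autoImplicit false

open Finset Module

namespace Pool.MP43e44c.GU

open Pool.MP43e44c.OD

section

variable {r : ℕ} {κ : Type*} [Fintype κ] {j : (Fin r → ℚ) →ₗ[ℚ] EuclideanSpace ℝ κ}
  {L : AddSubgroup (Fin r → ℚ)}

theorem LatB2_norm_smul (j : (Fin r → ℚ) →ₗ[ℚ] EuclideanSpace ℝ κ) (a : ℚ) (v : Fin r → ℚ) :
    ‖j (a • v)‖ = |(a : ℝ)| * ‖j v‖ := by
  rw [map_smul, ← Rat.cast_smul_eq_qsmul ℝ, norm_smul, Real.norm_eq_abs]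

theorem LatB2_sum_norm (j : (Fin r → ℚ) →ₗ[ℚ] EuclideanSpace ℝ κ) {m : ℕ} {R : ℝ} (hR : 0 ≤ R)
    (x : Fin m → (Fin r → ℚ)) (hx : ∀ i, ‖j (x i)‖ ≤ R) (a : Fin m → ℚ)
    (ha : ∀ i, 0 ≤ a i ∧ a i < 1) : ‖j (∑ i, a i • x i)‖ ≤ m * R := by
  rw [map_sum]
  refine (norm_sum_le _ _).trans ?_
  have h1 : ∀ i ∈ (univ : Finset (Fin m)), ‖j (a i • x i)‖ ≤ R := by
    intro i _
    rw [LatB2_norm_smul]
    have h2 : |((a i : ℚ) : ℝ)| ≤ 1 := by
      rw [abs_of_nonneg (by exact_mod_cast (ha i).1)]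
      exact_mod_cast (ha i).2.le
    calc |((a i : ℚ) : ℝ)| * ‖j (x i)‖ ≤ 1 * R :=
          mul_le_mul h2 (hx i) (norm_nonneg _) zero_le_one
      _ = R := one_mul R
  refine (Finset.sum_le_card_nsmul _ _ _ h1).trans ?_
  rw [Finset.card_univ, Fintype.card_fin, nsmul_eq_mul]

/-- PROOF. Let `w₀ ∉ S = span x`, `w₀ ∈ L`, `‖j w₀‖ ≤ 1`, and let `u t`, `t < q`, be elements of `L` with
`u t ∈ S + (t / q) w₀`.  For `t < q`, `p ∈ box L x`, `k < K = ⌈R⌉₊` consider the element
`u t + p - ∑ ⌊b i⌋ • x i + k • w₀`, where `u t + p = ∑ b i • x i + (t / q) • w₀`.  It is in `L`, its norm is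
at most `m R + 1 + K ≤ (m + 3) R`, and different `(t, p, k)` give different elements: the coefficient of
`w₀` is `t / q + k`, which determines `t` and `k`; then `p` is determined modulo the group generated by
the `x i`, hence determined.  So `q * card (box) * K ≤ (1 + 2 (m + 3) R) ^ r` by `pts_card_le`
(`D = ℚ`, `δ = 1`, `S = ⊤`). -/
theorem box_mul_le {m : ℕ} (hL : ∀ x ∈ L, x ≠ 0 → 1 ≤ ‖j x‖) {R : ℝ} (hR : 1 ≤ R)
    (x : Fin m → (Fin r → ℚ)) (hx : LinearIndependent ℚ x)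
    (hxp : ∀ i, x i ∈ L ∧ ‖j (x i)‖ ≤ R) {w₀ : Fin r → ℚ} (hw : w₀ ∈ L) (hw1 : ‖j w₀‖ ≤ 1)
    (hw₀ : w₀ ∉ Submodule.span ℚ (Set.range x)) {q : ℕ} (hq : 0 < q)
    (hu : ∀ t < q, ∃ u ∈ L, u - ((t : ℚ) / q) • w₀ ∈ Submodule.span ℚ (Set.range x)) :
    (q : ℝ) * (box L x).ncard * R ≤ (1 + 2 * (m + 3) * R) ^ r := by
  classical
  have hR0 : (0 : ℝ) ≤ R := zero_le_one.trans hR
  have hbox : ∀ p ∈ box L x, ∃ a : Fin m → ℚ, (∀ i, 0 ≤ a i ∧ a i < 1) ∧ p = ∑ i, a i • x i :=
    fun p hp => hp.2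
  choose! a ha hpa using hbox
  choose! u huL huS using hu
  have hc0 : ∀ t < q, ∃ c : Fin m → ℚ, ∑ i, c i • x i = u t - ((t : ℚ) / q) • w₀ := fun t ht =>
    (Submodule.mem_span_range_iff_exists_fun ℚ).1 (huS t ht)
  choose! c hc using hc0
  have hfin : (box L x).Finite := by
    refine (pts_finite hL (⊤ : Submodule ℚ (Fin r → ℚ)) (m * R)).subset ?_
    intro p hp
    refine ⟨hp.1, Submodule.mem_top, ?_⟩
    rw [hpa p hp]
    exact LatB2_sum_norm j hR0 x (fun i => (hxp i).2) _ (ha p hp)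
  set K : ℕ := ⌈R⌉₊ with hK
  have hRK : R ≤ K := Nat.le_ceil R
  have hKR : (K : ℝ) < R + 1 := Nat.ceil_lt_add_one hR0
  let e : ℕ × ((Fin r → ℚ) × ℕ) → (Fin r → ℚ) := fun z =>
    u z.1 + z.2.1 - ∑ i, ⌊c z.1 i + a z.2.1 i⌋ • x i + z.2.2 • w₀
  have he : ∀ t < q, ∀ p ∈ box L x, ∀ k : ℕ,
      e (t, p, k) = ∑ i, Int.fract (c t i + a p i) • x i + ((t : ℚ) / q + k) • w₀ := by
    intro t ht p hp k
    change u t + p - ∑ i, ⌊c t i + a p i⌋ • x i + k • w₀ = _
    have h1 : u t = ∑ i, c t i • x i + ((t : ℚ) / q) • w₀ := by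
      rw [hc t ht, sub_add_cancel]
    have h2 : ∑ i, Int.fract (c t i + a p i) • x i
        = ∑ i, c t i • x i + ∑ i, a p i • x i - ∑ i, ⌊c t i + a p i⌋ • x i := by
      rw [← Finset.sum_add_distrib, ← Finset.sum_sub_distrib]
      refine Finset.sum_congr rfl fun i _ => ?_
      rw [← Int.cast_smul_eq_zsmul ℚ ⌊c t i + a p i⌋ (x i), ← add_smul, ← sub_smul]
      rfl
    rw [h2, ← hpa p hp, add_smul, Nat.cast_smul_eq_nsmul]
    nth_rewrite 1 [h1]
    abel
  set T : Finset (ℕ × ((Fin r → ℚ) × ℕ)) :=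
    range q ×ˢ (hfin.toFinset ×ˢ range K) with hT
  set P : Finset (Fin r → ℚ) :=
    (pts_finite hL (⊤ : Submodule ℚ (Fin r → ℚ)) ((m + 3) * R)).toFinset with hP
  have hmaps : ∀ z ∈ T, e z ∈ P := by
    rintro ⟨t, p, k⟩ hz
    rw [hT, mem_product, mem_product, Set.Finite.mem_toFinset] at hz
    obtain ⟨ht, hp, hk⟩ := hz
    have ht := mem_range.1 ht
    have hk := mem_range.1 hk
    rw [hP, Set.Finite.mem_toFinset]
    refine ⟨?_, Submodule.mem_top, ?_⟩
    · change u t + p - ∑ i, ⌊c t i + a p i⌋ • x i + k • w₀ ∈ L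
      refine L.add_mem (L.sub_mem (L.add_mem (huL t ht) hp.1) ?_) (L.nsmul_mem hw k)
      exact L.sum_mem fun i _ => L.zsmul_mem (hxp i).1 _
    · rw [he t ht p hp k, map_add]
      refine (norm_add_le _ _).trans ?_
      have h1 : ‖j (∑ i, Int.fract (c t i + a p i) • x i)‖ ≤ m * R :=
        LatB2_sum_norm j hR0 x (fun i => (hxp i).2) _
          fun i => ⟨Int.fract_nonneg _, Int.fract_lt_one _⟩
      have h2 : ‖j (((t : ℚ) / q + k) • w₀)‖ ≤ 1 + R := by
        rw [LatB2_norm_smul]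
        have hq' : (0 : ℝ) < q := by exact_mod_cast hq
        have h3 : (((t : ℚ) / q + k : ℚ) : ℝ) = (t : ℝ) / q + k := by push_cast; rfl
        have h4 : (t : ℝ) / q ≤ 1 := by
          rw [div_le_one hq']
          exact_mod_cast ht.le
        have h5 : (k : ℝ) + 1 ≤ K := by exact_mod_cast hk
        have h6 : (0 : ℝ) ≤ (t : ℝ) / q := by positivity
        rw [h3, abs_of_nonneg (by positivity)]
        calc ((t : ℝ) / q + k) * ‖j w₀‖ ≤ ((t : ℝ) / q + k) * 1 := by gcongr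
          _ ≤ 1 + R := by linarith
      have h7 : (m : ℝ) * R + (1 + R) ≤ (m + 3) * R := by nlinarith
      linarith
  have hinj : Set.InjOn e (T : Set (ℕ × ((Fin r → ℚ) × ℕ))) := by
    rintro ⟨t, p, k⟩ hz ⟨t', p', k'⟩ hz' heq
    rw [Finset.mem_coe, hT, mem_product, mem_product, Set.Finite.mem_toFinset] at hz hz'
    obtain ⟨ht, hp, hk⟩ := hz
    obtain ⟨ht', hp', hk'⟩ := hz'
    have ht := mem_range.1 ht
    have ht' := mem_range.1 ht'
    rw [he t ht p hp k, he t' ht' p' hp' k'] at heq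
    have hα : (t : ℚ) / q + k = (t' : ℚ) / q + k' := by
      by_contra hne
      apply hw₀
      have h1 : ((t : ℚ) / q + k - ((t' : ℚ) / q + k')) • w₀ ∈
          Submodule.span ℚ (Set.range x) := by
        have h2 : ((t : ℚ) / q + k - ((t' : ℚ) / q + k')) • w₀
            = ∑ i, Int.fract (c t' i + a p' i) • x i - ∑ i, Int.fract (c t i + a p i) • x i := by
          rw [sub_smul, sub_eq_sub_iff_add_eq_add, add_comm, heq, add_comm]
        rw [h2]
        refine Submodule.sub_mem _ ?_ ?_ <;>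
          exact Submodule.sum_mem _ fun i _ => Submodule.smul_mem _ _
            (Submodule.subset_span ⟨i, rfl⟩)
      have h3 := Submodule.smul_mem _ ((t : ℚ) / q + k - ((t' : ℚ) / q + k'))⁻¹ h1
      rwa [smul_smul, inv_mul_cancel₀ (sub_ne_zero.2 hne), one_smul] at h3
    have hqq : (q : ℚ) ≠ 0 := by exact_mod_cast hq.ne'
    have h4 : t + q * k = t' + q * k' := by
      have h5 : (t : ℚ) + q * k = t' + q * k' := by
        field_simp at hα
        linarith
      exact_mod_cast h5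
    have h6 : t = t' := by
      have h7 := congrArg (fun n => n % q) h4
      simpa [Nat.add_mul_mod_self_left, Nat.mod_eq_of_lt ht, Nat.mod_eq_of_lt ht'] using h7
    subst h6
    have h8 : k = k' := by
      have : q * k = q * k' := by omega
      exact Nat.eq_of_mul_eq_mul_left hq this
    subst h8
    have h9 : ∑ i, (Int.fract (c t i + a p i) - Int.fract (c t i + a p' i)) • x i = 0 := by
      have h10 := add_right_cancel heq
      rw [← sub_eq_zero, ← Finset.sum_sub_distrib] at h10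
      rw [← h10]
      exact Finset.sum_congr rfl fun i _ => sub_smul _ _ _
    have h11 : ∀ i, a p i = a p' i := by
      intro i
      have h12 := Fintype.linearIndependent_iff.1 hx _ h9 i
      have h13 : Int.fract (c t i + a p i) = Int.fract (c t i + a p' i) := sub_eq_zero.1 h12
      obtain ⟨z, hz⟩ := Int.fract_eq_fract.1 h13
      have h14 : a p i - a p' i = z := by linarith
      have h15 := ha p hp i
      have h16 := ha p' hp' i
      have h17 : (z : ℚ) < 1 := by linarith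
      have h18 : (-1 : ℚ) < z := by linarith
      have h19 : z < 1 := by exact_mod_cast h17
      have h20 : -1 < z := by exact_mod_cast h18
      have h21 : z = 0 := by omega
      rw [h21, Int.cast_zero] at h14
      linarith
    have h22 : p = p' := by
      rw [hpa p hp, hpa p' hp']
      exact Finset.sum_congr rfl fun i _ => by rw [h11 i]
    rw [h22]
  have hcard := card_le_card_of_injOn e hmaps hinj
  have hPc : (P.card : ℝ) ≤ (1 + 2 * ((m + 3) * R)) ^ (r * 1) := by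
    have h1 := pts_card_le (S := (⊤ : Submodule ℚ (Fin r → ℚ))) (m := r) hL
      (CommSemiring.finrank_self ℚ) (by rw [finrank_top]; simp) (R := (m + 3) * R) (by positivity)
    rwa [Set.ncard_eq_toFinset_card _
      (pts_finite hL (⊤ : Submodule ℚ (Fin r → ℚ)) ((m + 3) * R))] at h1
  have hTc : T.card = q * ((box L x).ncard * K) := by
    rw [hT, card_product, card_product, card_range, card_range,
      Set.ncard_eq_toFinset_card _ hfin]
  calc (q : ℝ) * (box L x).ncard * R ≤ (q : ℝ) * (box L x).ncard * K := by gcongr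
    _ = (T.card : ℝ) := by rw [hTc]; push_cast; ring
    _ ≤ (P.card : ℝ) := by exact_mod_cast hcard
    _ ≤ _ := hPc
    _ = _ := by rw [mul_one, mul_assoc]

end

end Pool.MP43e44c.GU
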