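import Pool.Agent.H.MP_43e44c_ag.GU.LatA
import Pool.Agent.H.MP_43e44c_ag.GU.LatB2

/-!
Hyperplanes spanned by short lattice vectors, and the number of short vectors in them.
-/

set_option autoImplicit false

open Finset Module

namespace Pool.MP43e44c.GU

open Pool.MP43e44c.OD

theorem LatB3_bezout {ι : Type*} [DecidableEq ι] (s : Finset ι) (a : ι → ℤ) :
    ∃ n : ι → ℤ, ∑ l ∈ s, n l * a l = s.gcd a := by
  induction s using Finset.induction_on with
  | empty => exact ⟨0, by simp⟩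
  | insert x s hx ih =>
    obtain ⟨n, hn⟩ := ih
    obtain ⟨u, v, huv⟩ := exists_gcd_eq_mul_add_mul (a x) (s.gcd a)
    refine ⟨fun l => if l = x then u else v * n l, ?_⟩
    rw [sum_insert hx, Finset.gcd_insert, huv]
    have e2 : ∑ l ∈ s, (if l = x then u else v * n l) * a l = s.gcd a * v := by
      rw [← hn, sum_mul]
      refine sum_congr rfl fun l hl => ?_
      have hlx : l ≠ x := by
        rintro rfl
        exact hx hl
      rw [if_neg hlx]
      ring
    show (if x = x then u else v * n x) * a x + ∑ l ∈ s, (if l = x then u else v * n l) * a l =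
      a x * u + s.gcd a * v
    rw [if_pos rfl, e2, mul_comm]

/-- a functional with kernel `S` and coprime integral values -/
theorem LatB3_fun {r : ℕ} (hr : 2 ≤ r) {w : Fin r → (Fin r → ℚ)} (hw : LinearIndependent ℚ w)
    {S : Submodule ℚ (Fin r → ℚ)} (hS : finrank ℚ S = r - 1) :
    ∃ (F : (Fin r → ℚ) →ₗ[ℚ] ℚ) (a n : Fin r → ℤ), LinearMap.ker F = S ∧
      (∀ l, F (w l) = a l) ∧ ∑ l, n l * a l = 1 := by
  classical
  have hq : finrank ℚ ((Fin r → ℚ) ⧸ S) = finrank ℚ ℚ := by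
    have h1 := Submodule.finrank_quotient_add_finrank S
    rw [hS, finrank_fin_fun] at h1
    rw [finrank_self]
    omega
  let e : ((Fin r → ℚ) ⧸ S) ≃ₗ[ℚ] ℚ := LinearEquiv.ofFinrankEq _ _ hq
  let f : (Fin r → ℚ) →ₗ[ℚ] ℚ := e.toLinearMap.comp S.mkQ
  have hf : LinearMap.ker f = S := by
    ext x
    simp [f]
  -- clear denominators
  have hb : ∀ l, ∃ b : ℤ, (b : ℚ) = ((∏ i, (f (w i)).den : ℕ) : ℚ) * f (w l) := by
    intro l
    obtain ⟨c, hc⟩ := dvd_prod_of_mem (fun i => (f (w i)).den) (mem_univ l)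
    refine ⟨(c : ℤ) * (f (w l)).num, ?_⟩
    rw [hc]
    have h1 : (f (w l)).num = (f (w l)) * ((f (w l)).den : ℚ) := by
      rw [Rat.mul_den_eq_num]
    push_cast
    rw [h1]
    ring
  choose b hb using hb
  set N : ℕ := ∏ i, (f (w i)).den with hN
  have hN0 : (N : ℚ) ≠ 0 := by
    have : 0 < N := prod_pos fun i _ => (f (w i)).pos
    exact_mod_cast this.ne'
  have hne : (univ : Finset (Fin r)).Nonempty := ⟨⟨0, by omega⟩, mem_univ _⟩
  obtain ⟨a, ha, hg⟩ := Finset.extract_gcd b hne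
  set g : ℤ := univ.gcd b with hgd
  have hspan : Submodule.span ℚ (Set.range w) = ⊤ :=
    hw.span_eq_top_of_card_eq_finrank' (by simp)
  have hg0 : g ≠ 0 := by
    intro h0
    have h1 : ∀ l, f (w l) = 0 := by
      intro l
      have h2 := ha l (mem_univ l)
      rw [h0, zero_mul] at h2
      have h3 := hb l
      rw [h2, Int.cast_zero] at h3
      rcases mul_eq_zero.1 h3.symm with h4 | h4
      · exact absurd h4 hN0
      · exact h4
    have h2 : (⊤ : Submodule ℚ (Fin r → ℚ)) ≤ LinearMap.ker f := by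
      rw [← hspan, Submodule.span_le]
      rintro _ ⟨l, rfl⟩
      exact h1 l
    rw [hf] at h2
    have h3 : S = ⊤ := top_le_iff.1 h2
    rw [h3, finrank_top, finrank_fin_fun] at hS
    omega
  have hg0' : (g : ℚ) ≠ 0 := by exact_mod_cast hg0
  obtain ⟨n, hn⟩ := LatB3_bezout univ a
  refine ⟨((N : ℚ) / g) • f, a, n, ?_, ?_, by rw [hn, hg]⟩
  · rw [LinearMap.ker_smul _ _ (div_ne_zero hN0 hg0'), hf]
  · intro l
    rw [LinearMap.smul_apply, smul_eq_mul, div_mul_eq_mul_div, ← hb l, ha l (mem_univ l),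
      Int.cast_mul, mul_div_cancel_left₀ _ hg0']

/-- PROOF. Let `x` be the family of `max_basis` for the finite set `X = pts j L S R` (`pts_finite`), with
`m = r - 1` elements.  `S` is a hyperplane; since the `w l` span the whole space there is a linear
functional `f ≠ 0` with kernel `S` such that all `f (w l)` are integers with greatest common divisor `1`
(take any functional with kernel `S`, multiply by a common denominator and divide by the gcd).  Let
`a l = f (w l)`, `q = max |a l| = |a l₀| > 0`, `w₀ = ± w l₀` with `f w₀ = q`.  By Bezout there are integers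
`n l` with `∑ n l a l = 1`, so `u t = t ∑ n l w l ∈ L` has `f (u t) = t`, i.e. `u t - (t / q) w₀ ∈ S`.  So
`card X * q * R ≤ 3 ^ m (1 + 2 (m + 3) R) ^ r ≤ C R ^ r` by `pts_le_box` and `box_mul_le`. -/
theorem ell (r : ℕ) (hr : 2 ≤ r) : ∃ C : ℝ, 0 < C ∧ ∀ {κ : Type*} [Fintype κ]
    (j : (Fin r → ℚ) →ₗ[ℚ] EuclideanSpace ℝ κ) (L : AddSubgroup (Fin r → ℚ)),
    (∀ x ∈ L, x ≠ 0 → 1 ≤ ‖j x‖) → ∀ w : Fin r → (Fin r → ℚ), LinearIndependent ℚ w →
    (∀ l, w l ∈ L ∧ ‖j (w l)‖ ≤ 1) → ∀ R : ℝ, 1 ≤ R → ∀ S : Submodule ℚ (Fin r → ℚ),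
    finrank ℚ S = r - 1 → Submodule.span ℚ (pts j L S R) = S →
    ∃ a : Fin r → ℤ, a ≠ 0 ∧ (∀ m : Fin r → ℚ, ∑ l, m l • w l ∈ S ↔ ∑ l, m l * a l = 0) ∧
      ∀ l, ((pts j L S R).ncard : ℝ) * |(a l : ℝ)| ≤ C * R ^ (r - 1) := by
  refine ⟨3 ^ (r - 1) * (2 * r + 5) ^ r, by positivity, ?_⟩
  intro κ _ j L hL w hw hwL R hR S hS hspan
  classical
  obtain ⟨F, a, n, hF, hFa, hn⟩ := LatB3_fun hr hw hS
  have hmem : ∀ x, x ∈ S ↔ F x = 0 := by
    intro x
    rw [← hF, LinearMap.mem_ker]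
  have hne : (univ : Finset (Fin r)).Nonempty := ⟨⟨0, by omega⟩, mem_univ _⟩
  obtain ⟨l₀, -, hl₀⟩ := Finset.exists_mem_eq_sup (univ : Finset (Fin r)) hne
    (fun l => (a l).natAbs)
  set q : ℕ := univ.sup (fun l => (a l).natAbs) with hqd
  have hqle : ∀ l, (a l).natAbs ≤ q := fun l =>
    Finset.le_sup (f := fun l => (a l).natAbs) (mem_univ l)
  have hq0 : 0 < q := by
    rw [Nat.pos_iff_ne_zero]
    intro h0
    have h1 : ∀ l, a l = 0 := by
      intro l
      have := hqle l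
      rw [h0] at this
      exact Int.natAbs_eq_zero.1 (by omega)
    simp [h1] at hn
  have hane : a ≠ 0 := by
    rintro rfl
    simp at hn
  -- the vector with value q
  obtain ⟨w₀, hw₀L, hw₀1, hw₀q⟩ : ∃ w₀ ∈ L, ‖j w₀‖ ≤ 1 ∧ F w₀ = (q : ℚ) := by
    rcases le_total 0 (a l₀) with h0 | h0
    · refine ⟨w l₀, (hwL l₀).1, (hwL l₀).2, ?_⟩
      rw [hFa, hl₀]
      have : ((a l₀).natAbs : ℤ) = a l₀ := Int.natAbs_of_nonneg h0
      rw [← Int.cast_natCast (R := ℚ), this]
    · refine ⟨-w l₀, L.neg_mem (hwL l₀).1, ?_, ?_⟩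
      · rw [map_neg, norm_neg]
        exact (hwL l₀).2
      · rw [map_neg, hFa, hl₀]
        have : ((a l₀).natAbs : ℤ) = -a l₀ := by omega
        rw [← Int.cast_natCast (R := ℚ), this, Int.cast_neg]
  have hfin := pts_finite hL S R
  have hXs : Submodule.span ℚ ((hfin.toFinset : Finset (Fin r → ℚ)) : Set (Fin r → ℚ)) = S := by
    rw [Set.Finite.coe_toFinset]
    exact hspan
  obtain ⟨x, hxX, hxi, hxm⟩ := max_basis (m := r - 1) hfin.toFinset (by rw [hXs, hS])
  have hxp : ∀ i, x i ∈ pts j L S R := fun i => hfin.mem_toFinset.1 (hxX i)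
  have hxs : Submodule.span ℚ (Set.range x) = S := by
    apply Submodule.eq_of_le_of_finrank_eq
    · rw [Submodule.span_le]
      rintro _ ⟨i, rfl⟩
      exact (hxp i).2.1
    · rw [finrank_span_eq_card hxi, Fintype.card_fin, hS]
  have h1 := pts_le_box hL hR x hxi hxp (fun y hy => hxm y (hfin.mem_toFinset.2 hy))
  have hw₀S : w₀ ∉ Submodule.span ℚ (Set.range x) := by
    rw [hxs, hmem, hw₀q]
    exact_mod_cast hq0.ne'
  have hu : ∀ t < q, ∃ u ∈ L, u - ((t : ℚ) / q) • w₀ ∈ Submodule.span ℚ (Set.range x) := by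
    intro t _
    refine ⟨(t : ℤ) • ∑ l, n l • w l, ?_, ?_⟩
    · apply L.zsmul_mem
      exact L.sum_mem fun l _ => L.zsmul_mem (hwL l).1 _
    · rw [hxs, hmem, map_sub, map_zsmul, map_sum, map_smul, hw₀q]
      have h2 : ∑ l, F (n l • w l) = 1 := by
        have h3 : ∀ l, F (n l • w l) = ((n l * a l : ℤ) : ℚ) := by
          intro l
          rw [map_zsmul, hFa, zsmul_eq_mul]
          push_cast
          ring
        simp only [h3]
        rw [← Int.cast_sum, hn, Int.cast_one]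
      have hq0' : (q : ℚ) ≠ 0 := by exact_mod_cast hq0.ne'
      rw [h2, smul_eq_mul, div_mul_cancel₀ _ hq0']
      simp
  have h2 := box_mul_le hL hR x hxi (fun i => ⟨(hxp i).1, (hxp i).2.2⟩) hw₀L hw₀1 hw₀S hq0 hu
  refine ⟨a, hane, ?_, ?_⟩
  · intro m
    rw [hmem, map_sum]
    have h3 : ∀ l, F (m l • w l) = m l * a l := by
      intro l
      rw [map_smul, hFa, smul_eq_mul]
    simp only [h3]
  · intro l
    have hR0 : 0 < R := by linarith
    have h3 : |(a l : ℝ)| ≤ q := by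
      have : |a l| ≤ (q : ℤ) := by
        rw [Int.abs_eq_natAbs]
        exact_mod_cast hqle l
      exact_mod_cast this
    have h4 : ((pts j L S R).ncard : ℝ) ≤ 3 ^ (r - 1) * ((box L x).ncard : ℝ) := by
      exact_mod_cast h1.2
    have hr1 : ((r - 1 : ℕ) : ℝ) = (r : ℝ) - 1 := by
      rw [Nat.cast_sub (by omega)]
      norm_num
    have h5 : (1 + 2 * (((r - 1 : ℕ) : ℝ) + 3) * R) ^ r ≤ ((2 * r + 5) * R) ^ r := by
      apply pow_le_pow_left₀
      · positivity
      · rw [hr1]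
        nlinarith
    have h6 : R * R ^ (r - 1) = R ^ r := by
      rw [← pow_succ']
      congr 1
      omega
    have h7 : ((pts j L S R).ncard : ℝ) * |(a l : ℝ)| * R ≤
        3 ^ (r - 1) * (2 * r + 5) ^ r * R ^ (r - 1) * R := by
      calc ((pts j L S R).ncard : ℝ) * |(a l : ℝ)| * R
          ≤ (3 ^ (r - 1) * ((box L x).ncard : ℝ)) * q * R := by
            apply mul_le_mul_of_nonneg_right _ hR0.le
            exact mul_le_mul h4 h3 (abs_nonneg _) (by positivity)
        _ = 3 ^ (r - 1) * ((q : ℝ) * (box L x).ncard * R) := by ring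
        _ ≤ 3 ^ (r - 1) * ((2 * r + 5) * R) ^ r := by
            apply mul_le_mul_of_nonneg_left (h2.trans h5) (by positivity)
        _ = 3 ^ (r - 1) * (2 * r + 5) ^ r * R ^ (r - 1) * R := by
            rw [mul_pow, ← h6]
            ring
    exact le_of_mul_le_mul_right h7 hR0

end Pool.MP43e44c.GU
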