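import Mathlib

/-!
Sums over integral vectors.
-/

set_option autoImplicit false

open Finset Module

namespace Pool.MP43e44c.GU

/-- Difference of powers. -/
theorem LatC_pow_sub_le (x y : ℝ) (hy : 0 ≤ y) (hxy : y ≤ x) (n : ℕ) :
    x ^ (n + 1) - y ^ (n + 1) ≤ (n + 1) * x ^ n * (x - y) := by
  induction n with
  | zero => simp
  | succ n ih =>
      have hx : 0 ≤ x := hy.trans hxy
      have h1 : x * (x ^ (n + 1) - y ^ (n + 1)) ≤ x * ((n + 1) * x ^ n * (x - y)) :=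
        mul_le_mul_of_nonneg_left ih hx
      have h2 : y ^ (n + 1) * (x - y) ≤ x ^ (n + 1) * (x - y) :=
        mul_le_mul_of_nonneg_right (pow_le_pow_left₀ hy hxy _) (by linarith)
      push_cast
      have e1 : x ^ (n + 1 + 1) - y ^ (n + 1 + 1)
          = x * (x ^ (n + 1) - y ^ (n + 1)) + y ^ (n + 1) * (x - y) := by ring
      have e2 : ((n : ℝ) + 1 + 1) * x ^ (n + 1) * (x - y)
          = x * ((n + 1) * x ^ n * (x - y)) + x ^ (n + 1) * (x - y) := by ring
      rw [e1, e2]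
      linarith

/-- The norm as a natural number. -/
noncomputable def LatC_nrm {r : ℕ} (a : Fin r → ℤ) : ℕ := univ.sup fun l => (a l).natAbs

theorem LatC_norm_eq {r : ℕ} (a : Fin r → ℤ) : ‖fun l => (a l : ℝ)‖ = (LatC_nrm a : ℝ) := by
  apply le_antisymm
  · rw [pi_norm_le_iff_of_nonneg (Nat.cast_nonneg _)]
    intro l
    have h : (a l).natAbs ≤ LatC_nrm a := Finset.le_sup (f := fun l => (a l).natAbs) (mem_univ l)
    rw [Real.norm_eq_abs, ← Int.cast_abs, Int.abs_eq_natAbs]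
    exact_mod_cast h
  · have h : ∀ l, ((a l).natAbs : ℝ) ≤ ‖fun l => (a l : ℝ)‖ := by
      intro l
      have := norm_le_pi_norm (fun l => (a l : ℝ)) l
      rw [Real.norm_eq_abs, ← Int.cast_abs, Int.abs_eq_natAbs, Int.cast_natCast] at this
      exact this
    by_cases hr : r = 0
    · subst hr
      simp [LatC_nrm]
    · have : Nonempty (Fin r) := ⟨⟨0, Nat.pos_of_ne_zero hr⟩⟩
      obtain ⟨l, _, hl⟩ := Finset.exists_mem_eq_sup univ univ_nonempty (fun l => (a l).natAbs)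
      have : LatC_nrm a = (a l).natAbs := hl
      rw [this]
      exact h l

/-- The number of vectors of norm `t`. -/
theorem LatC_card (n : ℕ) (t : ℕ) (ht : 1 ≤ t) (A : Finset (Fin (n + 1) → ℤ))
    (hA : ∀ a ∈ A, LatC_nrm a = t) :
    (A.card : ℝ) ≤ 2 * (n + 1) * 3 ^ n * (t : ℝ) ^ n := by
  classical
  set B := Fintype.piFinset (fun _ : Fin (n + 1) => Finset.Icc (-(t : ℤ)) t) with hB
  set B' := Fintype.piFinset (fun _ : Fin (n + 1) => Finset.Icc (-((t : ℤ) - 1)) ((t : ℤ) - 1))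
    with hB'
  have hsub : A ⊆ B \ B' := by
    intro a ha
    have h := hA a ha
    rw [mem_sdiff]
    refine ⟨?_, ?_⟩
    · rw [hB, Fintype.mem_piFinset]
      intro l
      have h1 : (a l).natAbs ≤ LatC_nrm a :=
        Finset.le_sup (f := fun l => (a l).natAbs) (mem_univ l)
      rw [h] at h1
      rw [mem_Icc]
      omega
    · intro h2
      rw [hB', Fintype.mem_piFinset] at h2
      have : Nonempty (Fin (n + 1)) := ⟨0⟩
      obtain ⟨l, _, hl⟩ := Finset.exists_mem_eq_sup univ univ_nonempty (fun l => (a l).natAbs)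
      have h3 : LatC_nrm a = (a l).natAbs := hl
      rw [h] at h3
      have h4 := mem_Icc.mp (h2 l)
      omega
  have hBB : B' ⊆ B := by
    intro a ha
    rw [hB', Fintype.mem_piFinset] at ha
    rw [hB, Fintype.mem_piFinset]
    intro l
    have h4 := mem_Icc.mp (ha l)
    rw [mem_Icc]
    omega
  have hcB : (B.card : ℝ) = (2 * (t : ℝ) + 1) ^ (n + 1) := by
    rw [hB, Fintype.card_piFinset]
    simp only [Int.card_Icc, prod_const, card_univ, Fintype.card_fin]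
    have : ((t : ℤ) + 1 - -(t : ℤ)).toNat = 2 * t + 1 := by omega
    rw [this]
    push_cast
    ring
  have hcB' : (B'.card : ℝ) = (2 * (t : ℝ) - 1) ^ (n + 1) := by
    rw [hB', Fintype.card_piFinset]
    simp only [Int.card_Icc, prod_const, card_univ, Fintype.card_fin]
    have h5 : ((t : ℤ) - 1 + 1 - -((t : ℤ) - 1)).toNat = 2 * t - 1 := by omega
    rw [h5]
    have h6 : ((2 * t - 1 : ℕ) : ℝ) = 2 * (t : ℝ) - 1 := by
      rw [Nat.cast_sub (by omega)]
      push_cast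
      ring
    rw [Nat.cast_pow, h6]
  have h7 : (A.card : ℝ) ≤ (B.card : ℝ) - (B'.card : ℝ) := by
    have h8 := card_le_card hsub
    rw [card_sdiff_of_subset hBB] at h8
    have h9 := card_le_card hBB
    have h10 : ((B.card - B'.card : ℕ) : ℝ) = (B.card : ℝ) - (B'.card : ℝ) := Nat.cast_sub h9
    rw [← h10]
    exact_mod_cast h8
  rw [hcB, hcB'] at h7
  have ht' : (1 : ℝ) ≤ t := by exact_mod_cast ht
  have h11 := LatC_pow_sub_le (2 * (t : ℝ) + 1) (2 * (t : ℝ) - 1) (by linarith) (by linarith) n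
  have h12 : (2 * (t : ℝ) + 1) ^ n ≤ (3 * (t : ℝ)) ^ n :=
    pow_le_pow_left₀ (by linarith) (by linarith) n
  calc (A.card : ℝ) ≤ (2 * (t : ℝ) + 1) ^ (n + 1) - (2 * (t : ℝ) - 1) ^ (n + 1) := h7
    _ ≤ (n + 1) * (2 * (t : ℝ) + 1) ^ n * ((2 * (t : ℝ) + 1) - (2 * (t : ℝ) - 1)) := h11
    _ = 2 * (n + 1) * (2 * (t : ℝ) + 1) ^ n := by ring
    _ ≤ 2 * (n + 1) * (3 * (t : ℝ)) ^ n := by
        apply mul_le_mul_of_nonneg_left h12
        positivity
    _ = 2 * (n + 1) * 3 ^ n * (t : ℝ) ^ n := by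
        rw [mul_pow]
        ring

/-- For every finite set `A` of nonzero vectors in `ℤ ^ r` with entries at most `T`, the sum of the
`‖a‖ ^ (- r)` (`‖a‖` the maximum of the absolute values, written with the norm of `Fin r → ℝ`) is at
most `C (1 + log T)`: there are at most `(2 t + 1) ^ r - (2 t - 1) ^ r ≤ C t ^ (r - 1)` vectors of norm
`t`. -/
theorem sum_norm (r : ℕ) (hr : 1 ≤ r) : ∃ C : ℝ, 0 < C ∧ ∀ (T : ℝ), 1 ≤ T →
    ∀ A : Finset (Fin r → ℤ), (∀ a ∈ A, a ≠ 0 ∧ ∀ l, |(a l : ℝ)| ≤ T) →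
    ∑ a ∈ A, (‖fun l => (a l : ℝ)‖ ^ r)⁻¹ ≤ C * (1 + Real.log T) := by
  classical
  obtain ⟨n, rfl⟩ : ∃ n, r = n + 1 := ⟨r - 1, by omega⟩
  refine ⟨2 * (n + 1) * 3 ^ n, by positivity, ?_⟩
  intro T hT A hA
  have hmaps : ∀ a ∈ A, LatC_nrm a ∈ Finset.Icc 1 ⌊T⌋₊ := by
    intro a ha
    obtain ⟨h0, h1⟩ := hA a ha
    rw [mem_Icc]
    constructor
    · by_contra hlt
      have h2 : LatC_nrm a = 0 := by omega
      apply h0
      funext l
      have h3 : (a l).natAbs ≤ LatC_nrm a :=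
        Finset.le_sup (f := fun l => (a l).natAbs) (mem_univ l)
      have h4 : (a l).natAbs = 0 := by omega
      simpa using h4
    · rw [Nat.le_floor_iff (by linarith)]
      rw [← LatC_norm_eq, pi_norm_le_iff_of_nonneg (by linarith)]
      intro l
      rw [Real.norm_eq_abs]
      exact h1 l
  rw [← Finset.sum_fiberwise_of_maps_to hmaps]
  have hstep : ∀ t ∈ Finset.Icc 1 ⌊T⌋₊,
      ∑ a ∈ A with LatC_nrm a = t, (‖fun l => (a l : ℝ)‖ ^ (n + 1))⁻¹
        ≤ 2 * (n + 1) * 3 ^ n * ((t : ℝ))⁻¹ := by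
    intro t ht
    have ht1 := (mem_Icc.mp ht).1
    have ht' : (1 : ℝ) ≤ t := by exact_mod_cast ht1
    have h1 : ∑ a ∈ A with LatC_nrm a = t, (‖fun l => (a l : ℝ)‖ ^ (n + 1))⁻¹
        = ∑ a ∈ A with LatC_nrm a = t, ((t : ℝ) ^ (n + 1))⁻¹ := by
      apply Finset.sum_congr rfl
      intro a ha
      rw [LatC_norm_eq, (mem_filter.mp ha).2]
    rw [h1, sum_const, nsmul_eq_mul]
    have h2 := LatC_card n t ht1 (A.filter fun a => LatC_nrm a = t)
      (fun a ha => (mem_filter.mp ha).2)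
    have h3 : (0 : ℝ) ≤ ((t : ℝ) ^ (n + 1))⁻¹ := by positivity
    calc ((A.filter fun a => LatC_nrm a = t).card : ℝ) * ((t : ℝ) ^ (n + 1))⁻¹
        ≤ (2 * (n + 1) * 3 ^ n * (t : ℝ) ^ n) * ((t : ℝ) ^ (n + 1))⁻¹ :=
          mul_le_mul_of_nonneg_right h2 h3
      _ = 2 * (n + 1) * 3 ^ n * ((t : ℝ))⁻¹ := by
          have ht0 : (t : ℝ) ≠ 0 := by positivity
          field_simp
          ring
  refine (Finset.sum_le_sum hstep).trans ?_
  rw [← Finset.mul_sum]
  apply mul_le_mul_of_nonneg_left _ (by positivity)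
  have h5 := harmonic_le_one_add_log ⌊T⌋₊
  have h6 : ((harmonic ⌊T⌋₊ : ℚ) : ℝ) = ∑ t ∈ Finset.Icc 1 ⌊T⌋₊, ((t : ℝ))⁻¹ := by
    rw [harmonic_eq_sum_Icc]
    push_cast
    rfl
  rw [h6] at h5
  refine h5.trans ?_
  have h7 : (0 : ℝ) < ⌊T⌋₊ := by
    have : 0 < ⌊T⌋₊ := Nat.floor_pos.mpr hT
    exact_mod_cast this
  have h8 : Real.log (⌊T⌋₊ : ℝ) ≤ Real.log T :=
    Real.log_le_log h7 (Nat.floor_le (by linarith))
  linarith

end Pool.MP43e44c.GU
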