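import Pool.Agent.H.MP_43e44c_ag.GU.LatB3
import Pool.Agent.H.MP_43e44c_ag.GU.LatC

/-!
The number of linearly dependent tuples of short lattice vectors: rational case.
-/

set_option autoImplicit false

open Finset Module

namespace Pool.MP43e44c.GU

open Pool.MP43e44c.OD

section

variable {r : ℕ} {κ : Type*} [Fintype κ] {j : (Fin r → ℚ) →ₗ[ℚ] EuclideanSpace ℝ κ}
  {L : AddSubgroup (Fin r → ℚ)}

/-- The hyperplanes spanned by short vectors. -/
def latD_hyp (j : (Fin r → ℚ) →ₗ[ℚ] EuclideanSpace ℝ κ) (L : AddSubgroup (Fin r → ℚ)) (R : ℝ) :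
    Set (Submodule ℚ (Fin r → ℚ)) :=
  {S | finrank ℚ S = r - 1 ∧ Submodule.span ℚ (pts j L S R) = S}

theorem latD_hyp_fin (hL : ∀ x ∈ L, x ≠ 0 → 1 ≤ ‖j x‖) (R : ℝ) : (latD_hyp j L R).Finite := by
  have h1 : {T : Set (Fin r → ℚ) | T ⊆ pts j L ⊤ R}.Finite := (pts_finite hL ⊤ R).finite_subsets
  refine Set.Finite.of_injOn (f := fun S => pts j L S R) ?_ ?_ h1
  · intro S _ x hx
    exact ⟨hx.1, Submodule.mem_top, hx.2.2⟩
  · intro S hS T hT h
    have h2 : pts j L S R = pts j L T R := h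
    rw [← hS.2, ← hT.2, h2]

theorem latD_tup_fin (hL : ∀ x ∈ L, x ≠ 0 → 1 ≤ ‖j x‖) (R : ℝ) :
    {y : Fin r → (Fin r → ℚ) | ∀ l, y l ∈ L ∧ ‖j (y l)‖ ≤ R}.Finite := by
  have h1 : (Set.univ.pi (fun _ : Fin r => pts j L ⊤ R)).Finite :=
    Set.Finite.pi (fun _ => pts_finite hL ⊤ R)
  refine h1.subset ?_
  intro y hy
  rw [Set.mem_univ_pi]
  intro l
  exact ⟨(hy l).1, Submodule.mem_top, (hy l).2⟩

/-- Tuples spanning a hyperplane. -/
theorem latD_one (hL : ∀ x ∈ L, x ≠ 0 → 1 ≤ ‖j x‖) (R : ℝ) :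
    ({y : Fin r → (Fin r → ℚ) | (∀ l, y l ∈ L ∧ ‖j (y l)‖ ≤ R) ∧
      finrank ℚ (Submodule.span ℚ (Set.range y)) = r - 1}.ncard : ℝ) ≤
      ∑ S ∈ (latD_hyp_fin hL R).toFinset, ((pts j L S R).ncard : ℝ) ^ r := by
  classical
  let B : Submodule ℚ (Fin r → ℚ) → Finset (Fin r → (Fin r → ℚ)) := fun S =>
    Fintype.piFinset (fun _ => (pts_finite hL S R).toFinset)
  have hB : ∀ S, (B S).card = (pts j L S R).ncard ^ r := by
    intro S
    change (Fintype.piFinset (fun _ => (pts_finite hL S R).toFinset)).card = _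
    rw [Fintype.card_piFinset, Set.ncard_eq_toFinset_card _ (pts_finite hL S R)]
    simp
  have h1 : {y : Fin r → (Fin r → ℚ) | (∀ l, y l ∈ L ∧ ‖j (y l)‖ ≤ R) ∧
      finrank ℚ (Submodule.span ℚ (Set.range y)) = r - 1} ⊆
      (((latD_hyp_fin hL R).toFinset.biUnion B : Finset _) : Set (Fin r → (Fin r → ℚ))) := by
    intro y hy
    rw [Finset.mem_coe, Finset.mem_biUnion]
    have hin : ∀ l, y l ∈ pts j L (Submodule.span ℚ (Set.range y)) R := fun l =>
      ⟨(hy.1 l).1, Submodule.subset_span ⟨l, rfl⟩, (hy.1 l).2⟩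
    refine ⟨Submodule.span ℚ (Set.range y), ?_, ?_⟩
    · rw [Set.Finite.mem_toFinset]
      refine ⟨hy.2, le_antisymm ?_ ?_⟩
      · rw [Submodule.span_le]
        intro x hx
        exact hx.2.1
      · apply Submodule.span_mono
        rintro _ ⟨l, rfl⟩
        exact hin l
    · rw [Fintype.mem_piFinset]
      intro l
      rw [Set.Finite.mem_toFinset]
      exact hin l
  have h2 := Set.ncard_le_ncard h1 (Finset.finite_toSet _)
  rw [Set.ncard_coe_finset] at h2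
  have h3 := h2.trans Finset.card_biUnion_le
  have h4 : ({y : Fin r → (Fin r → ℚ) | (∀ l, y l ∈ L ∧ ‖j (y l)‖ ≤ R) ∧
      finrank ℚ (Submodule.span ℚ (Set.range y)) = r - 1}.ncard : ℝ) ≤
      ((∑ S ∈ (latD_hyp_fin hL R).toFinset, (B S).card : ℕ) : ℝ) := by exact_mod_cast h3
  refine h4.trans (le_of_eq ?_)
  rw [Nat.cast_sum]
  refine Finset.sum_congr rfl fun S _ => ?_
  rw [hB, Nat.cast_pow]

/-- Two indices whose vectors are in the span of the others. -/
theorem latD_pair {y : Fin r → (Fin r → ℚ)}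
    (h : finrank ℚ (Submodule.span ℚ (Set.range y)) + 2 ≤ r) :
    ∃ l1 l2 : Fin r, l1 ≠ l2 ∧ ∀ l, y l ∈
      Submodule.span ℚ (Set.range fun i : {i : Fin r // i ≠ l1 ∧ i ≠ l2} => y i) := by
  classical
  obtain ⟨ν, a, ha, hs, hli⟩ := exists_linearIndependent' ℚ y
  have hfin : Finite ν := Finite.of_injective a ha
  have := Fintype.ofFinite ν
  have hc : Fintype.card ν = finrank ℚ (Submodule.span ℚ (Set.range y)) := by
    rw [← hs, finrank_span_eq_card hli]
  have h1 : 1 < ((Finset.univ.image a)ᶜ).card := by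
    rw [Finset.card_compl, Fintype.card_fin, Finset.card_image_of_injective _ ha, Finset.card_univ]
    omega
  obtain ⟨l1, hl1, l2, hl2, hne⟩ := Finset.one_lt_card.1 h1
  refine ⟨l1, l2, hne, fun l => ?_⟩
  have h2 : y l ∈ Submodule.span ℚ (Set.range (y ∘ a)) := by
    rw [hs]
    exact Submodule.subset_span ⟨l, rfl⟩
  refine Submodule.span_mono ?_ h2
  rintro _ ⟨i, rfl⟩
  refine ⟨⟨a i, ?_, ?_⟩, rfl⟩
  · rintro rfl
    exact (Finset.mem_compl.1 hl1) (Finset.mem_image_of_mem _ (Finset.mem_univ i))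
  · rintro rfl
    exact (Finset.mem_compl.1 hl2) (Finset.mem_image_of_mem _ (Finset.mem_univ i))

theorem latD_card {l1 l2 : Fin r} (h : l1 ≠ l2) :
    Fintype.card {i : Fin r // i ≠ l1 ∧ i ≠ l2} = r - 2 := by
  classical
  rw [Fintype.card_subtype]
  have h1 : (univ.filter fun i : Fin r => i ≠ l1 ∧ i ≠ l2) = ({l1, l2} : Finset (Fin r))ᶜ := by
    ext i
    simp
  rw [h1, Finset.card_compl, Fintype.card_fin, Finset.card_pair h]

/-- Tuples spanning a subspace of smaller dimension. -/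
theorem latD_two (hL : ∀ x ∈ L, x ≠ 0 → 1 ≤ ‖j x‖) {R : ℝ} (hR : 1 ≤ R) :
    ({y : Fin r → (Fin r → ℚ) | (∀ l, y l ∈ L ∧ ‖j (y l)‖ ≤ R) ∧
      finrank ℚ (Submodule.span ℚ (Set.range y)) + 2 ≤ r}.ncard : ℝ) ≤
      (r : ℝ) ^ 2 * (((1 + 2 * R) ^ r) ^ (r - 2) * ((1 + 2 * R) ^ (r - 2)) ^ 2) := by
  classical
  have hfin : {y : Fin r → (Fin r → ℚ) | (∀ l, y l ∈ L ∧ ‖j (y l)‖ ≤ R) ∧
      finrank ℚ (Submodule.span ℚ (Set.range y)) + 2 ≤ r}.Finite :=
    (latD_tup_fin hL R).subset fun y hy => hy.1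
  rw [Set.ncard_eq_toFinset_card _ hfin]
  obtain ⟨P, hP⟩ : ∃ P : Finset (Fin r → ℚ), P = (pts_finite hL ⊤ R).toFinset := ⟨_, rfl⟩
  have hPc : (P.card : ℝ) ≤ (1 + 2 * R) ^ r := by
    have h := pts_card_le (j := j) hL (finrank_self ℚ) (S := ⊤) (m := r) (by simp) (R := R)
      (by linarith)
    rw [mul_one] at h
    rwa [Set.ncard_eq_toFinset_card _ (pts_finite hL ⊤ R), ← hP] at h
  let f : (p : Fin r × Fin r) → (Fin r → (Fin r → ℚ)) →
      ({i : Fin r // i ≠ p.1 ∧ i ≠ p.2} → (Fin r → ℚ)) := fun p y i => y i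
  let A : Fin r × Fin r → Finset (Fin r → (Fin r → ℚ)) := fun p =>
    hfin.toFinset.filter (fun y => p.1 ≠ p.2 ∧ ∀ l, y l ∈ Submodule.span ℚ (Set.range (f p y)))
  have hcover : hfin.toFinset ⊆ Finset.univ.biUnion A := by
    intro y hy
    have hy' := (Set.Finite.mem_toFinset hfin).1 hy
    obtain ⟨l1, l2, hne, hl⟩ := latD_pair hy'.2
    rw [Finset.mem_biUnion]
    exact ⟨(l1, l2), Finset.mem_univ _, Finset.mem_filter.2 ⟨hy, hne, hl⟩⟩
  have hA : ∀ p, ((A p).card : ℝ) ≤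
      ((1 + 2 * R) ^ r) ^ (r - 2) * ((1 + 2 * R) ^ (r - 2)) ^ 2 := by
    intro p
    by_cases hp : p.1 = p.2
    · have h0 : A p = ∅ := by
        rw [Finset.eq_empty_iff_forall_notMem]
        intro y hy
        exact (Finset.mem_filter.1 hy).2.1 hp
      rw [h0, Finset.card_empty, Nat.cast_zero]
      positivity
    · have hcard := latD_card hp
      have h1 : (A p).card ≤ ⌊((1 + 2 * R) ^ (r - 2)) ^ 2⌋₊ * ((A p).image (f p)).card := by
        refine Finset.card_le_mul_card_image (A p) _ ?_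
        intro b hb
        apply Nat.le_floor
        have hbr : finrank ℚ (Submodule.span ℚ (Set.range b)) ≤ r - 2 := by
          have h := finrank_range_le_card (R := ℚ) b
          rw [hcard] at h
          exact h
        have hpc := pts_card_le (j := j) hL (finrank_self ℚ) hbr (R := R) (by linarith)
        rw [mul_one, Set.ncard_eq_toFinset_card _ (pts_finite hL _ R)] at hpc
        obtain ⟨Q, hQ⟩ : ∃ Q : Finset (Fin r → ℚ),
          Q = (pts_finite hL (Submodule.span ℚ (Set.range b)) R).toFinset := ⟨_, rfl⟩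
        rw [← hQ] at hpc
        have h2 : ((A p).filter (fun y => f p y = b)).card ≤ (Q ×ˢ Q).card := by
          refine Finset.card_le_card_of_injOn (fun y => (y p.1, y p.2)) ?_ ?_
          · intro y hy
            have hy' := Finset.mem_filter.1 (Finset.mem_coe.1 hy)
            have hy2 := Finset.mem_filter.1 hy'.1
            have hy3 := (Set.Finite.mem_toFinset hfin).1 hy2.1
            have hy4 := hy2.2.2
            rw [hy'.2] at hy4
            refine Finset.mem_coe.2 (Finset.mem_product.2 ⟨?_, ?_⟩)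
            · rw [hQ, Set.Finite.mem_toFinset]
              exact ⟨(hy3.1 _).1, hy4 _, (hy3.1 _).2⟩
            · rw [hQ, Set.Finite.mem_toFinset]
              exact ⟨(hy3.1 _).1, hy4 _, (hy3.1 _).2⟩
          · intro y hy z hz hyz
            have hy' := (Finset.mem_filter.1 (Finset.mem_coe.1 hy)).2
            have hz' := (Finset.mem_filter.1 (Finset.mem_coe.1 hz)).2
            simp only [Prod.mk.injEq] at hyz
            funext i
            by_cases hi : i = p.1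
            · rw [hi]; exact hyz.1
            · by_cases hi2 : i = p.2
              · rw [hi2]; exact hyz.2
              · exact congrFun (hy'.trans hz'.symm) ⟨i, hi, hi2⟩
        rw [Finset.card_product] at h2
        have h3 : (((A p).filter (fun y => f p y = b)).card : ℝ) ≤ (Q.card : ℝ) * Q.card := by
          exact_mod_cast h2
        refine h3.trans ?_
        rw [← pow_two]
        exact pow_le_pow_left₀ (Nat.cast_nonneg _) hpc _
      have h3 : ((A p).image (f p)).card ≤ P.card ^ (r - 2) := by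
        have h4 : (A p).image (f p) ⊆
            Fintype.piFinset (fun _ : {i : Fin r // i ≠ p.1 ∧ i ≠ p.2} => P) := by
          intro b hb
          obtain ⟨y0, hy0, hy0b⟩ := Finset.mem_image.1 hb
          rw [Fintype.mem_piFinset]
          intro i
          have hy3 := (Set.Finite.mem_toFinset hfin).1 (Finset.mem_filter.1 hy0).1
          rw [← hy0b, hP]
          exact (Set.Finite.mem_toFinset _).2 ⟨(hy3.1 i).1, Submodule.mem_top, (hy3.1 i).2⟩
        refine (Finset.card_le_card h4).trans ?_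
        rw [Fintype.card_piFinset, Finset.prod_const, Finset.card_univ, hcard]
      have h5 : ((A p).card : ℝ) ≤
          (⌊((1 + 2 * R) ^ (r - 2)) ^ 2⌋₊ : ℝ) * ((P.card : ℝ) ^ (r - 2)) := by
        have : (A p).card ≤ ⌊((1 + 2 * R) ^ (r - 2)) ^ 2⌋₊ * P.card ^ (r - 2) :=
          h1.trans (Nat.mul_le_mul_left _ h3)
        exact_mod_cast this
      refine h5.trans ?_
      rw [mul_comm]
      refine mul_le_mul ?_ (Nat.floor_le (by positivity)) (Nat.cast_nonneg _) (by positivity)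
      exact pow_le_pow_left₀ (Nat.cast_nonneg _) hPc _
  calc ((hfin.toFinset.card : ℕ) : ℝ)
      ≤ ((Finset.univ.biUnion A).card : ℝ) := by exact_mod_cast Finset.card_le_card hcover
    _ ≤ ∑ p : Fin r × Fin r, ((A p).card : ℝ) := by exact_mod_cast Finset.card_biUnion_le
    _ ≤ ∑ p : Fin r × Fin r, (((1 + 2 * R) ^ r) ^ (r - 2) * ((1 + 2 * R) ^ (r - 2)) ^ 2) :=
        Finset.sum_le_sum fun p _ => hA p
    _ = _ := by
        rw [Finset.sum_const, Finset.card_univ, Fintype.card_prod, Fintype.card_fin, nsmul_eq_mul]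
        push_cast
        ring

end

/-- PROOF. Tuples `y` whose span `S` has dimension `r - 1`: `S` is spanned by `pts j L S R`, all `y l` are in
`pts j L S R`, so there are at most `∑_S (pts j L S R).ncard ^ r` of them, `S` running over the finite set
of the hyperplanes spanned by elements of `pts j L ⊤ R`.  With the vector `a_S` of `ell` (which
determines `S`, since the `w l` are a basis) `(pts j L S R).ncard ≤ C R ^ (r - 1) / ‖a_S‖`, and
`‖a_S‖ ≤ C R ^ (r - 1)`, so the sum is at most `C ^ r R ^ (r (r - 1)) C' (1 + log (C R ^ (r - 1)))`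
(`sum_norm`), at most `C'' R ^ (r ^ 2 - 3) (1 + log R)` as `r ≥ 3`.

Tuples whose span has dimension at most `r - 2`: there is a set `I` of `r - 2` indices such that the span
of the `y l`, `l ∈ I`, contains all `y l` (extend a maximal independent subfamily).  For given `I` and
given `y l`, `l ∈ I`, there are at most `(1 + 2 R) ^ (r - 2)` possibilities for each of the two other
vectors, so at most `2 ^ r (1 + 2 R) ^ (r (r - 2) + 2 (r - 2)) ≤ C R ^ (r ^ 2 - 4)` tuples. -/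
theorem count_depQ (r : ℕ) (hr : 3 ≤ r) : ∃ C : ℝ, 0 < C ∧ ∀ {κ : Type*} [Fintype κ]
    (j : (Fin r → ℚ) →ₗ[ℚ] EuclideanSpace ℝ κ) (L : AddSubgroup (Fin r → ℚ)),
    (∀ x ∈ L, x ≠ 0 → 1 ≤ ‖j x‖) → ∀ w : Fin r → (Fin r → ℚ), LinearIndependent ℚ w →
    (∀ l, w l ∈ L ∧ ‖j (w l)‖ ≤ 1) → ∀ R : ℝ, 1 ≤ R →
    {y : Fin r → (Fin r → ℚ) | (∀ l, y l ∈ L ∧ ‖j (y l)‖ ≤ R) ∧ ¬ LinearIndependent ℚ y}.Finite ∧
    ({y : Fin r → (Fin r → ℚ) | (∀ l, y l ∈ L ∧ ‖j (y l)‖ ≤ R) ∧
      ¬ LinearIndependent ℚ y}.ncard : ℝ) ≤ C * R ^ (r ^ 2 - 3) * (1 + Real.log R) := by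
  classical
  obtain ⟨C0, hC0, hell⟩ := ell r (by omega)
  obtain ⟨C2, hC2, hsum⟩ := sum_norm r (by omega)
  obtain ⟨C1, hC1⟩ : ∃ C1 : ℝ, C1 = max C0 1 := ⟨_, rfl⟩
  have hC01 : C0 ≤ C1 := by rw [hC1]; exact le_max_left _ _
  have hC11 : 1 ≤ C1 := by rw [hC1]; exact le_max_right _ _
  have hlC1 : 0 ≤ Real.log C1 := Real.log_nonneg hC11
  refine ⟨C1 ^ r * C2 * (1 + Real.log C1 + r) + (r : ℝ) ^ 2 * 3 ^ (r ^ 2), by positivity, ?_⟩
  intro κ _ j L hL w hw hwL R hR
  refine ⟨(latD_tup_fin hL R).subset fun y hy => hy.1, ?_⟩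
  have hR0 : 0 < R := by linarith
  have hlR : 0 ≤ Real.log R := Real.log_nonneg hR
  -- splitting
  have hsplit : {y : Fin r → (Fin r → ℚ) | (∀ l, y l ∈ L ∧ ‖j (y l)‖ ≤ R) ∧
      ¬ LinearIndependent ℚ y} ⊆
      {y : Fin r → (Fin r → ℚ) | (∀ l, y l ∈ L ∧ ‖j (y l)‖ ≤ R) ∧
        finrank ℚ (Submodule.span ℚ (Set.range y)) = r - 1} ∪
      {y : Fin r → (Fin r → ℚ) | (∀ l, y l ∈ L ∧ ‖j (y l)‖ ≤ R) ∧
        finrank ℚ (Submodule.span ℚ (Set.range y)) + 2 ≤ r} := by
    intro y hy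
    have h1 : finrank ℚ (Submodule.span ℚ (Set.range y)) ≤ r := by
      have h := finrank_range_le_card (R := ℚ) y
      rw [Fintype.card_fin] at h
      exact h
    have h2 : finrank ℚ (Submodule.span ℚ (Set.range y)) ≠ r := by
      intro h
      apply hy.2
      rw [linearIndependent_iff_card_eq_finrank_span, Fintype.card_fin]
      exact h.symm
    by_cases h3 : finrank ℚ (Submodule.span ℚ (Set.range y)) = r - 1
    · exact Or.inl ⟨hy.1, h3⟩
    · exact Or.inr ⟨hy.1, by omega⟩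
  have hfin1 : {y : Fin r → (Fin r → ℚ) | (∀ l, y l ∈ L ∧ ‖j (y l)‖ ≤ R) ∧
        finrank ℚ (Submodule.span ℚ (Set.range y)) = r - 1}.Finite :=
    (latD_tup_fin hL R).subset fun y hy => hy.1
  have hfin2 : {y : Fin r → (Fin r → ℚ) | (∀ l, y l ∈ L ∧ ‖j (y l)‖ ≤ R) ∧
        finrank ℚ (Submodule.span ℚ (Set.range y)) + 2 ≤ r}.Finite :=
    (latD_tup_fin hL R).subset fun y hy => hy.1
  have hle : ({y : Fin r → (Fin r → ℚ) | (∀ l, y l ∈ L ∧ ‖j (y l)‖ ≤ R) ∧
      ¬ LinearIndependent ℚ y}.ncard : ℝ) ≤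
      ({y : Fin r → (Fin r → ℚ) | (∀ l, y l ∈ L ∧ ‖j (y l)‖ ≤ R) ∧
        finrank ℚ (Submodule.span ℚ (Set.range y)) = r - 1}.ncard : ℝ) +
      ({y : Fin r → (Fin r → ℚ) | (∀ l, y l ∈ L ∧ ‖j (y l)‖ ≤ R) ∧
        finrank ℚ (Submodule.span ℚ (Set.range y)) + 2 ≤ r}.ncard : ℝ) := by
    have h1 := (Set.ncard_le_ncard hsplit (hfin1.union hfin2)).trans (Set.ncard_union_le _ _)
    exact_mod_cast h1
  refine hle.trans ?_
  -- the second part
  have h2 : ({y : Fin r → (Fin r → ℚ) | (∀ l, y l ∈ L ∧ ‖j (y l)‖ ≤ R) ∧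
        finrank ℚ (Submodule.span ℚ (Set.range y)) + 2 ≤ r}.ncard : ℝ) ≤
      (r : ℝ) ^ 2 * 3 ^ (r ^ 2) * R ^ (r ^ 2 - 3) := by
    refine (latD_two hL hR).trans ?_
    rw [mul_assoc]
    refine mul_le_mul_of_nonneg_left ?_ (by positivity)
    obtain ⟨a, rfl⟩ : ∃ a, r = a + 3 := ⟨r - 3, by omega⟩
    have e1 : a + 3 - 2 = a + 1 := by omega
    have e2 : (a + 3) ^ 2 = (a + 3) * (a + 1) + (a + 1) * 2 + 4 := by ring
    have e3 : (a + 3) ^ 2 - 3 = (a + 3) * (a + 1) + (a + 1) * 2 + 1 := by omega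
    rw [e1, ← pow_mul, ← pow_mul, ← pow_add]
    calc (1 + 2 * R) ^ ((a + 3) * (a + 1) + (a + 1) * 2)
        ≤ (3 * R) ^ ((a + 3) * (a + 1) + (a + 1) * 2) :=
          pow_le_pow_left₀ (by linarith) (by linarith) _
      _ = 3 ^ ((a + 3) * (a + 1) + (a + 1) * 2) * R ^ ((a + 3) * (a + 1) + (a + 1) * 2) := by
          rw [mul_pow]
      _ ≤ 3 ^ ((a + 3) ^ 2) * R ^ ((a + 3) ^ 2 - 3) := by
          refine mul_le_mul ?_ ?_ (by positivity) (by positivity)
          · exact pow_le_pow_right₀ (by norm_num) (by omega)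
          · exact pow_le_pow_right₀ hR (by omega)
  -- the first part
  have hAex : ∀ S ∈ latD_hyp j L R, ∃ a : Fin r → ℤ, a ≠ 0 ∧
      (∀ m : Fin r → ℚ, ∑ l, m l • w l ∈ S ↔ ∑ l, m l * a l = 0) ∧
      ∀ l, ((pts j L S R).ncard : ℝ) * |(a l : ℝ)| ≤ C0 * R ^ (r - 1) := by
    intro S hS
    exact hell j L hL w hw hwL R hR S hS.1 hS.2
  choose! α hα0 hαS hαN using hAex
  have hinj : Set.InjOn α (latD_hyp j L R) := by
    intro S hS T hT h
    have hcard : Fintype.card (Fin r) = finrank ℚ (Fin r → ℚ) := by simp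
    have hspan : ⊤ ≤ Submodule.span ℚ (Set.range w) :=
      (hw.span_eq_top_of_card_eq_finrank' hcard).ge
    ext x
    have hx : x ∈ Submodule.span ℚ (Set.range w) := hspan Submodule.mem_top
    obtain ⟨m, rfl⟩ := (Submodule.mem_span_range_iff_exists_fun ℚ).1 hx
    rw [hαS S hS m, hαS T hT m, h]
  have hcpos : ∀ S, (1 : ℝ) ≤ ((pts j L S R).ncard : ℝ) := by
    intro S
    have h3 : 0 < (pts j L S R).ncard := by
      rw [Set.ncard_pos (pts_finite hL S R)]
      exact ⟨0, L.zero_mem, S.zero_mem, by rw [map_zero, norm_zero]; exact hR0.le⟩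
    exact_mod_cast h3
  have hT1 : 1 ≤ C1 * R ^ (r - 1) := one_le_mul_of_one_le_of_one_le hC11 (one_le_pow₀ hR)
  have hnorm : ∀ S ∈ latD_hyp j L R, 0 < ‖fun l => (α S l : ℝ)‖ := by
    intro S hS
    rw [norm_pos_iff]
    intro h
    apply hα0 S hS
    funext l
    have h3 := congrFun h l
    simpa using h3
  have hnc : ∀ S ∈ latD_hyp j L R,
      ((pts j L S R).ncard : ℝ) ^ r ≤ (C1 * R ^ (r - 1)) ^ r *
        (‖fun l => (α S l : ℝ)‖ ^ r)⁻¹ := by
    intro S hS
    rw [← div_eq_mul_inv, le_div_iff₀ (pow_pos (hnorm S hS) r), ← mul_pow]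
    refine pow_le_pow_left₀ (by positivity) ?_ r
    have hcS := hcpos S
    have h3 : ‖fun l => (α S l : ℝ)‖ ≤ C1 * R ^ (r - 1) / ((pts j L S R).ncard : ℝ) := by
      rw [pi_norm_le_iff_of_nonneg (by positivity)]
      intro l
      rw [le_div_iff₀ (by linarith), Real.norm_eq_abs, mul_comm]
      refine (hαN S hS l).trans ?_
      exact mul_le_mul_of_nonneg_right hC01 (by positivity)
    rw [le_div_iff₀ (by linarith), mul_comm] at h3
    exact h3
  have h1 : ({y : Fin r → (Fin r → ℚ) | (∀ l, y l ∈ L ∧ ‖j (y l)‖ ≤ R) ∧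
        finrank ℚ (Submodule.span ℚ (Set.range y)) = r - 1}.ncard : ℝ) ≤
      (C1 * R ^ (r - 1)) ^ r * (C2 * (1 + Real.log (C1 * R ^ (r - 1)))) := by
    refine (latD_one hL R).trans ?_
    have h3 : ∑ S ∈ (latD_hyp_fin hL R).toFinset, ((pts j L S R).ncard : ℝ) ^ r ≤
        ∑ S ∈ (latD_hyp_fin hL R).toFinset, (C1 * R ^ (r - 1)) ^ r *
          (‖fun l => (α S l : ℝ)‖ ^ r)⁻¹ :=
      Finset.sum_le_sum fun S hS => hnc S ((Set.Finite.mem_toFinset _).1 hS)
    refine h3.trans ?_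
    rw [← Finset.mul_sum]
    refine mul_le_mul_of_nonneg_left ?_ (by positivity)
    have h4 : ∑ S ∈ (latD_hyp_fin hL R).toFinset, (‖fun l => (α S l : ℝ)‖ ^ r)⁻¹ =
        ∑ a ∈ (latD_hyp_fin hL R).toFinset.image α, (‖fun l => (a l : ℝ)‖ ^ r)⁻¹ := by
      rw [Finset.sum_image]
      intro S hS T hT h
      exact hinj ((Set.Finite.mem_toFinset _).1 (Finset.mem_coe.1 hS))
        ((Set.Finite.mem_toFinset _).1 (Finset.mem_coe.1 hT)) h
    rw [h4]
    apply hsum _ hT1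
    intro a ha
    obtain ⟨S, hS, rfl⟩ := Finset.mem_image.1 ha
    have hS' := (Set.Finite.mem_toFinset _).1 hS
    refine ⟨hα0 S hS', fun l => ?_⟩
    have h5 := hαN S hS' l
    have h6 : |(α S l : ℝ)| ≤ ((pts j L S R).ncard : ℝ) * |(α S l : ℝ)| :=
      le_mul_of_one_le_left (abs_nonneg _) (hcpos S)
    refine h6.trans (h5.trans ?_)
    exact mul_le_mul_of_nonneg_right hC01 (by positivity)
  have h3 : (C1 * R ^ (r - 1)) ^ r * (C2 * (1 + Real.log (C1 * R ^ (r - 1)))) ≤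
      C1 ^ r * C2 * (1 + Real.log C1 + r) * R ^ (r ^ 2 - 3) * (1 + Real.log R) := by
    have hlog : Real.log (C1 * R ^ (r - 1)) = Real.log C1 + (r - 1 : ℕ) * Real.log R := by
      rw [Real.log_mul (by positivity) (by positivity), Real.log_pow]
    have hr1 : ((r - 1 : ℕ) : ℝ) ≤ r := by exact_mod_cast Nat.sub_le r 1
    have hlog2 : 1 + Real.log (C1 * R ^ (r - 1)) ≤ (1 + Real.log C1 + r) * (1 + Real.log R) := by
      rw [hlog]
      have h5 : ((r - 1 : ℕ) : ℝ) * Real.log R ≤ r * Real.log R :=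
        mul_le_mul_of_nonneg_right hr1 hlR
      have h6 : 0 ≤ (1 + Real.log C1) * Real.log R := by positivity
      have h7 : (0 : ℝ) ≤ r := Nat.cast_nonneg r
      nlinarith
    have hpow : (C1 * R ^ (r - 1)) ^ r ≤ C1 ^ r * R ^ (r ^ 2 - 3) := by
      rw [mul_pow, ← pow_mul]
      refine mul_le_mul_of_nonneg_left ?_ (by positivity)
      apply pow_le_pow_right₀ hR
      obtain ⟨a, rfl⟩ : ∃ a, r = a + 3 := ⟨r - 3, by omega⟩
      have e1 : a + 3 - 1 = a + 2 := by omega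
      have e2 : (a + 3) ^ 2 = (a + 2) * (a + 3) + a + 3 := by ring
      rw [e1]
      omega
    calc (C1 * R ^ (r - 1)) ^ r * (C2 * (1 + Real.log (C1 * R ^ (r - 1))))
        ≤ (C1 ^ r * R ^ (r ^ 2 - 3)) * (C2 * ((1 + Real.log C1 + r) * (1 + Real.log R))) := by
          refine mul_le_mul hpow (mul_le_mul_of_nonneg_left hlog2 hC2.le) ?_ (by positivity)
          have : 0 ≤ Real.log (C1 * R ^ (r - 1)) := Real.log_nonneg hT1
          positivity
      _ = _ := by ring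
  have h4 : (r : ℝ) ^ 2 * 3 ^ (r ^ 2) * R ^ (r ^ 2 - 3) ≤
      (r : ℝ) ^ 2 * 3 ^ (r ^ 2) * R ^ (r ^ 2 - 3) * (1 + Real.log R) :=
    le_mul_of_one_le_right (by positivity) (by linarith)
  calc _ ≤ C1 ^ r * C2 * (1 + Real.log C1 + r) * R ^ (r ^ 2 - 3) * (1 + Real.log R) +
        (r : ℝ) ^ 2 * 3 ^ (r ^ 2) * R ^ (r ^ 2 - 3) * (1 + Real.log R) :=
        add_le_add (h1.trans h3) (h2.trans h4)
    _ = _ := by ring

end Pool.MP43e44c.GU
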