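import Mathlib

/-!
Rational two by two matrices of finite order.
-/

set_option autoImplicit false

open Finset

namespace Pool.MP43e44c.GU

/-- roots of the characteristic polynomial of a matrix of finite order are roots of unity -/
theorem matA_root (A : Matrix (Fin 2) (Fin 2) ℂ) {m : ℕ} (h : A ^ m = 1) (z : ℂ)
    (hz : z * z - A.trace * z + A.det = 0) : z ^ m = 1 := by
  have h1 : (A - z • (1 : Matrix (Fin 2) (Fin 2) ℂ)).det = 0 := by
    rw [Matrix.det_fin_two, Matrix.trace_fin_two] at hz
    rw [Matrix.det_fin_two]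
    simp only [Matrix.sub_apply, Matrix.smul_apply, Matrix.one_apply, smul_eq_mul]
    simp
    linear_combination hz
  obtain ⟨v, hv, hvz⟩ := Matrix.exists_mulVec_eq_zero_iff.2 h1
  have h2 : A.mulVec v = z • v := by
    rw [Matrix.sub_mulVec, Matrix.smul_mulVec, Matrix.one_mulVec] at hvz
    exact sub_eq_zero.1 hvz
  have h3 : ∀ k : ℕ, (A ^ k).mulVec v = z ^ k • v := by
    intro k
    induction k with
    | zero => rw [pow_zero, pow_zero, Matrix.one_mulVec, one_smul]
    | succ k ih =>
      rw [pow_succ, ← Matrix.mulVec_mulVec, h2, Matrix.mulVec_smul, ih, smul_smul, pow_succ,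
        mul_comm]
  have h4 := h3 m
  rw [h, Matrix.one_mulVec] at h4
  have h5 : (1 - z ^ m) • v = 0 := by rw [sub_smul, one_smul, ← h4, sub_self]
  rcases smul_eq_zero.1 h5 with h6 | h6
  · exact (sub_eq_zero.1 h6).symm
  · exact absurd h6 hv

/-- the trace of a matrix of finite order -/
theorem matA_trace (M : Matrix (Fin 2) (Fin 2) ℚ) {m : ℕ} (hm : 0 < m) (h : M ^ m = 1) :
    ∃ n : ℤ, M.trace = n ∧ -2 ≤ n ∧ n ≤ 2 := by
  let A : Matrix (Fin 2) (Fin 2) ℂ := (algebraMap ℚ ℂ).mapMatrix M
  have hAm : A ^ m = 1 := by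
    change ((algebraMap ℚ ℂ).mapMatrix M) ^ m = 1
    rw [← map_pow, h, map_one]
  have hAt : A.trace = ((M.trace : ℚ) : ℂ) := by
    rw [Matrix.trace_fin_two, Matrix.trace_fin_two]
    change ((M 0 0 : ℚ) : ℂ) + ((M 1 1 : ℚ) : ℂ) = _
    push_cast
    rfl
  obtain ⟨r, hr⟩ := IsAlgClosed.exists_pow_nat_eq (A.trace * A.trace - 4 * A.det) (n := 2) (by norm_num)
  have hz : ((A.trace + r) / 2) * ((A.trace + r) / 2) - A.trace * ((A.trace + r) / 2) + A.det = 0 := by
    linear_combination (1 / 4 : ℂ) * hr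
  have hz' : ((A.trace - r) / 2) * ((A.trace - r) / 2) - A.trace * ((A.trace - r) / 2) + A.det = 0 := by
    linear_combination (1 / 4 : ℂ) * hr
  have h1 := matA_root A hAm _ hz
  have h2 := matA_root A hAm _ hz'
  have hsum : (A.trace + r) / 2 + (A.trace - r) / 2 = A.trace := by ring
  generalize (A.trace + r) / 2 = z at h1 hsum
  generalize (A.trace - r) / 2 = z' at h2 hsum
  have h3 : IsIntegral ℤ A.trace := by
    rw [← hsum]
    exact (IsIntegral.of_pow hm (h1 ▸ isIntegral_one)).add
      (IsIntegral.of_pow hm (h2 ▸ isIntegral_one))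
  have h4 : IsIntegral ℤ M.trace := by
    rw [hAt] at h3
    exact (isIntegral_algebraMap_iff (algebraMap ℚ ℂ).injective).1 h3
  obtain ⟨n, hn⟩ := IsIntegrallyClosed.isIntegral_iff.1 h4
  have hn' : M.trace = n := by
    rw [← hn]
    rfl
  have h5 : ‖A.trace‖ ≤ 2 := by
    rw [← hsum]
    refine (norm_add_le _ _).trans ?_
    rw [Complex.norm_eq_one_of_pow_eq_one h1 hm.ne', Complex.norm_eq_one_of_pow_eq_one h2 hm.ne']
    norm_num
  rw [hAt, hn'] at h5
  have h6 : |(n : ℝ)| ≤ 2 := by
    have : ‖(((n : ℚ) : ℂ))‖ = |(n : ℝ)| := by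
      rw [Rat.cast_intCast, Complex.norm_intCast]
    rwa [this] at h5
  rw [abs_le] at h6
  exact ⟨n, hn', by exact_mod_cast h6.1, by exact_mod_cast h6.2⟩

/-- a matrix of finite order with determinant one and trace two is the identity -/
theorem matA_unip (M : Matrix (Fin 2) (Fin 2) ℚ) {m : ℕ} (hm : 0 < m) (h : M ^ m = 1)
    (hd : M.det = 1) (ht : M.trace = 2) : M = 1 := by
  have hN : (M - 1) * (M - 1) = 0 := by
    rw [Matrix.det_fin_two] at hd
    rw [Matrix.trace_fin_two] at ht
    have e1 : M 1 1 = 2 - M 0 0 := by linarith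
    ext i j
    fin_cases i <;> fin_cases j <;>
      simp [Matrix.mul_apply, Fin.sum_univ_two, Matrix.one_apply, e1] <;>
      rw [e1] at hd <;> first | ring1 | linear_combination -hd
  have hpow : ∀ k : ℕ, M ^ k = 1 + (k : ℚ) • (M - 1) := by
    intro k
    induction k with
    | zero => simp
    | succ k ih =>
      have e : M = 1 + (M - 1) := by abel
      calc M ^ (k + 1) = M ^ k * M := pow_succ _ _
        _ = (1 + (k : ℚ) • (M - 1)) * (1 + (M - 1)) := by rw [ih, ← e]
        _ = 1 + (M - 1) + (k : ℚ) • (M - 1) + (k : ℚ) • ((M - 1) * (M - 1)) := by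
          rw [mul_add, mul_one, add_mul, one_mul, smul_mul_assoc]
          abel
        _ = _ := by
          rw [hN, smul_zero, add_zero]
          push_cast
          module
  have h1 := hpow m
  rw [h] at h1
  have h2 : (m : ℚ) • (M - 1) = 0 := by
    have := h1.symm
    rwa [add_eq_left] at this
  rcases smul_eq_zero.1 h2 with h3 | h3
  · exact absurd h3 (Nat.cast_ne_zero.2 hm.ne')
  · exact sub_eq_zero.1 h3

/-- PROOF. The determinant is a rational root of unity, so `1` or `-1`.  Over `ℂ` the characteristic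
polynomial has two roots `z, z'` with `z ^ m = z' ^ m = 1`, trace `z + z'` and determinant `z z'`.  The
trace is a rational algebraic integer, hence an integer, of absolute value at most `2`.  If the
determinant is `-1` the roots are real or complex conjugate; conjugate roots have product `|z| ^ 2 = 1`,
so they are real, `1` and `-1`, and the trace is `0`.  If the determinant is `1` and the trace is `2` or
`-2` then `z = z' = ±1` and `(M ∓ 1) ^ 2 = 0` (Cayley-Hamilton), and `M ^ m = 1` gives
`M ∓ 1 = 0` (write `M = ±1 + N`, `N ^ 2 = 0`, `M ^ (2m) = 1 ± 2 m N`). -/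
theorem fin_order (M : Matrix (Fin 2) (Fin 2) ℚ) {m : ℕ} (hm : 0 < m) (h : M ^ m = 1) :
    (M.det = -1 ∧ M.trace = 0) ∨ (M.det = 1 ∧ (M = 1 ∨ M = -1 ∨ M.trace = -1 ∨ M.trace = 0 ∨
      M.trace = 1)) := by
  have h1 : |M.det| = 1 := by
    have h3 : |M.det| ^ m = 1 := by rw [← abs_pow, ← Matrix.det_pow, h, Matrix.det_one, abs_one]
    exact (pow_eq_one_iff_of_nonneg (abs_nonneg _) hm.ne').1 h3
  rcases eq_or_eq_neg_of_abs_eq h1 with hd | hd
  · right
    refine ⟨hd, ?_⟩
    obtain ⟨n, hn, h2, h3⟩ := matA_trace M hm h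
    have h4 : n = -2 ∨ n = -1 ∨ n = 0 ∨ n = 1 ∨ n = 2 := by omega
    rcases h4 with rfl | rfl | rfl | rfl | rfl
    · right; left
      have h5 : (-M) ^ (2 * m) = 1 := by
        rw [pow_mul, neg_sq, ← pow_mul, mul_comm, pow_mul, h, one_pow]
      have h6 : -M = 1 := by
        refine matA_unip (-M) (by omega) h5 ?_ ?_
        · rw [Matrix.det_neg, Fintype.card_fin, hd]
          norm_num
        · rw [Matrix.trace_neg, hn]
          norm_num
      rw [← h6, neg_neg]
    · right; right; left
      rw [hn]; norm_num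
    · right; right; right; left
      rw [hn]; norm_num
    · right; right; right; right
      rw [hn]; norm_num
    · left
      exact matA_unip M hm h hd (by rw [hn]; norm_num)
  · left
    refine ⟨hd, ?_⟩
    have h2 : (M * M) ^ m = 1 := by
      rw [← pow_two, ← pow_mul, mul_comm, pow_mul, h, one_pow]
    obtain ⟨n, hn, h3, h4⟩ := matA_trace (M * M) hm h2
    have h5 : (M * M).trace = M.trace * M.trace + 2 := by
      rw [Matrix.det_fin_two] at hd
      rw [Matrix.trace_fin_two, Matrix.trace_fin_two, Matrix.mul_apply, Matrix.mul_apply,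
        Fin.sum_univ_two, Fin.sum_univ_two]
      linear_combination -2 * hd
    have h6 : (n : ℚ) ≤ 2 := by exact_mod_cast h4
    rw [hn] at h5
    have h7 : M.trace * M.trace ≤ 0 := by linarith
    exact mul_self_eq_zero.1 (le_antisymm h7 (mul_self_nonneg _))

end Pool.MP43e44c.GU
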