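import Mathlib

/-!
An invariant of finite groups of rational two by two matrices.
-/

set_option autoImplicit false

open Finset

namespace Pool.MP43e44c.GU

/-- a positive definite sum has nonzero determinant -/
theorem matC_det {G : Type*} [Group G] [Fintype G] (R : G →* Matrix (Fin 2) (Fin 2) ℚ) :
    (∑ k, (R k).transpose * R k).det ≠ 0 := by
  intro h
  obtain ⟨v, hv, hv0⟩ := Matrix.exists_mulVec_eq_zero_iff.2 h
  have h1 : ∑ k, (R k).mulVec v ⬝ᵥ (R k).mulVec v = 0 := by
    have h2 : v ⬝ᵥ (∑ k, (R k).transpose * R k).mulVec v = 0 := by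
      rw [hv0, dotProduct_zero]
    rw [Matrix.sum_mulVec, dotProduct_sum] at h2
    rw [← h2]
    refine Finset.sum_congr rfl fun k _ => ?_
    rw [← Matrix.mulVec_mulVec, Matrix.dotProduct_mulVec v, Matrix.vecMul_transpose]
  have h3 : ∀ k ∈ (Finset.univ : Finset G), 0 ≤ (R k).mulVec v ⬝ᵥ (R k).mulVec v := by
    intro k _
    exact Finset.sum_nonneg fun i _ => mul_self_nonneg _
  have h4 := (Finset.sum_eq_zero_iff_of_nonneg h3).1 h1 1 (Finset.mem_univ _)
  rw [map_one, Matrix.one_mulVec] at h4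
  exact hv (dotProduct_self_eq_zero.1 h4)

theorem matC_inv {G : Type*} [Group G] [Fintype G] (R : G →* Matrix (Fin 2) (Fin 2) ℚ) (g : G) :
    (R g).transpose * (∑ k, (R k).transpose * R k) * R g = ∑ k, (R k).transpose * R k := by
  rw [Matrix.mul_sum, Matrix.sum_mul]
  have h1 : ∀ k, (R g).transpose * ((R k).transpose * R k) * R g
      = (R (k * g)).transpose * R (k * g) := by
    intro k
    rw [map_mul, Matrix.transpose_mul]
    simp only [Matrix.mul_assoc]
  rw [Finset.sum_congr rfl fun k _ => h1 k]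
  exact Fintype.sum_equiv (Equiv.mulRight g) _ _ fun k => rfl

theorem matC_symm {G : Type*} [Group G] [Fintype G] (R : G →* Matrix (Fin 2) (Fin 2) ℚ) :
    (∑ k, (R k).transpose * R k).transpose = ∑ k, (R k).transpose * R k := by
  rw [Matrix.transpose_sum]
  refine Finset.sum_congr rfl fun k _ => ?_
  rw [Matrix.transpose_mul, Matrix.transpose_transpose]

theorem matC_detg {G : Type*} [Group G] [Fintype G] (R : G →* Matrix (Fin 2) (Fin 2) ℚ) (g : G) :
    (R g).det * (R g).det = 1 := by
  have h1 : (R g).det ^ Fintype.card G = 1 := by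
    rw [← Matrix.det_pow, ← map_pow, pow_card_eq_one, map_one, Matrix.det_one]
  have h2 : |(R g).det| = 1 := by
    have h3 : |(R g).det| ^ Fintype.card G = 1 := by rw [← abs_pow, h1, abs_one]
    exact (pow_eq_one_iff_of_nonneg (abs_nonneg _) Fintype.card_ne_zero).1 h3
  rw [← abs_mul_abs_self, h2, mul_one]

/-- PROOF. `S = ∑ k, (R k)ᵀ * R k` is symmetric, positive definite (`S = 1 + ...`, so `det S ≠ 0`), and
`(R g)ᵀ * S * R g = S` (right translation of the sum).  Let `J = R h - R h⁻¹`; as `det (R h) = 1`,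
`R h⁻¹ = trace (R h) • 1 - R h`, so `J = 2 • R h - trace (R h) • 1`.  `(R h)ᵀ * S = S * R h⁻¹`, so `S * J` is
skew-symmetric, `S * J = s • E` with `E = !![0, 1; -1, 0]`, i.e. `J = s • S⁻¹ * E`.  For every matrix `A`,
`Aᵀ * E * A = det A • E`.  With `A = R g`: `A * S⁻¹ = S⁻¹ * (Aᵀ)⁻¹` and `E * A⁻¹ = (det A)⁻¹ • Aᵀ * E`, so
`A * J * A⁻¹ = s • A * S⁻¹ * E * A⁻¹ = s (det A)⁻¹ • S⁻¹ * (Aᵀ)⁻¹ * Aᵀ * E = (det A)⁻¹ • J`, and
`det A = ±1`. -/
theorem conj_J {G : Type*} [Group G] [Finite G] (R : G →* Matrix (Fin 2) (Fin 2) ℚ) (g h : G)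
    (hh : (R h).det = 1) :
    R g * ((2 : ℚ) • R h - (R h).trace • 1)
      = (R g).det • (((2 : ℚ) • R h - (R h).trace • 1) * R g) := by
  have := Fintype.ofFinite G
  have hS0 := matC_det R
  have hSg := matC_inv R g
  have hSh := matC_inv R h
  have hsym := matC_symm R
  have hdg := matC_detg R g
  generalize hS : (∑ k, (R k).transpose * R k) = S at hS0 hSg hSh hsym
  generalize R g = A at hSg hdg ⊢
  generalize R h = B at hSh hh ⊢
  -- the skew form
  have hadj : B * (B.trace • 1 - B) = 1 := by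
    ext i j
    rw [Matrix.det_fin_two] at hh
    fin_cases i <;> fin_cases j <;>
      simp [Matrix.mul_apply, Fin.sum_univ_two, Matrix.trace_fin_two, Matrix.one_apply] <;>
      first | ring1 | linear_combination hh
  have hBS : B.transpose * S = S * (B.trace • 1 - B) := by
    calc B.transpose * S = B.transpose * S * (B * (B.trace • 1 - B)) := by
          rw [hadj, Matrix.mul_one]
      _ = (B.transpose * S * B) * (B.trace • 1 - B) := by simp only [Matrix.mul_assoc]
      _ = _ := by rw [hSh]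
  have hskew : (S * ((2 : ℚ) • B - B.trace • 1)).transpose = -(S * ((2 : ℚ) • B - B.trace • 1)) := by
    rw [Matrix.transpose_mul, hsym, Matrix.transpose_sub, Matrix.transpose_smul,
      Matrix.transpose_smul, Matrix.transpose_one, Matrix.sub_mul, Matrix.smul_mul, hBS]
    rw [Matrix.smul_mul, Matrix.one_mul, Matrix.mul_sub, Matrix.mul_sub, Matrix.mul_smul,
      Matrix.mul_smul, Matrix.mul_one]
    module
  have hE : ∀ T : Matrix (Fin 2) (Fin 2) ℚ, T.transpose = -T →
      A.transpose * T * A = A.det • T := by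
    intro T hT
    have h00 : T 0 0 = - T 0 0 := congrFun (congrFun hT 0) 0
    have h11 : T 1 1 = - T 1 1 := congrFun (congrFun hT 1) 1
    have h01 : T 1 0 = - T 0 1 := congrFun (congrFun hT 0) 1
    have h00' : T 0 0 = 0 := by linarith
    have h11' : T 1 1 = 0 := by linarith
    ext i j
    fin_cases i <;> fin_cases j <;>
      simp [Matrix.mul_apply, Fin.sum_univ_two, Matrix.det_fin_two, h00', h11', h01] <;> ring
  have hunit : IsUnit (A.transpose * S) := by
    rw [Matrix.isUnit_iff_isUnit_det, Matrix.det_mul, Matrix.det_transpose, isUnit_iff_ne_zero]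
    refine mul_ne_zero ?_ hS0
    intro h0
    rw [h0, mul_zero] at hdg
    exact zero_ne_one hdg
  apply hunit.mul_left_cancel
  have e1 : A.transpose * S * (A * ((2 : ℚ) • B - B.trace • 1)) =
      S * ((2 : ℚ) • B - B.trace • 1) := by
    rw [← Matrix.mul_assoc, hSg]
  have e2 : A.transpose * S * (A.det • (((2 : ℚ) • B - B.trace • 1) * A)) =
      A.det • (A.transpose * (S * ((2 : ℚ) • B - B.trace • 1)) * A) := by
    rw [Matrix.mul_smul]
    simp only [Matrix.mul_assoc]
  rw [e1, e2, hE _ hskew, smul_smul, hdg, one_smul]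

end Pool.MP43e44c.GU
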