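import Mathlib

/-!
Matrices commuting with a matrix of order four or six.
-/

set_option autoImplicit false

open Finset

namespace Pool.MP43e44c.GU

/-- A matrix commuting with `C` (not scalar) is a combination of `1` and `C`. -/
theorem MatD_comb {t : ℤ} (ht : t = 0 ∨ t = 1) {A C : Matrix (Fin 2) (Fin 2) ℚ}
    (hC1 : C.det = 1) (hC2 : C.trace = t) (hAC : A * C = C * A) :
    ∃ α β : ℚ, A 0 0 = α + β * C 0 0 ∧ A 0 1 = β * C 0 1 ∧ A 1 0 = β * C 1 0 ∧
      A 1 1 = α + β * C 1 1 := by
  have e00 := congrFun (congrFun hAC 0) 0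
  have e01 := congrFun (congrFun hAC 0) 1
  have e10 := congrFun (congrFun hAC 1) 0
  have e11 := congrFun (congrFun hAC 1) 1
  simp only [Matrix.mul_apply, Fin.sum_univ_two] at e00 e01 e10 e11
  rw [Matrix.det_fin_two] at hC1
  rw [Matrix.trace_fin_two] at hC2
  by_cases hg : C 1 0 = 0
  · by_cases hf : C 0 1 = 0
    · exfalso
      rw [hf, zero_mul, sub_zero] at hC1
      have h1 : C 1 1 = t - C 0 0 := by linarith
      rw [h1] at hC1
      rcases ht with rfl | rfl
      · push_cast at hC1
        nlinarith [sq_nonneg (C 0 0)]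
      · push_cast at hC1
        nlinarith [sq_nonneg (2 * C 0 0 - 1)]
    · refine ⟨A 0 0 - A 0 1 / C 0 1 * C 0 0, A 0 1 / C 0 1, by ring, by field_simp, ?_, ?_⟩
      · rw [hg] at e00
        have h2 : C 0 1 * A 1 0 = 0 := by linarith
        rw [hg, mul_zero]
        exact (mul_eq_zero.mp h2).resolve_left hf
      · field_simp
        linarith
  · refine ⟨A 0 0 - A 1 0 / C 1 0 * C 0 0, A 1 0 / C 1 0, by ring, ?_, by field_simp, ?_⟩
    · field_simp
      linarith
    · field_simp
      linarith

theorem MatD_ext {A B : Matrix (Fin 2) (Fin 2) ℚ} (h00 : A 0 0 = B 0 0) (h01 : A 0 1 = B 0 1)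
    (h10 : A 1 0 = B 1 0) (h11 : A 1 1 = B 1 1) : A = B := by
  ext i j
  fin_cases i <;> fin_cases j <;> assumption

/-- PROOF. `A` commutes with the non-scalar matrix `C`, so `A = a + b C` with rational `a, b`.  The traces
`p = trace A = 2 a + t b` and `q = trace (A * C) = t a + (t ^ 2 - 2) b` are integers, and
`det A = a ^ 2 + t a b + b ^ 2 = 1`.  For `t = 0`: `p = 2 a`, `q = - 2 b`, `p ^ 2 + q ^ 2 = 4`, so `(a, b)` is
`(±1, 0)` or `(0, ±1)`.  For `t = 1`: `a = (p + q) / 3`, `b = (p - 2 q) / 3`, `p ^ 2 - p q + q ^ 2 = 3`, so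
`(p, q) = ±(2, 1), ±(1, 2), ±(1, -1)` and `(a, b) = ±(1, 0), ±(1, -1), ±(0, 1)`. -/
theorem comm_cases {t : ℤ} (ht : t = 0 ∨ t = 1) {A C : Matrix (Fin 2) (Fin 2) ℚ}
    (hC1 : C.det = 1) (hC2 : C.trace = t) (hA : A.det = 1) (hAC : A * C = C * A)
    {p q : ℤ} (hp : A.trace = p) (hq : (A * C).trace = q) :
    A = 1 ∨ A = -1 ∨ A = C ∨ A = -C ∨ (t = 1 ∧ (A = 1 - C ∨ A = C - 1)) := by
  obtain ⟨α, β, h00, h01, h10, h11⟩ := MatD_comb ht hC1 hC2 hAC
  rw [Matrix.det_fin_two] at hC1 hA
  rw [Matrix.trace_fin_two] at hC2 hp hq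
  simp only [Matrix.mul_apply, Fin.sum_univ_two] at hq
  rw [h00, h01, h10, h11] at hA hq
  rw [h00, h11] at hp
  have hp' : 2 * α + t * β = p := by
    rw [← hC2, ← hp]
    ring
  have hq' : t * α + (t ^ 2 - 2) * β = q := by
    rw [← hq, ← hC2]
    linear_combination (2 * β) * hC1
  have hd : α ^ 2 + t * α * β + β ^ 2 = 1 := by
    rw [← hA, ← hC2]
    linear_combination (-β ^ 2) * hC1
  rcases ht with rfl | rfl
  · push_cast at hp' hq' hd
    have h1 : (p : ℚ) ^ 2 + (q : ℚ) ^ 2 = 4 := by
      rw [← hp', ← hq']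
      linear_combination 4 * hd
    have h2 : p ^ 2 + q ^ 2 = 4 := by exact_mod_cast h1
    have hpb1 : p ≤ 2 := by nlinarith [sq_nonneg q]
    have hpb2 : -2 ≤ p := by nlinarith [sq_nonneg q]
    have hqb1 : q ≤ 2 := by nlinarith [sq_nonneg p]
    have hqb2 : -2 ≤ q := by nlinarith [sq_nonneg p]
    have h3 : (p = 2 ∧ q = 0) ∨ (p = -2 ∧ q = 0) ∨ (p = 0 ∧ q = 2) ∨ (p = 0 ∧ q = -2) := by
      interval_cases p <;> interval_cases q <;> omega
    rcases h3 with ⟨rfl, rfl⟩ | ⟨rfl, rfl⟩ | ⟨rfl, rfl⟩ | ⟨rfl, rfl⟩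
    · push_cast at hp' hq'
      have ha : α = 1 := by linarith
      have hb : β = 0 := by linarith
      left
      subst ha hb
      exact MatD_ext (by simp [h00]) (by simp [h01]) (by simp [h10]) (by simp [h11])
    · push_cast at hp' hq'
      have ha : α = -1 := by linarith
      have hb : β = 0 := by linarith
      right; left
      subst ha hb
      exact MatD_ext (by simp [h00]) (by simp [h01]) (by simp [h10]) (by simp [h11])
    · push_cast at hp' hq'
      have ha : α = 0 := by linarith
      have hb : β = -1 := by linarith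
      right; right; right; left
      subst ha hb
      exact MatD_ext (by simp [h00]) (by simp [h01]) (by simp [h10]) (by simp [h11])
    · push_cast at hp' hq'
      have ha : α = 0 := by linarith
      have hb : β = 1 := by linarith
      right; right; left
      subst ha hb
      exact MatD_ext (by simp [h00]) (by simp [h01]) (by simp [h10]) (by simp [h11])
  · push_cast at hp' hq' hd
    have h1 : (p : ℚ) ^ 2 - p * q + (q : ℚ) ^ 2 = 3 := by
      rw [← hp', ← hq']
      linear_combination 3 * hd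
    have h2 : p ^ 2 - p * q + q ^ 2 = 3 := by exact_mod_cast h1
    have hpb1 : p ≤ 2 := by nlinarith [sq_nonneg (2 * q - p)]
    have hpb2 : -2 ≤ p := by nlinarith [sq_nonneg (2 * q - p)]
    have hqb1 : q ≤ 2 := by nlinarith [sq_nonneg (2 * p - q)]
    have hqb2 : -2 ≤ q := by nlinarith [sq_nonneg (2 * p - q)]
    have h3 : (p = 2 ∧ q = 1) ∨ (p = -2 ∧ q = -1) ∨ (p = 1 ∧ q = 2) ∨ (p = -1 ∧ q = -2) ∨
        (p = 1 ∧ q = -1) ∨ (p = -1 ∧ q = 1) := by
      interval_cases p <;> interval_cases q <;> omega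
    rcases h3 with ⟨rfl, rfl⟩ | ⟨rfl, rfl⟩ | ⟨rfl, rfl⟩ | ⟨rfl, rfl⟩ | ⟨rfl, rfl⟩ | ⟨rfl, rfl⟩
    · push_cast at hp' hq'
      have ha : α = 1 := by linarith
      have hb : β = 0 := by linarith
      left
      subst ha hb
      exact MatD_ext (by simp [h00]) (by simp [h01]) (by simp [h10]) (by simp [h11])
    · push_cast at hp' hq'
      have ha : α = -1 := by linarith
      have hb : β = 0 := by linarith
      right; left
      subst ha hb
      exact MatD_ext (by simp [h00]) (by simp [h01]) (by simp [h10]) (by simp [h11])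
    · push_cast at hp' hq'
      have ha : α = 1 := by linarith
      have hb : β = -1 := by linarith
      right; right; right; right
      refine ⟨rfl, Or.inl ?_⟩
      subst ha hb
      exact MatD_ext (by simp [h00, sub_eq_add_neg]) (by simp [h01]) (by simp [h10])
        (by simp [h11, sub_eq_add_neg])
    · push_cast at hp' hq'
      have ha : α = -1 := by linarith
      have hb : β = 1 := by linarith
      right; right; right; right
      refine ⟨rfl, Or.inr ?_⟩
      subst ha hb
      exact MatD_ext (by simp [h00, sub_eq_add_neg, add_comm]) (by simp [h01]) (by simp [h10])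
        (by simp [h11, sub_eq_add_neg, add_comm])
    · push_cast at hp' hq'
      have ha : α = 0 := by linarith
      have hb : β = 1 := by linarith
      right; right; left
      subst ha hb
      exact MatD_ext (by simp [h00]) (by simp [h01]) (by simp [h10]) (by simp [h11])
    · push_cast at hp' hq'
      have ha : α = 0 := by linarith
      have hb : β = -1 := by linarith
      right; right; right; left
      subst ha hb
      exact MatD_ext (by simp [h00]) (by simp [h01]) (by simp [h10]) (by simp [h11])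

end Pool.MP43e44c.GU
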