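import Pool.Agent.H.MP_43e44c_ag.GU.MatE
import Pool.Agent.H.MP_43e44c_ag.GU.MatC
import Pool.Agent.H.MP_43e44c_ag.GU.MatD
import Pool.Agent.H.MP_43e44c_ag.GL.Half

/-!
Finite groups of rational two by two matrices which contain `-1` and have no invariant line.
-/

set_option autoImplicit false

open Finset

namespace Pool.MP43e44c.GU

open Pool.MP43e44c.GL

/-- The rational matrix of an integral matrix. -/
def toQ2 (s : M2) : Matrix (Fin 2) (Fin 2) ℚ := s.map (fun x : ℤ => (x : ℚ))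

theorem matB_mul (a b : M2) : toQ2 (a * b) = toQ2 a * toQ2 b := by
  ext i j
  simp [toQ2, Matrix.mul_apply, Fin.sum_univ_two]

theorem matB_neg (a : M2) : toQ2 (-a) = -toQ2 a := by
  ext i j
  simp [toQ2]

theorem matB_one : toQ2 1 = 1 := by
  ext i j
  fin_cases i <;> fin_cases j <;> simp [toQ2]

theorem matB_inj {a b : M2} (h : toQ2 a = toQ2 b) : a = b := by
  ext i j
  have h1 := congrFun (congrFun h i) j
  simp only [toQ2, Matrix.map_apply] at h1
  exact_mod_cast h1

theorem matB_build {G : Type*} [Group G] (R : G →* Matrix (Fin 2) (Fin 2) ℚ) {c : G}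
    (hc : R c = -1) {P : Matrix (Fin 2) (Fin 2) ℚ} (hP : IsUnit P.det) {k : Fin 5} (hk : k ≠ 0)
    (h1 : ∀ g, ∃ σ ∈ full k, P * R g = toQ2 σ * P)
    (h2 : ∀ σ ∈ full k, ∃ g, P * R g = toQ2 σ * P) :
    ∃ (k : Fin 5) (ρ : G →* M2) (P : Matrix (Fin 2) (Fin 2) ℚ), k ≠ 0 ∧ Typ c k ρ ∧
      IsUnit P.det ∧ ∀ g, P * R g = toQ2 (ρ g) * P := by
  have hPu : IsUnit P := (Matrix.isUnit_iff_isUnit_det P).2 hP
  have huniq : ∀ σ σ' : M2, toQ2 σ * P = toQ2 σ' * P → σ = σ' := by
    intro σ σ' h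
    exact matB_inj (hPu.mul_left_inj.1 h)
  choose f hf1 hf2 using h1
  let ρ : G →* M2 :=
    { toFun := f
      map_one' := by
        apply huniq
        rw [← hf2, map_one, matB_one, mul_one, one_mul]
      map_mul' := by
        intro a b
        apply huniq
        rw [← hf2, map_mul, matB_mul, mul_assoc, ← hf2, ← mul_assoc, ← mul_assoc, hf2] }
  refine ⟨k, ρ, P, hk, ⟨?_, hf1, ?_⟩, hP, hf2⟩
  · apply huniq
    change toQ2 (f c) * P = _
    rw [← hf2, hc, matB_neg, matB_one]
    simp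
  · intro σ hσ
    obtain ⟨g, hg⟩ := h2 σ hσ
    refine ⟨g, huniq _ _ ?_⟩
    change toQ2 (f g) * P = _
    rw [← hf2, hg]

/-- The change of basis. -/
def matBP (C : Matrix (Fin 2) (Fin 2) ℚ) (t : ℤ) (v : Fin 2 → ℚ) : Matrix (Fin 2) (Fin 2) ℚ :=
  !![C 0 0 * v 0 + C 1 0 * v 1 - t * v 0, C 0 1 * v 0 + C 1 1 * v 1 - t * v 1; v 0, v 1]

theorem matBP_det {t : ℤ} (ht : t = 0 ∨ t = 1) {C : Matrix (Fin 2) (Fin 2) ℚ} (hC1 : C.det = 1)
    (hC2 : C.trace = t) {v : Fin 2 → ℚ} (hv : v ≠ 0) : IsUnit (matBP C t v).det := by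
  rw [isUnit_iff_ne_zero]
  intro h0
  rw [Matrix.det_fin_two] at hC1
  rw [Matrix.trace_fin_two] at hC2
  rw [matBP, Matrix.det_fin_two_of] at h0
  obtain ⟨a, ha⟩ : ∃ a, a = C 0 0 := ⟨_, rfl⟩
  obtain ⟨b, hb⟩ : ∃ b, b = C 0 1 := ⟨_, rfl⟩
  obtain ⟨c, hc⟩ : ∃ c, c = C 1 0 := ⟨_, rfl⟩
  obtain ⟨d, hd⟩ : ∃ d, d = C 1 1 := ⟨_, rfl⟩
  rw [← ha, ← hb, ← hc, ← hd] at hC1 h0
  rw [← ha, ← hd] at hC2
  have ht2 : 0 < 4 - (t : ℚ) ^ 2 := by
    rcases ht with rfl | rfl <;> norm_num
  have hQ : c * v 1 ^ 2 + (a - d) * v 0 * v 1 - b * v 0 ^ 2 = 0 := by linear_combination h0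
  have h4 : (2 * c * v 1 + (a - d) * v 0) ^ 2 + (4 - (t : ℚ) ^ 2) * v 0 ^ 2 = 0 := by
    have e : (t : ℚ) ^ 2 = (a + d) ^ 2 := by rw [hC2]
    rw [e]
    linear_combination (4 * c) * hQ - (4 * v 0 ^ 2) * hC1
  have h5 : v 0 = 0 := by
    by_contra hne
    have h6 : 0 < v 0 ^ 2 := by positivity
    have h7 := mul_pos ht2 h6
    have h8 := sq_nonneg (2 * c * v 1 + (a - d) * v 0)
    linarith
  have hc0 : c ≠ 0 := by
    intro hc0
    rw [hc0] at hC1
    have e : (t : ℚ) ^ 2 = (a + d) ^ 2 := by rw [hC2]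
    have h9 := sq_nonneg (a - d)
    nlinarith
  have h10 : v 1 = 0 := by
    rw [h5] at hQ
    have h11 : c * v 1 ^ 2 = 0 := by linear_combination hQ
    rcases mul_eq_zero.1 h11 with h | h
    · exact absurd h hc0
    · exact pow_eq_zero_iff (two_ne_zero) |>.1 h
  apply hv
  funext i
  fin_cases i
  · exact h5
  · exact h10

theorem matBP_rot {t : ℤ} {C : Matrix (Fin 2) (Fin 2) ℚ} (hC1 : C.det = 1)
    (hC2 : C.trace = t) (v : Fin 2 → ℚ) : matBP C t v * C = toQ2 (rot t) * matBP C t v := by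
  rw [Matrix.det_fin_two] at hC1
  rw [Matrix.trace_fin_two] at hC2
  ext i j
  fin_cases i <;> fin_cases j
  · simp [matBP, toQ2, rot, Matrix.mul_apply, Fin.sum_univ_two]
    linear_combination (C 0 0 * v 0 + C 1 0 * v 1) * hC2 - v 0 * hC1
  · simp [matBP, toQ2, rot, Matrix.mul_apply, Fin.sum_univ_two]
    linear_combination (C 0 1 * v 0 + C 1 1 * v 1) * hC2 - v 1 * hC1
  · simp [matBP, toQ2, rot, Matrix.mul_apply, Fin.sum_univ_two]
    ring
  · simp [matBP, toQ2, rot, Matrix.mul_apply, Fin.sum_univ_two]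
    ring

theorem matBP_ref {t : ℤ} {C s : Matrix (Fin 2) (Fin 2) ℚ} (h : C * s = (t : ℚ) • s - s * C)
    {v : Fin 2 → ℚ} (hv : Matrix.vecMul v s = -v) :
    matBP C t v * s = toQ2 (ref t) * matBP C t v := by
  have m00 := congrFun (congrFun h 0) 0
  have m01 := congrFun (congrFun h 0) 1
  have m10 := congrFun (congrFun h 1) 0
  have m11 := congrFun (congrFun h 1) 1
  have e3 := congrFun hv 0
  have e4 := congrFun hv 1
  simp [Matrix.mul_apply, Fin.sum_univ_two] at m00 m01 m10 m11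
  simp [Matrix.vecMul, dotProduct, Fin.sum_univ_two] at e3 e4
  ext i j
  fin_cases i <;> fin_cases j
  · simp [matBP, toQ2, ref, Matrix.mul_apply, Fin.sum_univ_two]
    linear_combination v 0 * m00 + v 1 * m10 - C 0 0 * e3 - C 1 0 * e4
  · simp [matBP, toQ2, ref, Matrix.mul_apply, Fin.sum_univ_two]
    linear_combination v 0 * m01 + v 1 * m11 - C 0 1 * e3 - C 1 1 * e4
  · simp [matBP, toQ2, ref, Matrix.mul_apply, Fin.sum_univ_two]
    linear_combination e3
  · simp [matBP, toQ2, ref, Matrix.mul_apply, Fin.sum_univ_two]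
    linear_combination e4

theorem matB_tr {M : Matrix (Fin 2) (Fin 2) ℚ} {m : ℕ} (hm : 0 < m) (h : M ^ m = 1) :
    ∃ p : ℤ, M.trace = p := by
  rcases fin_order M hm h with ⟨-, h1⟩ | ⟨-, h1 | h1 | h1 | h1 | h1⟩
  · exact ⟨0, by rw [h1]; norm_num⟩
  · exact ⟨2, by rw [h1]; simp⟩
  · exact ⟨-2, by rw [h1]; simp⟩
  · exact ⟨-1, by rw [h1]; norm_num⟩
  · exact ⟨0, by rw [h1]; norm_num⟩
  · exact ⟨1, by rw [h1]; norm_num⟩

theorem matB_ch {t : ℤ} {C : Matrix (Fin 2) (Fin 2) ℚ} (hC1 : C.det = 1)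
    (hC2 : C.trace = t) : C * C = (t : ℚ) • C - 1 := by
  rw [Matrix.det_fin_two] at hC1
  rw [Matrix.trace_fin_two] at hC2
  ext i j
  fin_cases i <;> fin_cases j <;> simp [Matrix.mul_apply, Fin.sum_univ_two]
  · linear_combination C 0 0 * hC2 - hC1
  · linear_combination C 0 1 * hC2
  · linear_combination C 1 0 * hC2
  · linear_combination C 1 1 * hC2 - hC1

/-- PROOF. Let `C = R h` be as in `exists_rot`; `C ^ 2 = t C - 1`.  Every `A = R g` with determinant `1`
commutes with `C` (`conj_J`), its trace and the trace of `A * C` are integers (`fin_order`), so by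
`comm_cases` it is one of the matrices `±1, ±C` (and `±(C - 1) = ±C ^ 2` if `t = 1`).

Case 1: all determinants are `1`.  Take any `v ≠ 0` and let `P` be the matrix with the rows
`v C - t v` and `v`; they are linearly independent, since `C` has no rational eigenvector
(`X ^ 2 - t X + 1` has no rational root).  Then `P * C = rot t * P`, and `ρ g` is the corresponding element
of `full 1` (`t = 0`) or `full 2` (`t = 1`); `rot 1 * rot 1 = rot 1 - 1`.

Case 2: there is `s = R g₀` with determinant `-1`; `s ^ 2 = 1`, trace `0`.  `s * C = C⁻¹ * s`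
(`conj_J`, or: `s * C` also has determinant `-1` and square `1`).  Take `v ≠ 0` with `v s = - v` and the same
`P`.  Then `P * C = rot t * P` and `P * s = ref t * P` (`v C s = v s C⁻¹ = - v (t - C)`).  Every `A = R g` of
determinant `-1` is `s` times an element of determinant `1`.  So `ρ g` is the corresponding element of
`full 3` or `full 4`.

`ρ` is a homomorphism since `toQ2` is injective and multiplicative and `P` is invertible.  It is
surjective onto `full k`: `±1, ±C, ±s, ±s C, …` are all of the form `R g` (`R c = -1`). -/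
theorem cls_mat {G : Type*} [Group G] [Finite G] (R : G →* Matrix (Fin 2) (Fin 2) ℚ) {c : G}
    (hc : R c = -1)
    (hirr : ∀ v : Fin 2 → ℚ, v ≠ 0 → ∃ g, ∀ a : ℚ, Matrix.vecMul v (R g) ≠ a • v) :
    ∃ (k : Fin 5) (ρ : G →* M2) (P : Matrix (Fin 2) (Fin 2) ℚ), k ≠ 0 ∧ Typ c k ρ ∧
      IsUnit P.det ∧ ∀ g, P * R g = toQ2 (ρ g) * P := by
  classical
  obtain ⟨h, t, ht, hC1, hC2⟩ := exists_rot R hc hirr
  have hm : 0 < Nat.card G := Nat.card_pos
  have hpow : ∀ g, R g ^ Nat.card G = 1 := fun g => by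
    rw [← map_pow, pow_card_eq_one', map_one]
  have hCC := matB_ch hC1 hC2
  -- elements of determinant one
  have hone : ∀ g, (R g).det = 1 → R g = 1 ∨ R g = -1 ∨ R g = R h ∨ R g = -R h ∨
      (t = 1 ∧ (R g = 1 - R h ∨ R g = R h - 1)) := by
    intro g hg
    obtain ⟨p, hp⟩ := matB_tr hm (hpow g)
    obtain ⟨q, hq⟩ := matB_tr hm (hpow (g * h))
    rw [map_mul] at hq
    have h1 := conj_J R g h hC1
    rw [hg, one_smul, mul_sub, sub_mul, Matrix.mul_smul, Matrix.mul_smul, Matrix.smul_mul,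
      Matrix.smul_mul, mul_one, one_mul, sub_left_inj] at h1
    have h2 : R g * R h = R h * R g := smul_right_injective _ (two_ne_zero (α := ℚ)) h1
    exact comm_cases ht hC1 hC2 hg h2 hp hq
  by_cases hall : ∀ g, (R g).det = 1
  · -- only rotations
    have hv : (![1, 0] : Fin 2 → ℚ) ≠ 0 := by
      intro h0
      have := congrFun h0 0
      simp at this
    obtain ⟨P, hP⟩ : ∃ P, P = matBP (R h) t ![1, 0] := ⟨_, rfl⟩
    have hdet : IsUnit P.det := by rw [hP]; exact matBP_det ht hC1 hC2 hv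
    have hrot : P * R h = toQ2 (rot t) * P := by rw [hP]; exact matBP_rot hC1 hC2 _
    have hT1 : P * 1 = toQ2 1 * P := by rw [matB_one, mul_one, one_mul]
    have hTn : ∀ {σ : M2} {A : Matrix (Fin 2) (Fin 2) ℚ}, P * A = toQ2 σ * P →
        P * -A = toQ2 (-σ) * P := by
      intro σ A hA
      rw [matB_neg, mul_neg, neg_mul, hA]
    have hTm : ∀ {σ σ' : M2} {A A' : Matrix (Fin 2) (Fin 2) ℚ}, P * A = toQ2 σ * P →
        P * A' = toQ2 σ' * P → P * (A * A') = toQ2 (σ * σ') * P := by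
      intro σ σ' A A' hA hA'
      rw [matB_mul, ← mul_assoc, hA, mul_assoc, hA', mul_assoc]
    have hSn : ∀ {σ : M2}, (∃ g, P * R g = toQ2 σ * P) → ∃ g, P * R g = toQ2 (-σ) * P := by
      rintro σ ⟨g, hg⟩
      refine ⟨c * g, ?_⟩
      rw [map_mul, hc, neg_one_mul]
      exact hTn hg
    have hS1 : ∃ g, P * R g = toQ2 1 * P := ⟨1, by rw [map_one]; exact hT1⟩
    have hSr : ∃ g, P * R g = toQ2 (rot t) * P := ⟨h, hrot⟩
    rcases ht with rfl | rfl
    · refine matB_build R hc hdet (k := 1) (by decide) ?_ ?_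
      · intro g
        rcases hone g (hall g) with h1 | h1 | h1 | h1 | ⟨h1, -⟩
        · exact ⟨1, by decide, by rw [h1]; exact hT1⟩
        · exact ⟨-1, by decide, by rw [h1]; exact hTn hT1⟩
        · exact ⟨rot 0, by decide, by rw [h1]; exact hrot⟩
        · exact ⟨-rot 0, by decide, by rw [h1]; exact hTn hrot⟩
        · exact absurd h1 (by decide)
      · have hfull : ∀ σ ∈ full 1, σ = 1 ∨ σ = -1 ∨ σ = rot 0 ∨ σ = -rot 0 := by decide
        intro σ hσ
        rcases hfull σ hσ with rfl | rfl | rfl | rfl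
        · exact hS1
        · exact hSn hS1
        · exact hSr
        · exact hSn hSr
    · have hCC' : R h * R h = R h - 1 := by rw [hCC]; simp
      refine matB_build R hc hdet (k := 2) (by decide) ?_ ?_
      · intro g
        rcases hone g (hall g) with h1 | h1 | h1 | h1 | ⟨-, h1 | h1⟩
        · exact ⟨1, by decide, by rw [h1]; exact hT1⟩
        · exact ⟨-1, by decide, by rw [h1]; exact hTn hT1⟩
        · exact ⟨rot 1, by decide, by rw [h1]; exact hrot⟩
        · exact ⟨-rot 1, by decide, by rw [h1]; exact hTn hrot⟩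
        · refine ⟨-(rot 1 * rot 1), by decide, ?_⟩
          have e : R g = -(R h * R h) := by rw [hCC', h1]; simp
          rw [e]
          exact hTn (hTm hrot hrot)
        · refine ⟨rot 1 * rot 1, by decide, ?_⟩
          rw [h1, ← hCC']
          exact hTm hrot hrot
      · have hfull : ∀ σ ∈ full 2, σ = 1 ∨ σ = -1 ∨ σ = rot 1 ∨ σ = -rot 1 ∨
            σ = rot 1 * rot 1 ∨ σ = -(rot 1 * rot 1) := by decide
        have hSrr : ∃ g, P * R g = toQ2 (rot 1 * rot 1) * P :=
          ⟨h * h, by rw [map_mul]; exact hTm hrot hrot⟩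
        intro σ hσ
        rcases hfull σ hσ with rfl | rfl | rfl | rfl | rfl | rfl
        · exact hS1
        · exact hSn hS1
        · exact hSr
        · exact hSn hSr
        · exact hSrr
        · exact hSn hSrr
  · -- with reflections
    push Not at hall
    obtain ⟨g₀, hg₀⟩ := hall
    have hs : (R g₀).det = -1 ∧ (R g₀).trace = 0 := by
      rcases fin_order (R g₀) hm (hpow g₀) with h1 | ⟨h1, -⟩
      · exact h1
      · exact absurd h1 hg₀
    obtain ⟨hs1, hs2⟩ := hs
    have hss : R g₀ * R g₀ = 1 := by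
      rw [Matrix.det_fin_two] at hs1
      rw [Matrix.trace_fin_two] at hs2
      ext i j
      fin_cases i <;> fin_cases j <;> simp [Matrix.mul_apply, Fin.sum_univ_two]
      · linear_combination R g₀ 0 0 * hs2 - hs1
      · linear_combination R g₀ 0 1 * hs2
      · linear_combination R g₀ 1 0 * hs2
      · linear_combination R g₀ 1 1 * hs2 - hs1
    have hCs : R h * R g₀ = (t : ℚ) • R g₀ - R g₀ * R h := by
      have h1 := conj_J R g₀ h hC1
      rw [hs1, hC2, neg_one_smul, mul_sub, sub_mul, Matrix.mul_smul, Matrix.mul_smul,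
        Matrix.smul_mul, Matrix.smul_mul, mul_one, one_mul] at h1
      have h2 : (2 : ℚ) • (R h * R g₀) = (2 : ℚ) • ((t : ℚ) • R g₀ - R g₀ * R h) := by
        rw [smul_sub, smul_smul]
        ext i j
        have h3 := congrFun (congrFun h1 i) j
        simp only [Matrix.sub_apply, Matrix.neg_apply, Matrix.smul_apply, smul_eq_mul] at h3 ⊢
        linear_combination h3
      exact smul_right_injective _ (two_ne_zero (α := ℚ)) h2
    obtain ⟨v, hv0, hvs⟩ : ∃ v : Fin 2 → ℚ, v ≠ 0 ∧ Matrix.vecMul v (R g₀) = -v := by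
      by_contra hcon
      push Not at hcon
      have h1 : ∀ w : Fin 2 → ℚ, Matrix.vecMul w (R g₀ - 1) = 0 := by
        intro w
        by_contra hw
        apply hcon _ hw
        rw [Matrix.vecMul_vecMul, sub_mul, hss, one_mul, ← neg_sub, Matrix.vecMul_neg]
      have h2 : R g₀ - 1 = 0 := by
        ext i j
        have h3 := congrFun (h1 (Pi.single i 1)) j
        rw [Matrix.single_one_vecMul] at h3
        exact h3
      rw [sub_eq_zero] at h2
      rw [h2] at hs1
      simp at hs1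
      norm_num at hs1
    obtain ⟨P, hP⟩ : ∃ P, P = matBP (R h) t v := ⟨_, rfl⟩
    have hdet : IsUnit P.det := by rw [hP]; exact matBP_det ht hC1 hC2 hv0
    have hrot : P * R h = toQ2 (rot t) * P := by rw [hP]; exact matBP_rot hC1 hC2 _
    have href : P * R g₀ = toQ2 (ref t) * P := by rw [hP]; exact matBP_ref hCs hvs
    have hT1 : P * 1 = toQ2 1 * P := by rw [matB_one, mul_one, one_mul]
    have hTn : ∀ {σ : M2} {A : Matrix (Fin 2) (Fin 2) ℚ}, P * A = toQ2 σ * P →
        P * -A = toQ2 (-σ) * P := by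
      intro σ A hA
      rw [matB_neg, mul_neg, neg_mul, hA]
    have hTm : ∀ {σ σ' : M2} {A A' : Matrix (Fin 2) (Fin 2) ℚ}, P * A = toQ2 σ * P →
        P * A' = toQ2 σ' * P → P * (A * A') = toQ2 (σ * σ') * P := by
      intro σ σ' A A' hA hA'
      rw [matB_mul, ← mul_assoc, hA, mul_assoc, hA', mul_assoc]
    have hSn : ∀ {σ : M2}, (∃ g, P * R g = toQ2 σ * P) → ∃ g, P * R g = toQ2 (-σ) * P := by
      rintro σ ⟨g, hg⟩
      refine ⟨c * g, ?_⟩
      rw [map_mul, hc, neg_one_mul]
      exact hTn hg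
    have hSm : ∀ {σ σ' : M2}, (∃ g, P * R g = toQ2 σ * P) → (∃ g, P * R g = toQ2 σ' * P) →
        ∃ g, P * R g = toQ2 (σ * σ') * P := by
      rintro σ σ' ⟨g, hg⟩ ⟨g', hg'⟩
      exact ⟨g * g', by rw [map_mul]; exact hTm hg hg'⟩
    have hS1 : ∃ g, P * R g = toQ2 1 * P := ⟨1, by rw [map_one]; exact hT1⟩
    have hSr : ∃ g, P * R g = toQ2 (rot t) * P := ⟨h, hrot⟩
    have hSs : ∃ g, P * R g = toQ2 (ref t) * P := ⟨g₀, href⟩
    have hred : ∀ g, (R g).det ≠ 1 → (R (g₀ * g)).det = 1 ∧ R g = R g₀ * R (g₀ * g) := by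
      intro g hg
      have h1 : (R g).det = -1 := by
        rcases fin_order (R g) hm (hpow g) with h1 | ⟨h1, -⟩
        · exact h1.1
        · exact absurd h1 hg
      constructor
      · rw [map_mul, Matrix.det_mul, hs1, h1]
        norm_num
      · rw [map_mul, ← mul_assoc, hss, one_mul]
    rcases ht with rfl | rfl
    · refine matB_build R hc hdet (k := 3) (by decide) ?_ ?_
      · intro g
        by_cases hg : (R g).det = 1
        · rcases hone g hg with h1 | h1 | h1 | h1 | ⟨h1, -⟩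
          · exact ⟨1, by decide, by rw [h1]; exact hT1⟩
          · exact ⟨-1, by decide, by rw [h1]; exact hTn hT1⟩
          · exact ⟨rot 0, by decide, by rw [h1]; exact hrot⟩
          · exact ⟨-rot 0, by decide, by rw [h1]; exact hTn hrot⟩
          · exact absurd h1 (by decide)
        · obtain ⟨hg1, hg2⟩ := hred g hg
          rcases hone _ hg1 with h1 | h1 | h1 | h1 | ⟨h1, -⟩
          · exact ⟨ref 0 * 1, by decide, by rw [hg2, h1]; exact hTm href hT1⟩
          · exact ⟨ref 0 * -1, by decide, by rw [hg2, h1]; exact hTm href (hTn hT1)⟩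
          · exact ⟨ref 0 * rot 0, by decide, by rw [hg2, h1]; exact hTm href hrot⟩
          · exact ⟨ref 0 * -rot 0, by decide, by rw [hg2, h1]; exact hTm href (hTn hrot)⟩
          · exact absurd h1 (by decide)
      · have hfull : ∀ σ ∈ full 3, σ = 1 ∨ σ = -1 ∨ σ = rot 0 ∨ σ = -rot 0 ∨
            σ = ref 0 ∨ σ = -ref 0 ∨ σ = ref 0 * rot 0 ∨ σ = -(ref 0 * rot 0) := by decide
        intro σ hσ
        rcases hfull σ hσ with rfl | rfl | rfl | rfl | rfl | rfl | rfl | rfl
        · exact hS1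
        · exact hSn hS1
        · exact hSr
        · exact hSn hSr
        · exact hSs
        · exact hSn hSs
        · exact hSm hSs hSr
        · exact hSn (hSm hSs hSr)
    · have hCC' : R h * R h = R h - 1 := by rw [hCC]; simp
      have hneg : ∀ A : Matrix (Fin 2) (Fin 2) ℚ, A = 1 - R h → A = -(R h * R h) := by
        intro A hA
        rw [hCC', hA]
        simp
      have hpos : ∀ A : Matrix (Fin 2) (Fin 2) ℚ, A = R h - 1 → A = R h * R h := by
        intro A hA
        rw [hCC', hA]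
      refine matB_build R hc hdet (k := 4) (by decide) ?_ ?_
      · intro g
        by_cases hg : (R g).det = 1
        · rcases hone g hg with h1 | h1 | h1 | h1 | ⟨-, h1 | h1⟩
          · exact ⟨1, by decide, by rw [h1]; exact hT1⟩
          · exact ⟨-1, by decide, by rw [h1]; exact hTn hT1⟩
          · exact ⟨rot 1, by decide, by rw [h1]; exact hrot⟩
          · exact ⟨-rot 1, by decide, by rw [h1]; exact hTn hrot⟩
          · exact ⟨-(rot 1 * rot 1), by decide, by rw [hneg _ h1]; exact hTn (hTm hrot hrot)⟩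
          · exact ⟨rot 1 * rot 1, by decide, by rw [hpos _ h1]; exact hTm hrot hrot⟩
        · obtain ⟨hg1, hg2⟩ := hred g hg
          rcases hone _ hg1 with h1 | h1 | h1 | h1 | ⟨-, h1 | h1⟩
          · exact ⟨ref 1 * 1, by decide, by rw [hg2, h1]; exact hTm href hT1⟩
          · exact ⟨ref 1 * -1, by decide, by rw [hg2, h1]; exact hTm href (hTn hT1)⟩
          · exact ⟨ref 1 * rot 1, by decide, by rw [hg2, h1]; exact hTm href hrot⟩
          · exact ⟨ref 1 * -rot 1, by decide, by rw [hg2, h1]; exact hTm href (hTn hrot)⟩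
          · exact ⟨ref 1 * -(rot 1 * rot 1), by decide, by
              rw [hg2, hneg _ h1]; exact hTm href (hTn (hTm hrot hrot))⟩
          · exact ⟨ref 1 * (rot 1 * rot 1), by decide, by
              rw [hg2, hpos _ h1]; exact hTm href (hTm hrot hrot)⟩
      · have hfull : ∀ σ ∈ full 4, σ = 1 ∨ σ = -1 ∨ σ = rot 1 ∨ σ = -rot 1 ∨
            σ = rot 1 * rot 1 ∨ σ = -(rot 1 * rot 1) ∨ σ = ref 1 ∨ σ = -ref 1 ∨
            σ = ref 1 * rot 1 ∨ σ = -(ref 1 * rot 1) ∨ σ = ref 1 * (rot 1 * rot 1) ∨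
            σ = -(ref 1 * (rot 1 * rot 1)) := by decide
        intro σ hσ
        rcases hfull σ hσ with rfl | rfl | rfl | rfl | rfl | rfl | rfl | rfl | rfl | rfl | rfl | rfl
        · exact hS1
        · exact hSn hS1
        · exact hSr
        · exact hSn hSr
        · exact hSm hSr hSr
        · exact hSn (hSm hSr hSr)
        · exact hSs
        · exact hSn hSs
        · exact hSm hSs hSr
        · exact hSn (hSm hSs hSr)
        · exact hSm hSs (hSm hSr hSr)
        · exact hSn (hSm hSs (hSm hSr hSr))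

end Pool.MP43e44c.GU
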