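import Pool.Agent.H.MP_43e44c_ag.GU.MatA

/-!
Existence of an element of order four or six.
-/

set_option autoImplicit false

open Finset

namespace Pool.MP43e44c.GU

/-- The sign cases for determinant one. -/
theorem MatE_one {G : Type*} [Group G] [Finite G] (R : G →* Matrix (Fin 2) (Fin 2) ℚ) {c : G}
    (hc : R c = -1)
    (hno : ¬ ∃ (h : G) (t : ℤ), (t = 0 ∨ t = 1) ∧ (R h).det = 1 ∧ (R h).trace = t) (g : G) :
    (R g = 1 ∨ R g = -1) ∨ ((R g).det = -1 ∧ (R g).trace = 0) := by
  have hm : 0 < Nat.card G := Nat.card_pos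
  have h1 : R g ^ Nat.card G = 1 := by rw [← map_pow, pow_card_eq_one', map_one]
  rcases fin_order (R g) hm h1 with h | ⟨hd, h | h | h | h | h⟩
  · exact Or.inr h
  · exact Or.inl (Or.inl h)
  · exact Or.inl (Or.inr h)
  · exfalso
    refine hno ⟨g * c, 1, Or.inr rfl, ?_, ?_⟩
    · rw [map_mul, hc, mul_neg, mul_one, Matrix.det_neg, Fintype.card_fin, hd]
      norm_num
    · rw [map_mul, hc, mul_neg, mul_one, Matrix.trace_neg, h]
      norm_num
  · exact absurd ⟨g, 0, Or.inl rfl, hd, by rw [h]; norm_num⟩ hno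
  · exact absurd ⟨g, 1, Or.inr rfl, hd, by rw [h]; norm_num⟩ hno

/-- A reflection has an invariant row vector. -/
theorem MatE_vec {s : Matrix (Fin 2) (Fin 2) ℚ} (hd : s.det = -1) (ht : s.trace = 0) :
    s * s = 1 ∧ ∃ v : Fin 2 → ℚ, v ≠ 0 ∧ Matrix.vecMul v s = v := by
  have hs2 : s * s = 1 := by
    rw [Matrix.det_fin_two] at hd
    rw [Matrix.trace_fin_two] at ht
    have h11 : s 1 1 = -s 0 0 := by linarith
    rw [h11] at hd
    ext i j
    fin_cases i <;> fin_cases j <;> simp only [Matrix.mul_apply, Fin.sum_univ_two,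
      Fin.zero_eta, Fin.mk_one, Matrix.one_apply_eq, Fin.isValue]
    · linarith
    · rw [Matrix.one_apply_ne (by decide), h11]
      ring
    · rw [Matrix.one_apply_ne (by decide), h11]
      ring
    · rw [h11]
      linarith
  refine ⟨hs2, ?_⟩
  have h1 : ∃ k, (s + 1) k ≠ 0 := by
    by_contra h
    push Not at h
    have h2 : s = -1 := by
      have h3 : s + 1 = 0 := by
        funext k
        exact h k
      exact eq_neg_of_add_eq_zero_left h3
    rw [h2, Matrix.det_neg, Matrix.det_one, Fintype.card_fin] at hd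
    norm_num at hd
  obtain ⟨k, hk⟩ := h1
  refine ⟨(s + 1) k, hk, ?_⟩
  have h2 : Matrix.vecMul ((s + 1) k) s = ((s + 1) * s) k := by
    funext b
    rfl
  rw [h2, add_mul, hs2, one_mul, add_comm]

/-- PROOF. Every `R g` has finite order (`fin_order` with `m = Nat.card G`).  If all `R g` with determinant
`1` are `±1`, then either all `R g` are `±1` and every line is invariant, or there is `s = R g₀` of
determinant `-1`, trace `0`, `s ^ 2 = 1` (Cayley-Hamilton), `s` has a rational eigenvector `v ≠ 0`
(row vector, `v s = v`), and every `R g` is `±1` or `±s` (`R g * s` has determinant `1` if `det (R g) = -1`), so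
the line of `v` is invariant.  So there is `h` with `det (R h) = 1`, `R h ≠ ±1`, trace `-1, 0` or `1`; replace
`h` by `h * c` if the trace is `-1`. -/
theorem exists_rot {G : Type*} [Group G] [Finite G] (R : G →* Matrix (Fin 2) (Fin 2) ℚ) {c : G}
    (hc : R c = -1)
    (hirr : ∀ v : Fin 2 → ℚ, v ≠ 0 → ∃ g, ∀ a : ℚ, Matrix.vecMul v (R g) ≠ a • v) :
    ∃ (h : G) (t : ℤ), (t = 0 ∨ t = 1) ∧ (R h).det = 1 ∧ (R h).trace = t := by
  by_contra hno
  have hone := MatE_one R hc hno
  by_cases hall : ∀ g, R g = 1 ∨ R g = -1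
  · obtain ⟨g, hg⟩ := hirr (fun _ => 1) (by
      intro h
      have := congrFun h 0
      simp at this)
    rcases hall g with h | h
    · apply hg 1
      rw [h, Matrix.vecMul_one, one_smul]
    · apply hg (-1)
      rw [h, Matrix.vecMul_neg, Matrix.vecMul_one, neg_smul, one_smul]
  · push Not at hall
    obtain ⟨g0, hg0⟩ := hall
    have h0 : (R g0).det = -1 ∧ (R g0).trace = 0 := by
      rcases hone g0 with (h | h) | h
      · exact absurd h hg0.1
      · exact absurd h hg0.2
      · exact h
    obtain ⟨hs2, v, hv, hvs⟩ := MatE_vec h0.1 h0.2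
    obtain ⟨g, hg⟩ := hirr v hv
    rcases hone g with (h | h) | h
    · apply hg 1
      rw [h, Matrix.vecMul_one, one_smul]
    · apply hg (-1)
      rw [h, Matrix.vecMul_neg, Matrix.vecMul_one, neg_smul, one_smul]
    · have hd : (R (g * g0)).det = 1 := by
        rw [map_mul, Matrix.det_mul, h.1, h0.1]
        norm_num
      have h3 : R g = R (g * g0) * R g0 := by
        rw [map_mul, mul_assoc, hs2, mul_one]
      rcases hone (g * g0) with (h4 | h4) | h4
      · apply hg 1
        rw [h3, h4, one_mul, hvs, one_smul]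
      · apply hg (-1)
        rw [h3, h4, neg_mul, one_mul, Matrix.vecMul_neg, hvs, neg_smul, one_smul]
      · rw [h4.1] at hd
        norm_num at hd

end Pool.MP43e44c.GU
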