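import Pool.Agent.H.MP_43e44c_ag.OD.FldC
import Pool.Agent.H.MP_43e44c_ag.GU.Gt

/-!
Kernels of odd representations and subfields.
-/

set_option autoImplicit false

open Finset Module NumberField

namespace Pool.MP43e44c.GU

open Pool.MP43e44c.OD Pool.MP43e44c.GL

/-- The embedding of `K` through its Galois closure. -/
noncomputable def PsiEmb {K : Type*} [Field K] [NumberField K] (e : GC K ≃ₐ[ℚ] K) : K →+* ℂ :=
  ((GC K).val.comp (e.symm : K →ₐ[ℚ] GC K)).toRingHom

theorem PsiEmb_apply {K : Type*} [Field K] [NumberField K] (e : GC K ≃ₐ[ℚ] K) (y : GC K) :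
    PsiEmb e (e y) = (y : ℂ) := by
  show ((e.symm (e y) : GC K) : ℂ) = y
  rw [e.symm_apply_apply]

theorem Psi_lft {K : Type*} [Field K] [NumberField K] (e : GC K ≃ₐ[ℚ] K) (y : GC K) :
    lft (PsiEmb e) (e y) = y :=
  Subtype.ext (by rw [coe_lft, PsiEmb_apply])

theorem Psi_conj {K : Type*} [Field K] [NumberField K] {c : GG K}
    (hc : ∀ φ : K →+* ℂ, c • φ = ComplexEmbedding.conjugate φ) (e : GC K ≃ₐ[ℚ] K) (y : GC K)
    (hy : ((y : ℂ)).im = 0) : c y = y := by
  apply Subtype.ext
  have h1 := congrArg (fun f : K →+* ℂ => f (e y)) (hc (PsiEmb e))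
  simp only [smul_apply, Psi_lft, ComplexEmbedding.conjugate_coe_eq, PsiEmb_apply] at h1
  rw [h1]
  exact Complex.conj_eq_iff_im.2 hy

/-- The subfields attached to the kernels of odd representations. -/
theorem exists_Psi {K : Type*} [Field K] [NumberField K] [IsCMField K] [IsGalois ℚ K] {c : GG K}
    (hc : ∀ φ : K →+* ℂ, c • φ = ComplexEmbedding.conjugate φ) :
    ∃ Ψ : Subgroup (GG K) → IntermediateField ℚ K, Function.Injective Ψ ∧
      ∀ (k : Fin 5) (ρ : GG K →* M2), Typ c k ρ → Ψ ρ.ker ∈ GSub K k := by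
  obtain ⟨e⟩ := FldC_equiv K
  have hfd : FiniteDimensional ℚ (GC K) := e.symm.toLinearEquiv.finiteDimensional
  refine ⟨fun N => (IntermediateField.fixedField N).map (e : GC K →ₐ[ℚ] K), ?_, ?_⟩
  · intro N N' h
    have h1 := IntermediateField.map_injective (e : GC K →ₐ[ℚ] K) h
    rw [← IntermediateField.fixingSubgroup_fixedField N, h1,
      IntermediateField.fixingSubgroup_fixedField]
  · intro k ρ hρ
    have hgal : IsGalois ℚ (IntermediateField.fixedField ρ.ker) :=
      IsGalois.of_fixedField_normal_subgroup ρ.ker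
    let f := (IntermediateField.fixedField ρ.ker).equivMap (e : GC K →ₐ[ℚ] K)
    refine ⟨IsGalois.of_algEquiv f, ?_, ?_⟩
    · have hcN : c ∉ ρ.ker := by
        intro h
        rw [MonoidHom.mem_ker, hρ.odd] at h
        exact absurd h (by decide)
      have h1 : ∃ y ∈ IntermediateField.fixedField ρ.ker, c y ≠ y := by
        by_contra h
        push Not at h
        apply hcN
        rw [← IntermediateField.fixingSubgroup_fixedField ρ.ker]
        rw [IntermediateField.mem_fixingSubgroup_iff]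
        exact h
      obtain ⟨y, hy, hcy⟩ := h1
      refine ⟨e y, ⟨y, hy, rfl⟩, PsiEmb e, ?_⟩
      rw [PsiEmb_apply]
      intro h2
      exact hcy (Psi_conj hc e y h2)
    · exact gtyp_congr ((IsGalois.normalAutEquivQuotient ρ.ker).trans (AlgEquiv.autCongr f))
        (gtyp hρ)

end Pool.MP43e44c.GU
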