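import Pool.Agent.H.MP_43e44c_ag.GU.LatD

/-!
Linearly dependent tuples over a division ring of dimension one.
-/

set_option autoImplicit false

open Finset Module

namespace Pool.MP43e44c.GU

open Pool.MP43e44c.OD

universe u v

/-- Over a division ring of dimension one linear independence over `D` and over `ℚ` agree. -/
theorem S3A_linIndep {D : Type u} [DivisionRing D] [Algebra ℚ D]
    (hb : Function.Surjective (algebraMap ℚ D)) {r : ℕ} (y : Fin r → (Fin r → D)) :
    LinearIndependent D y ↔ LinearIndependent ℚ y := by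
  constructor
  · intro h
    refine LinearIndependent.restrict_scalars ?_ h
    intro a b hab
    have h1 : algebraMap ℚ D a = algebraMap ℚ D b := by
      simpa [Algebra.smul_def] using hab
    exact (algebraMap ℚ D).injective h1
  · intro h
    rw [Fintype.linearIndependent_iff] at h ⊢
    intro g hg
    choose q hq using hb
    have h1 : ∑ i, q (g i) • y i = 0 := by
      rw [← hg]
      apply Finset.sum_congr rfl
      intro i _
      conv_rhs => rw [← hq (g i)]
      rw [algebraMap_smul]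
    intro i
    rw [← hq (g i), h _ h1 i, map_zero]

/-- The statement of `count_depQ` for a division ring of dimension one over `ℚ` (it is `ℚ`:
`algebraMap` is bijective; transport along `(Fin r → D) ≃ₗ[ℚ] (Fin r → ℚ)`; linear independence over
`D` and over `ℚ` are the same). -/
theorem count_depD (r : ℕ) (hr : 3 ≤ r) : ∃ C : ℝ, 0 < C ∧ ∀ {D : Type u} [DivisionRing D]
    [Algebra ℚ D] {κ : Type v} [Fintype κ]
    (j : (Fin r → D) →ₗ[ℚ] EuclideanSpace ℝ κ) (L : AddSubgroup (Fin r → D)),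
    finrank ℚ D = 1 →
    (∀ x ∈ L, x ≠ 0 → 1 ≤ ‖j x‖) → ∀ w : Fin r → (Fin r → D), LinearIndependent D w →
    (∀ l, w l ∈ L ∧ ‖j (w l)‖ ≤ 1) → ∀ R : ℝ, 1 ≤ R →
    {y : Fin r → (Fin r → D) | (∀ l, y l ∈ L ∧ ‖j (y l)‖ ≤ R) ∧ ¬ LinearIndependent D y}.Finite ∧
    ({y : Fin r → (Fin r → D) | (∀ l, y l ∈ L ∧ ‖j (y l)‖ ≤ R) ∧
      ¬ LinearIndependent D y}.ncard : ℝ) ≤ C * R ^ (r ^ 2 - 3) * (1 + Real.log R) := by
  obtain ⟨C, hC, H⟩ := count_depQ r hr
  refine ⟨C, hC, ?_⟩
  intro D _ _ κ _ j L hfin hL w hw hwL R hR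
  have hinj : Function.Injective (Algebra.linearMap ℚ D) := (algebraMap ℚ D).injective
  have hfd : FiniteDimensional ℚ D := Module.finite_of_finrank_pos (by omega)
  have hsurj : Function.Surjective (Algebra.linearMap ℚ D) := by
    have h1 : finrank ℚ ℚ = finrank ℚ D := by rw [hfin, Module.finrank_self]
    exact (LinearMap.injective_iff_surjective_of_finrank_eq_finrank h1).1 hinj
  have hsurj' : Function.Surjective (algebraMap ℚ D) := hsurj
  let ε : ℚ ≃ₗ[ℚ] D := LinearEquiv.ofBijective (Algebra.linearMap ℚ D) ⟨hinj, hsurj⟩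
  let Φ : (Fin r → D) ≃ₗ[ℚ] (Fin r → ℚ) := LinearEquiv.piCongrRight (fun _ => ε.symm)
  let j' : (Fin r → ℚ) →ₗ[ℚ] EuclideanSpace ℝ κ := j ∘ₗ Φ.symm.toLinearMap
  let L' : AddSubgroup (Fin r → ℚ) := L.comap Φ.symm.toLinearMap.toAddMonoidHom
  have hj' : ∀ x, j' x = j (Φ.symm x) := fun x => rfl
  have hL' : ∀ x, x ∈ L' ↔ Φ.symm x ∈ L := fun x => Iff.rfl
  have hli : ∀ y : Fin r → (Fin r → D), LinearIndependent D y ↔
      LinearIndependent ℚ (fun l => Φ (y l)) := by
    intro y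
    rw [S3A_linIndep hsurj']
    exact (Φ.toLinearMap.linearIndependent_iff (v := y) Φ.ker).symm
  obtain ⟨hf, hc⟩ := H j' L' (fun x hx hx0 => by
      rw [hj']
      exact hL _ ((hL' x).1 hx) (fun h0 => hx0 (by simpa using h0)))
    (fun l => Φ (w l)) ((hli w).1 hw) (fun l => by
      rw [hj', hL', Φ.symm_apply_apply]
      exact hwL l) R hR
  set S' := {y : Fin r → (Fin r → ℚ) | (∀ l, y l ∈ L' ∧ ‖j' (y l)‖ ≤ R) ∧
    ¬ LinearIndependent ℚ y} with hS'
  set S := {y : Fin r → (Fin r → D) | (∀ l, y l ∈ L ∧ ‖j (y l)‖ ≤ R) ∧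
    ¬ LinearIndependent D y} with hS
  let F : (Fin r → (Fin r → D)) → (Fin r → (Fin r → ℚ)) := fun y l => Φ (y l)
  have hF : Function.Injective F := by
    intro y z hyz
    funext l
    exact Φ.injective (congrFun hyz l)
  have hSS : F '' S ⊆ S' := by
    rintro _ ⟨y, ⟨hy1, hy2⟩, rfl⟩
    refine ⟨fun l => ?_, fun h => hy2 ((hli y).2 h)⟩
    show Φ (y l) ∈ L' ∧ ‖j' (Φ (y l))‖ ≤ R
    rw [hj', hL', Φ.symm_apply_apply]
    exact hy1 l
  refine ⟨Set.Finite.of_finite_image (hf.subset hSS) hF.injOn, le_trans ?_ hc⟩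
  rw [← Set.ncard_image_of_injective S hF]
  exact_mod_cast Set.ncard_le_ncard hSS hf

end Pool.MP43e44c.GU
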