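import Pool.Agent.H.MP_43e44c_ag.GU.S3A
import Pool.Agent.H.MP_43e44c_ag.GA.Sup
import Pool.Agent.H.MP_43e44c_ag.GA.Small
import Pool.Agent.H.MP_43e44c_ag.OD.Lat
import Pool.Agent.H.MP_43e44c_ag.OD.Hoef

/-!
Components which are matrix algebras of size at least three over the rationals.
-/

set_option autoImplicit false

open Finset Module

namespace Pool.MP43e44c.GU

open Pool.MP43e44c.OD Pool.MP43e44c.GA

universe u v

theorem S3B_log {N n : ℝ} (hN : 1 ≤ N) (hn : 2 ≤ n) :
    1 + Real.log (Real.sqrt (4 * N * (n * Real.log n))) ≤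
      (1 + Real.log (4 * N)) * (1 + Real.log n) := by
  have hlog : 0 < Real.log n := Real.log_pos (by linarith)
  have h4N : 0 ≤ Real.log (4 * N) := Real.log_nonneg (by linarith)
  have hl2 : Real.log (Real.log n) ≤ Real.log n :=
    Real.log_le_log hlog ((Real.log_le_sub_one_of_pos (by linarith)).trans (by linarith))
  rw [Real.log_sqrt (by positivity),
    Real.log_mul (x := 4 * N) (y := n * Real.log n) (by positivity) (by positivity),
    Real.log_mul (x := n) (y := Real.log n) (by positivity) (by positivity)]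
  nlinarith [mul_nonneg h4N hlog.le]

/-- PROOF as `badI_dep` in OD/DMain.lean (or GA/Small.lean): `j, w` from `exists_norm` (OD/Lat.lean, it
holds for every group), `y_l(v) = w l ᵥ* comp i (el v) ∈ latL W i w`, `R ^ 2 = 4 r n log n` (`hoef` with the
index set `ι`), outside of a set of `C n ^ (-2) 2 ^ n` sign vectors `‖j (y_l(v))‖ ≤ R`; for a bad `v` the
tuple is dependent; `count_depD` (the `w l = w l ᵥ* 1` are in `latL W i w`, with norm one), and for a given
tuple at most `(C √(a / n)) ^ a 2 ^ n` sign vectors (`sup_comp`), `a = r ^ 2`. -/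
theorem badI_depQ (r : ℕ) (hr : 3 ≤ r) : ∃ C : ℝ, 0 < C ∧
    ∀ {G : Type u} [Group G] {ι : Type v} (H : Half G ι) [Fintype G] [Fintype ι] (W : WD ℚ G)
      (i : Fin W.m), H.Odd W i → W.r i = r → finrank ℚ (W.D i) = 1 → 2 ≤ Fintype.card ι →
    (((H.badI W i).ncard : ℕ) : ℝ) ≤ (C * (Fintype.card ι : ℝ) ^ (-2 : ℝ) +
      C * ((Fintype.card ι : ℝ) * Real.log (Fintype.card ι)) ^ (((r : ℝ) ^ 2 - 3) / 2) *
        (1 + Real.log (Fintype.card ι)) *
        (Fintype.card ι : ℝ) ^ (-((r : ℝ) ^ 2) / 2)) * 2 ^ Fintype.card ι := by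
  classical
  obtain ⟨C1, hC1, hcd⟩ := count_depD.{u, u} r hr
  obtain ⟨C2, hC2, hsup⟩ := Half.sup_comp.{u, v}
  have hrR : (3 : ℝ) ≤ r := by exact_mod_cast hr
  set e : ℝ := (r : ℝ) ^ 2 - 3 with he
  set a : ℕ := r ^ 2 with ha
  set K : ℝ := 1 + Real.log (4 * r) with hK
  have hKp : 0 < K := by
    have h1 : 0 ≤ Real.log (4 * (r : ℝ)) := Real.log_nonneg (by linarith)
    linarith
  set C3 : ℝ := C1 * (4 * r : ℝ) ^ (e / 2) * K * (C2 * Real.sqrt a) ^ a with hC3
  have hapos : (0 : ℝ) < a := by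
    have : 0 < r ^ 2 := by positivity
    exact_mod_cast this
  have hC3p : 0 < C3 := by
    have h1 : (0 : ℝ) < 4 * r := by linarith
    have h2 : 0 < Real.sqrt (a : ℝ) := Real.sqrt_pos.2 hapos
    positivity
  have hrN : (0 : ℝ) ≤ r * (2 * r) := by positivity
  refine ⟨r * (2 * r) + C3, by linarith, ?_⟩
  intro G _ ι H _ _ W i hi hri hδi hn
  have hai : W.a i = a := by
    unfold WD.a
    rw [hri, hδi, mul_one]
  set n : ℝ := (Fintype.card ι : ℝ) with hnd
  have hn2 : (2 : ℝ) ≤ n := by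
    rw [hnd]
    exact_mod_cast hn
  have hn0 : 0 < n := by linarith
  have hlog : 0 < Real.log n := Real.log_pos (by linarith)
  have hlog2 : (1 / 2 : ℝ) ≤ Real.log n := by
    have h1 := Real.log_two_gt_d9
    have h2 := Real.log_le_log (by norm_num) hn2
    linarith
  obtain ⟨κ, hκ, j, w, hw, hj1, hj2⟩ := exists_norm W i
  have hfr : finrank ℚ (Fin (W.r i) → W.D i) = r := by
    rw [Module.finrank_pi_fintype]
    simp only [sum_const, card_univ, Fintype.card_fin, smul_eq_mul]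
    rw [hri, hδi, mul_one]
  set t : ℝ := Real.sqrt (4 * n * Real.log n) with ht
  have ht2 : t ^ 2 = 4 * n * Real.log n := Real.sq_sqrt (by positivity)
  set R : ℝ := Real.sqrt (r * t ^ 2) with hR
  have hR1 : 1 ≤ R := by
    rw [hR, ht2]
    rw [Real.one_le_sqrt]
    nlinarith [mul_le_mul hn2 hlog2 (by norm_num) hn0.le]
  -- the vectors with a long row
  have hS : ∀ l, ((univ.filter fun v : ι → Bool =>
      r * t ^ 2 < ‖j (Half.Small_y H W i w v l)‖ ^ 2).card : ℝ) ≤ 2 * r * n ^ (-2 : ℝ) *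
        2 ^ Fintype.card ι := by
    intro l
    have h1 := hoef (fun g : ι => j (Half.Small_m H W i w l g)) (fun g => (hj1 l (H.t g)).le)
      (N := r) ((dm_span j (Half.Small_m H W i w l)).trans hfr.le) (t := t) (Real.sqrt_nonneg _)
    rw [← hnd, ht, dm_exp_log hn2, ← ht] at h1
    have h2 : ({v : ι → Bool | r * t ^ 2 < ‖∑ g, (if v g then (1 : ℝ) else -1) •
        (fun g : ι => j (Half.Small_m H W i w l g)) g‖ ^ 2}.ncard : ℕ) =
        (univ.filter fun v : ι → Bool => r * t ^ 2 < ‖j (Half.Small_y H W i w v l)‖ ^ 2).card := by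
      rw [← Set.ncard_coe_finset]
      congr 1
      ext v
      simp only [Set.mem_ofPred_eq, coe_filter, mem_univ, true_and]
      rw [Half.Small_j]
    rw [h2] at h1
    exact h1
  set Yd : Set (Fin (W.r i) → (Fin (W.r i) → W.D i)) :=
    {y | (∀ l, y l ∈ latL W i w ∧ ‖j (y l)‖ ≤ R) ∧ ¬ LinearIndependent (W.D i) y} with hYd
  have hwL : ∀ l, w l ∈ latL W i w ∧ ‖j (w l)‖ ≤ 1 := by
    intro l
    have h1 : Matrix.vecMul (w l) (W.comp i (MonoidAlgebra.single 1 1)) = w l := by
      have h2 : (MonoidAlgebra.single (1 : G) 1 : MonoidAlgebra ℚ G) = 1 := rfl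
      rw [h2, map_one, Matrix.vecMul_one]
    have h3 : Matrix.vecMul (w l) (W.comp i (MonoidAlgebra.single 1 1)) ∈ latL W i w :=
      AddSubgroup.subset_closure ⟨(l, 1), rfl⟩
    have h4 := (hj1 l 1).le
    rw [h1] at h3 h4
    exact ⟨h3, h4⟩
  have hYc : Yd.Finite ∧ ((Yd.ncard : ℕ) : ℝ) ≤ C1 * R ^ (r ^ 2 - 3) * (1 + Real.log R) := by
    clear_value e K
    subst hri
    exact hcd j (latL W i w) hδi hj2 w hw hwL R hR1
  have hRr : R = Real.sqrt (4 * r * (n * Real.log n)) := by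
    rw [hR, ht2]
    congr 1
    ring
  have hRe : R ^ (r ^ 2 - 3) = (4 * r : ℝ) ^ (e / 2) * (n * Real.log n) ^ (e / 2) := by
    have h9 : 3 ≤ r ^ 2 := by nlinarith
    have h1 : ((r ^ 2 - 3 : ℕ) : ℝ) = e := by
      rw [he, Nat.cast_sub h9]
      push_cast
      ring
    rw [← Real.rpow_natCast, h1, hRr, Real.sqrt_eq_rpow, ← Real.rpow_mul (by positivity),
      ← Real.mul_rpow (by positivity) (by positivity)]
    congr 1
    ring
  have hRl : 1 + Real.log R ≤ K * (1 + Real.log n) := by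
    rw [hRr]
    exact S3B_log (by linarith) hn2
  set A := (n * Real.log n) ^ (e / 2) with hA
  have hAp : 0 ≤ A := by positivity
  have hYc2 : ((Yd.ncard : ℕ) : ℝ) ≤ C1 * ((4 * r : ℝ) ^ (e / 2) * A) * (K * (1 + Real.log n)) := by
    refine hYc.2.trans ?_
    rw [hRe]
    exact mul_le_mul_of_nonneg_left hRl (by positivity)
  set TF : Finset (ι → Bool) := univ.filter fun v => Half.Small_y H W i w v ∈ Yd with hTF
  have hT : (TF.card : ℝ) ≤ (C1 * ((4 * r : ℝ) ^ (e / 2) * A) * (K * (1 + Real.log n))) *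
      ((C2 * Real.sqrt (a / n)) ^ a * 2 ^ Fintype.card ι) := by
    have h1 := card_eq_sum_card_image (Half.Small_y H W i w) TF
    have h2 : (TF.card : ℝ) ≤ ∑ y ∈ TF.image (Half.Small_y H W i w),
        ((C2 * Real.sqrt (a / n)) ^ a * 2 ^ Fintype.card ι) := by
      rw [h1]
      push_cast
      refine sum_le_sum fun y hy => ?_
      obtain ⟨v0, hv0, rfl⟩ := mem_image.1 hy
      have h3 := hsup H W i hi (W.comp i (H.el ℚ v0))
      rw [hai] at h3
      refine le_trans ?_ h3
      rw [← Set.ncard_coe_finset]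
      have h4 : ((TF.filter fun v => Half.Small_y H W i w v = Half.Small_y H W i w v0 :
          Finset (ι → Bool)) : Set (ι → Bool)) ⊆
          {v | W.comp i (H.el ℚ v) = W.comp i (H.el ℚ v0)} := by
        intro v hv
        rw [mem_coe, mem_filter] at hv
        exact Half.Small_inj H W i hw hv.2
      exact_mod_cast Set.ncard_le_ncard h4 (Set.toFinite _)
    rw [sum_const, nsmul_eq_mul] at h2
    refine h2.trans (mul_le_mul_of_nonneg_right ?_ (by positivity))
    refine le_trans ?_ hYc2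
    rw [← Set.ncard_coe_finset]
    have h5 : ((TF.image (Half.Small_y H W i w) : Finset _) : Set _) ⊆ Yd := by
      intro y hy
      rw [mem_coe, mem_image] at hy
      obtain ⟨v, hv, rfl⟩ := hy
      exact (mem_filter.1 hv).2
    exact_mod_cast Set.ncard_le_ncard h5 hYc.1
  -- the bad vectors
  have hsub : H.badI W i ⊆ ((univ.biUnion (fun l => univ.filter fun v : ι → Bool =>
      r * t ^ 2 < ‖j (Half.Small_y H W i w v l)‖ ^ 2) ∪ TF : Finset (ι → Bool)) :
        Set (ι → Bool)) := by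
    intro v hv
    rw [mem_coe, mem_union]
    by_cases h1 : ∃ l, r * t ^ 2 < ‖j (Half.Small_y H W i w v l)‖ ^ 2
    · obtain ⟨l, hl⟩ := h1
      left
      exact mem_biUnion.2 ⟨l, mem_univ l, mem_filter.2 ⟨mem_univ v, hl⟩⟩
    · right
      push Not at h1
      refine mem_filter.2 ⟨mem_univ v, fun l => ⟨Half.Small_mem H W i w v l, ?_⟩,
        Half.Small_bad H W i hw hv⟩
      exact Real.le_sqrt_of_sq_le (h1 l)
  have hcard : (((H.badI W i).ncard : ℕ) : ℝ) ≤ (r * (2 * r * n ^ (-2 : ℝ) *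
      2 ^ Fintype.card ι)) + (C1 * ((4 * r : ℝ) ^ (e / 2) * A) * (K * (1 + Real.log n))) *
      ((C2 * Real.sqrt (a / n)) ^ a * 2 ^ Fintype.card ι) := by
    have h1 := Set.ncard_le_ncard hsub (Set.toFinite _)
    rw [Set.ncard_coe_finset] at h1
    have h2 := (h1.trans (card_union_le _ _))
    have h3 : (((univ.biUnion (fun l => univ.filter fun v : ι → Bool =>
        r * t ^ 2 < ‖j (Half.Small_y H W i w v l)‖ ^ 2)).card : ℕ) : ℝ) ≤
        r * (2 * r * n ^ (-2 : ℝ) * 2 ^ Fintype.card ι) := by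
      have h4 : (((univ.biUnion (fun l => univ.filter fun v : ι → Bool =>
          r * t ^ 2 < ‖j (Half.Small_y H W i w v l)‖ ^ 2)).card : ℕ) : ℝ) ≤
          ∑ l, ((univ.filter fun v : ι → Bool =>
            r * t ^ 2 < ‖j (Half.Small_y H W i w v l)‖ ^ 2).card : ℝ) := by
        exact_mod_cast card_biUnion_le
      refine h4.trans ((sum_le_sum fun l _ => hS l).trans ?_)
      rw [sum_const, card_univ, Fintype.card_fin, hri, nsmul_eq_mul]
    have h5 : (((H.badI W i).ncard : ℕ) : ℝ) ≤ (((univ.biUnion (fun l => univ.filter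
        fun v : ι → Bool => r * t ^ 2 < ‖j (Half.Small_y H W i w v l)‖ ^ 2)).card : ℕ) : ℝ) +
        (TF.card : ℝ) := by
      exact_mod_cast h2
    linarith
  refine hcard.trans ?_
  have hpa := dm_pow (c := C2) hn0 a
  rw [hpa]
  have hae : (-(a : ℝ) / 2) = -((r : ℝ) ^ 2) / 2 := by
    rw [ha]
    push_cast
    ring
  rw [hae]
  set B := n ^ (-((r : ℝ) ^ 2) / 2) with hB
  set Q := n ^ (-2 : ℝ) with hQ
  have hBp : 0 ≤ B := by positivity
  have hQp : 0 ≤ Q := by positivity
  have h2p : (0 : ℝ) ≤ 2 ^ Fintype.card ι := by positivity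
  have e1 : r * (2 * r * Q * 2 ^ Fintype.card ι) + C1 * ((4 * r : ℝ) ^ (e / 2) * A) *
      (K * (1 + Real.log n)) *
      ((C2 * Real.sqrt a) ^ a * B * 2 ^ Fintype.card ι) =
      (r * (2 * r) * Q + C3 * A * (1 + Real.log n) * B) * 2 ^ Fintype.card ι := by
    rw [hC3]
    ring
  rw [e1]
  refine mul_le_mul_of_nonneg_right ?_ h2p
  have h6 : r * (2 * r) * Q ≤ (r * (2 * r) + C3) * Q :=
    mul_le_mul_of_nonneg_right (by linarith) hQp
  have h7 : C3 * A * (1 + Real.log n) * B ≤ (r * (2 * r) + C3) * A * (1 + Real.log n) * B :=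
    mul_le_mul_of_nonneg_right (mul_le_mul_of_nonneg_right
      (mul_le_mul_of_nonneg_right (by linarith) hAp) (by linarith)) hBp
  linarith

end Pool.MP43e44c.GU
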